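import Pool.Agent.Y66.HC.BB

/-!
# Generators of the Bestvina-Brady group
-/

set_option autoImplicit false

namespace Pool.Agent.Y66.HC

open Pool.Agent.W326.DU

section gens

variable {V : Type} {ad : V → V → Prop}

/-- the subgroup generated by the edges -/
def H1 (ad : V → V → Prop) : Subgroup (RAAG ad) :=
  Subgroup.closure {g | ∃ a b, ad a b ∧ g = gen ad a * (gen ad b)⁻¹}

theorem H1_edge {a b : V} (h : ad a b) : gen ad a * (gen ad b)⁻¹ ∈ H1 ad :=
  Subgroup.subset_closure ⟨a, b, h, rfl⟩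

theorem H1_edge' {a b : V} (h : ad a b) : (gen ad a)⁻¹ * gen ad b ∈ H1 ad := by
  have hc : Commute (gen ad a)⁻¹ (gen ad b) := (show Commute _ _ from gcomm h).inv_left
  rw [hc.eq]
  have := inv_mem (H1_edge h)
  rwa [mul_inv_rev, inv_inv] at this

theorem H1_pair (conn : ∀ a b, Relation.ReflTransGen ad a b) (a b : V) :
    gen ad a * (gen ad b)⁻¹ ∈ H1 ad := by
  induction conn a b with
  | refl => rw [mul_inv_cancel]; exact one_mem _
  | tail _ h ih =>
    have := mul_mem ih (H1_edge h)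
    rwa [mul_assoc, inv_mul_cancel_left] at this

theorem H1_pair' (conn : ∀ a b, Relation.ReflTransGen ad a b) (a b : V) :
    (gen ad a)⁻¹ * gen ad b ∈ H1 ad := by
  induction conn a b with
  | refl => rw [inv_mul_cancel]; exact one_mem _
  | tail _ h ih =>
    have := mul_mem ih (H1_edge' h)
    rwa [mul_assoc, mul_inv_cancel_left] at this

theorem H1_conj (conn : ∀ a b, Relation.ReflTransGen ad a b) (v : V) {h : RAAG ad}
    (hh : h ∈ H1 ad) : gen ad v * h * (gen ad v)⁻¹ ∈ H1 ad := by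
  induction hh using Subgroup.closure_induction with
  | mem h hh =>
    obtain ⟨b, c, hbc, rfl⟩ := hh
    have hc : gen ad b * (gen ad b * (gen ad c)⁻¹) * (gen ad b)⁻¹ = gen ad b * (gen ad c)⁻¹ := by
      have h1 : Commute (gen ad b) (gen ad b * (gen ad c)⁻¹) :=
        (Commute.refl _).mul_right (show Commute _ _ from gcomm hbc).inv_right
      rw [h1.eq, mul_inv_cancel_right]
    have e : gen ad v * (gen ad b * (gen ad c)⁻¹) * (gen ad v)⁻¹ =
        (gen ad v * (gen ad b)⁻¹) * (gen ad b * (gen ad b * (gen ad c)⁻¹) * (gen ad b)⁻¹) *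
          (gen ad v * (gen ad b)⁻¹)⁻¹ := by group
    rw [e, hc]
    exact mul_mem (mul_mem (H1_pair conn v b) (H1_edge hbc)) (inv_mem (H1_pair conn v b))
  | one => rw [mul_one, mul_inv_cancel]; exact one_mem _
  | mul a b _ _ ha hb =>
    have : gen ad v * (a * b) * (gen ad v)⁻¹ =
      (gen ad v * a * (gen ad v)⁻¹) * (gen ad v * b * (gen ad v)⁻¹) := by group
    rw [this]; exact mul_mem ha hb
  | inv a _ ha =>
    have : gen ad v * a⁻¹ * (gen ad v)⁻¹ = (gen ad v * a * (gen ad v)⁻¹)⁻¹ := by group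
    rw [this]; exact inv_mem ha

theorem H1_conj' (conn : ∀ a b, Relation.ReflTransGen ad a b) (v : V) {h : RAAG ad}
    (hh : h ∈ H1 ad) : (gen ad v)⁻¹ * h * gen ad v ∈ H1 ad := by
  induction hh using Subgroup.closure_induction with
  | mem h hh =>
    obtain ⟨b, c, hbc, rfl⟩ := hh
    have hc : (gen ad b)⁻¹ * (gen ad b * (gen ad c)⁻¹) * gen ad b = gen ad b * (gen ad c)⁻¹ := by
      have h1 : Commute (gen ad b)⁻¹ (gen ad b * (gen ad c)⁻¹) :=
        ((Commute.refl _).mul_right (show Commute _ _ from gcomm hbc).inv_right).inv_left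
      rw [h1.eq, inv_mul_cancel_right]
    have e : (gen ad v)⁻¹ * (gen ad b * (gen ad c)⁻¹) * gen ad v =
        ((gen ad b)⁻¹ * gen ad v)⁻¹ * ((gen ad b)⁻¹ * (gen ad b * (gen ad c)⁻¹) * gen ad b) *
          ((gen ad b)⁻¹ * gen ad v) := by group
    rw [e, hc]
    exact mul_mem (mul_mem (inv_mem (H1_pair' conn b v)) (H1_edge hbc)) (H1_pair' conn b v)
  | one => rw [mul_one, inv_mul_cancel]; exact one_mem _
  | mul a b _ _ ha hb =>
    have : (gen ad v)⁻¹ * (a * b) * gen ad v =
      ((gen ad v)⁻¹ * a * gen ad v) * ((gen ad v)⁻¹ * b * gen ad v) := by group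
    rw [this]; exact mul_mem ha hb
  | inv a _ ha =>
    have : (gen ad v)⁻¹ * a⁻¹ * gen ad v = ((gen ad v)⁻¹ * a * gen ad v)⁻¹ := by group
    rw [this]; exact inv_mem ha

theorem H1_normal (conn : ∀ a b, Relation.ReflTransGen ad a b) : (H1 ad).Normal := by
  have key : ∀ g : RAAG ad, ∀ h, h ∈ H1 ad ↔ g * h * g⁻¹ ∈ H1 ad := by
    intro g
    have hg : g ∈ Subgroup.closure (Set.range (gen ad)) := by rw [closure_gen']; trivial
    induction hg using Subgroup.closure_induction with
    | mem x hx =>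
      obtain ⟨v, rfl⟩ := hx
      intro h
      refine ⟨fun hh => H1_conj conn v hh, fun hh => ?_⟩
      have := H1_conj' conn v hh
      have e : (gen ad v)⁻¹ * (gen ad v * h * (gen ad v)⁻¹) * gen ad v = h := by group
      rwa [e] at this
    | one => intro h; simp
    | mul x y _ _ hx hy =>
      intro h
      rw [hy h, hx (y * h * y⁻¹)]
      have : x * y * h * (x * y)⁻¹ = x * (y * h * y⁻¹) * x⁻¹ := by group
      rw [this]
    | inv x _ hx =>
      intro h
      rw [hx (x⁻¹ * h * x⁻¹⁻¹)]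
      have : x * (x⁻¹ * h * x⁻¹⁻¹) * x⁻¹ = h := by group
      rw [this]
  exact ⟨fun h hh g => (key g h).1 hh⟩

theorem mem_H1_of_hz (conn : ∀ a b, Relation.ReflTransGen ad a b) (v0 : V) {g : RAAG ad}
    (hg : hz g = 0) : g ∈ H1 ad := by
  have hn := H1_normal conn
  have key : ∀ g : RAAG ad, g * (gen ad v0 ^ hz g)⁻¹ ∈ H1 ad := by
    intro g
    have hg : g ∈ Subgroup.closure (Set.range (gen ad)) := by rw [closure_gen']; trivial
    induction hg using Subgroup.closure_induction with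
    | mem x hx =>
      obtain ⟨v, rfl⟩ := hx
      rw [hz_gen, zpow_one]
      exact H1_pair conn v v0
    | one => rw [hz_one, zpow_zero, inv_one, mul_one]; exact one_mem _
    | mul x y _ _ hx hy =>
      have e : x * y * (gen ad v0 ^ hz (x * y))⁻¹ = (x * (gen ad v0 ^ hz x)⁻¹) *
          (gen ad v0 ^ hz x * (y * (gen ad v0 ^ hz y)⁻¹) * (gen ad v0 ^ hz x)⁻¹) := by
        rw [hz_mul, add_comm, zpow_add]; group
      rw [e]
      exact mul_mem hx (hn.conj_mem _ hy _)
    | inv x _ hx =>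
      have e : x⁻¹ * (gen ad v0 ^ hz x⁻¹)⁻¹ =
          x⁻¹ * (x * (gen ad v0 ^ hz x)⁻¹)⁻¹ * x⁻¹⁻¹ := by
        rw [hz_inv, zpow_neg]; group
      rw [e]
      exact hn.conj_mem _ (inv_mem hx) _
  have := key g
  rwa [hg, zpow_zero, inv_one, mul_one] at this

theorem H1_eq (conn : ∀ a b, Relation.ReflTransGen ad a b) (v0 : V) : H1 ad = (ht ad).ker := by
  apply le_antisymm
  · unfold H1
    rw [Subgroup.closure_le]
    rintro _ ⟨a, b, _, rfl⟩
    show ht ad _ = 1
    rw [map_mul, map_inv, ht_gen, ht_gen, mul_inv_cancel]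
  · intro g hg
    exact mem_H1_of_hz conn v0 (by unfold hz; rw [MonoidHom.mem_ker.1 hg]; rfl)

end gens

section pi

variable {V : Type} (ad : V → V → Prop)

/-- the surjection from the free group onto the Bestvina-Brady group -/
def piB : FreeGroup (V × V) →* HH ad := ((pr ad).comp (jf V)).codRestrict _ (by
  intro u
  show ht ad (pr ad (jf V u)) = 1
  have := hz_jf (ad := ad) u
  unfold hz at this
  exact this)

theorem piB_coe (u : FreeGroup (V × V)) : ((piB ad u : HH ad) : RAAG ad) = pr ad (jf V u) := rfl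

theorem piB_ker : (piB ad).ker = ((pr ad).comp (jf V)).ker := by
  ext u
  rw [MonoidHom.mem_ker, MonoidHom.mem_ker]
  constructor
  · intro h
    exact congrArg Subtype.val h
  · intro h
    exact Subtype.ext h

theorem piB_surj {ad : V → V → Prop} (conn : ∀ a b, Relation.ReflTransGen ad a b) (v0 : V) :
    Function.Surjective (piB ad) := by
  rintro ⟨g, hg⟩
  rw [← H1_eq conn v0] at hg
  have h1 : H1 ad ≤ ((pr ad).comp (jf V)).range := by
    unfold H1
    rw [Subgroup.closure_le]
    rintro _ ⟨a, b, _, rfl⟩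
    refine ⟨FreeGroup.of (a, b), ?_⟩
    rw [MonoidHom.comp_apply, jf_of, map_mul, map_inv]
    rfl
  obtain ⟨u, hu⟩ := h1 hg
  exact ⟨u, Subtype.ext hu⟩

end pi

end Pool.Agent.Y66.HC
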