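import Pool.Agent.Y66.HC.IL

/-!
# The edge group is finitely generated if the relation module is
-/

set_option autoImplicit false

namespace Pool.Agent.Y66.HC

open Pool.Agent.W326.DU
open Pool.Agent.W490.DU (of_sub_mem_IL IL_le)

/-- the family `b` with `z` added -/
def optf {P β : Type} (b : β → P) (z : P) : Option β → P := fun o => o.elim z b

theorem fox_opt {P β : Type} [Group P] [Fintype β] (b : β → P) (z : P) (c : Option β → ZG P) :
    fox (optf b z) c = c none * (MonoidAlgebra.of ℤ P z - 1) + fox b (fun i => c (some i)) := by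
  rw [fox_apply, fox_apply, Fintype.sum_option]
  rfl

/-- **M5** -/
theorem sigma_fg {P β : Type} [Group P] [Fintype β] (b : β → P) (z : P) (Sg : Subgroup P)
    (hsub : ∀ s ∈ Sg, s ∈ Subgroup.closure (Set.range b))
    (hcomm : ∀ s ∈ Sg, s * z = z * s)
    (hstar : ∀ x : ZG P, x * (MonoidAlgebra.of ℤ P z - 1) ∈ IL ℤ (Set.range b) →
      x ∈ IL ℤ (Sg : Set P))
    (hfg : (RM (optf b z)).FG) : ∃ T : Finset P, Subgroup.closure (T : Set P) = Sg := by
  classical
  obtain ⟨W, hW⟩ := hfg
  -- the `z`-coordinates lie in the left ideal of `Sg`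
  have h1 : ∀ w ∈ RM (optf b z), w none ∈ IL ℤ (Sg : Set P) := by
    intro w hw
    apply hstar
    have h2 : fox (optf b z) w = 0 := hw
    rw [fox_opt] at h2
    rw [eq_neg_of_add_eq_zero_left h2]
    exact Submodule.neg_mem _ (fox_mem_IL b _)
  have h2 : ∃ T : Finset P, (T : Set P) ⊆ Sg ∧ ∀ w ∈ W, w none ∈ IL ℤ (T : Set P) := by
    have h3 : ∀ w ∈ W, w none ∈ IL ℤ (Sg : Set P) := fun w hw => h1 w (by
      rw [← hW]; exact Submodule.subset_span hw)
    clear hW
    induction W using Finset.induction_on with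
    | empty => exact ⟨∅, by simp, by simp⟩
    | insert a W _ ih =>
      obtain ⟨T, hT, hT2⟩ := ih (fun w hw => h3 w (Finset.mem_insert_of_mem hw))
      obtain ⟨T', hT', hT2'⟩ := mem_IL_finite (h3 a (Finset.mem_insert_self _ _))
      refine ⟨T ∪ T', ?_, ?_⟩
      · rw [Finset.coe_union]; exact Set.union_subset hT hT'
      · intro w hw
        rcases Finset.mem_insert.1 hw with rfl | hw
        · exact IL_mono (by simp) hT2'
        · exact IL_mono (by simp) (hT2 w hw)
  obtain ⟨T, hT, hT2⟩ := h2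
  have h4 : ∀ w ∈ RM (optf b z), w none ∈ IL ℤ (T : Set P) := by
    intro w hw
    rw [← hW] at hw
    induction hw using Submodule.span_induction with
    | mem w hw => exact hT2 w hw
    | zero => exact Submodule.zero_mem _
    | add x y _ _ hx hy => exact Submodule.add_mem _ hx hy
    | smul r x _ hx => exact Submodule.smul_mem _ r hx
  refine ⟨T, le_antisymm ((Subgroup.closure_le _).2 hT) ?_⟩
  intro s hs
  apply mem_closure_of
  have h5 : MonoidAlgebra.of ℤ P s - 1 ∈ IL ℤ (Set.range b) := of_sub_mem_IL ℤ (hsub s hs)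
  obtain ⟨c, hc⟩ := (mem_IL_range b _).1 h5
  have h6 := h4 (fun o => o.elim (MonoidAlgebra.of ℤ P s - 1)
    (fun i => -(MonoidAlgebra.of ℤ P z - 1) * c i)) (by
      show fox (optf b z) _ = 0
      rw [fox_opt]
      show (MonoidAlgebra.of ℤ P s - 1) * (MonoidAlgebra.of ℤ P z - 1) +
        fox b (fun i => -(MonoidAlgebra.of ℤ P z - 1) * c i) = 0
      have h7 : (fun i => -(MonoidAlgebra.of ℤ P z - 1) * c i) =
        (-(MonoidAlgebra.of ℤ P z - 1)) • c := rfl
      rw [h7, map_smul, hc, smul_eq_mul, neg_mul]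
      have h8 : MonoidAlgebra.of ℤ P s * MonoidAlgebra.of ℤ P z =
          MonoidAlgebra.of ℤ P z * MonoidAlgebra.of ℤ P s := by
        rw [← map_mul, hcomm s hs, map_mul]
      have h9 : (MonoidAlgebra.of ℤ P s - 1) * (MonoidAlgebra.of ℤ P z - 1) =
          (MonoidAlgebra.of ℤ P z - 1) * (MonoidAlgebra.of ℤ P s - 1) := by
        rw [sub_mul, mul_sub, mul_sub, sub_mul, mul_sub, mul_sub, h8]
        simp only [mul_one, one_mul]
        abel
      rw [h9, add_neg_cancel])
  exact h6

/-- the kernel of `F → Q` is normally finitely generated if `F ×_Q F` is finitely generated -/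
theorem normal_fg {F Q : Type} [Group F] [Group Q] (π : F →* Q) {P : Type} [Group P]
    (a : P → F) (b : P →* F) (Sg : Subgroup P)
    (ha1 : ∀ p ∈ Sg, ∀ q ∈ Sg, a (p * q) = a p * a q) (ha2 : ∀ p ∈ Sg, a p⁻¹ = (a p)⁻¹)
    (ha3 : a 1 = 1)
    (h1 : ∀ p ∈ Sg, π (a p) = π (b p))
    (h2 : ∀ k, π k = 1 → ∃ p ∈ Sg, a p = k ∧ b p = 1)
    (T : Finset P) (hT : Subgroup.closure (T : Set P) = Sg) :
    ∃ S : Finset F, Subgroup.normalClosure (S : Set F) = π.ker := by
  classical
  refine ⟨T.image (fun p => a p * (b p)⁻¹), le_antisymm ?_ ?_⟩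
  · refine Subgroup.normalClosure_le_normal ?_
    intro x hx
    rw [Finset.coe_image] at hx
    obtain ⟨p, hp, rfl⟩ := hx
    have hpS : p ∈ Sg := by rw [← hT]; exact Subgroup.subset_closure hp
    show a p * (b p)⁻¹ ∈ π.ker
    rw [MonoidHom.mem_ker, map_mul, map_inv, h1 p hpS, mul_inv_cancel]
  · intro k hk
    obtain ⟨p, hp, rfl, hb⟩ := h2 k hk
    set N := Subgroup.normalClosure ((T.image (fun p => a p * (b p)⁻¹) : Finset F) : Set F)
    have key : ∀ p ∈ Sg, a p * (b p)⁻¹ ∈ N := by
      intro p hp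
      rw [← hT] at hp
      induction hp using Subgroup.closure_induction with
      | mem p hp =>
        apply Subgroup.subset_normalClosure
        rw [Finset.coe_image]
        exact ⟨p, hp, rfl⟩
      | one => rw [ha3, map_one, inv_one, mul_one]; exact one_mem _
      | mul p q hp hq h3 h4 =>
        rw [hT] at hp hq
        rw [ha1 p hp q hq, map_mul]
        have : a p * a q * (b p * b q)⁻¹ = (a p * (b p)⁻¹) * (b p * (a q * (b q)⁻¹) * (b p)⁻¹) := by
          group
        rw [this]
        exact mul_mem h3 (Subgroup.normalClosure_normal.conj_mem _ h4 _)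
      | inv p hp h3 =>
        rw [hT] at hp
        rw [ha2 p hp, map_inv, inv_inv]
        have : (a p)⁻¹ * b p = (a p)⁻¹ * (a p * (b p)⁻¹)⁻¹ * ((a p)⁻¹)⁻¹ := by group
        rw [this]
        exact Subgroup.normalClosure_normal.conj_mem _ (inv_mem h3) _
    have := key p hp
    rwa [hb, inv_one, mul_one] at this

end Pool.Agent.Y66.HC
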