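import Pool.Agent.Y66.HC.G1
import Pool.Agent.Y66.HC.Sig
import Pool.Agent.W335.DU.HN

/-!
# The fibre product is not of type `FP_2`
-/

set_option autoImplicit false

namespace Pool.Agent.Y66.HC

open Pool.Agent.W326.DU
open Pool.Agent.W490.DU (of_sub_mem_IL IL_le)

section

variable {F Q : Type} [Group F] [Group Q] (π : F →* Q)

/-- the fibre product -/
abbrev FP : Type :=
  ↥(((p1 π).comp (MonoidHom.fst (G1 π) F)).eqLocus (π.comp (MonoidHom.snd (G1 π) F)))

/-- the projection to `G₁` -/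
def f1 : FP π →* G1 π := (MonoidHom.fst (G1 π) F).comp (Subgroup.subtype _)

/-- the projection to `F` -/
def f2 : FP π →* F := (MonoidHom.snd (G1 π) F).comp (Subgroup.subtype _)

theorem fp_ext {p q : FP π} (h1 : f1 π p = f1 π q) (h2 : f2 π p = f2 π q) : p = q :=
  Subtype.ext (Prod.ext h1 h2)

theorem fp_rel (p : FP π) : p1 π (f1 π p) = π (f2 π p) := p.2

/-- `f ↦ ((f, 1), 1)` -/
def j1 : F →* FP π := ((((oo π).comp (MonoidHom.inl F Q)).prod (1 : F →* F))).codRestrict _ (by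
  intro a
  show p1 π (oo π (a, 1)) = π 1
  rw [p1_oo, map_one])

/-- `f ↦ ((1, π f), f)` -/
def j2 : F →* FP π :=
  ((((oo π).comp ((MonoidHom.inr F Q).comp π)).prod (MonoidHom.id F))).codRestrict _ (by
  intro a
  show p1 π (oo π (1, π a)) = π a
  rw [p1_oo])

theorem f1_j1 (a : F) : f1 π (j1 π a) = oo π (a, 1) := rfl
theorem f2_j1 (a : F) : f2 π (j1 π a) = 1 := rfl
theorem f1_j2 (a : F) : f1 π (j2 π a) = oo π (1, π a) := rfl
theorem f2_j2 (a : F) : f2 π (j2 π a) = a := rfl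

/-- the stable letter in the fibre product -/
def zz : FP π := ⟨(tt π, 1), by
  show p1 π (tt π) = π 1
  rw [p1_tt, map_one]⟩

theorem f1_zz : f1 π (zz π) = tt π := rfl
theorem f2_zz : f2 π (zz π) = 1 := rfl

variable {β : Type} (f : β → F)

/-- the generators of the base -/
def bb : β ⊕ β → FP π := Sum.elim (fun i => j1 π (f i)) (fun i => j2 π (f i))

theorem j1_mem (hf : Subgroup.closure (Set.range f) = ⊤) (a : F) :
    j1 π a ∈ Subgroup.closure (Set.range (bb π f)) := by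
  have ha : a ∈ Subgroup.closure (Set.range f) := by rw [hf]; trivial
  have h1 : j1 π a ∈ (Subgroup.closure (Set.range f)).map (j1 π) := ⟨a, ha, rfl⟩
  rw [MonoidHom.map_closure] at h1
  refine Subgroup.closure_mono ?_ h1
  rintro _ ⟨_, ⟨i, rfl⟩, rfl⟩
  exact ⟨Sum.inl i, rfl⟩

theorem j2_mem (hf : Subgroup.closure (Set.range f) = ⊤) (a : F) :
    j2 π a ∈ Subgroup.closure (Set.range (bb π f)) := by
  have ha : a ∈ Subgroup.closure (Set.range f) := by rw [hf]; trivial
  have h1 : j2 π a ∈ (Subgroup.closure (Set.range f)).map (j2 π) := ⟨a, ha, rfl⟩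
  rw [MonoidHom.map_closure] at h1
  refine Subgroup.closure_mono ?_ h1
  rintro _ ⟨_, ⟨i, rfl⟩, rfl⟩
  exact ⟨Sum.inr i, rfl⟩

/-- elements of the base -/
theorem base_mem (hf : Subgroup.closure (Set.range f) = ⊤) (p : FP π) (x : F × Q)
    (h : f1 π p = oo π x) : p ∈ Subgroup.closure (Set.range (bb π f)) := by
  have h1 : p = j1 π x.1 * j2 π (f2 π p) := by
    apply fp_ext
    · rw [map_mul, f1_j1, f1_j2, h, ← map_mul]
      congr 1
      have h2 := fp_rel π p
      rw [h, p1_oo] at h2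
      ext
      · simp
      · simp [h2]
    · rw [map_mul, f2_j1, f2_j2, one_mul]
  rw [h1]
  exact mul_mem (j1_mem π f hf _) (j2_mem π f hf _)

theorem fp_closure (hπ : Function.Surjective π) (hf : Subgroup.closure (Set.range f) = ⊤) :
    Subgroup.closure (Set.range (optf (bb π f) (zz π))) = ⊤ := by
  have hb : Subgroup.closure (Set.range (bb π f)) ≤
      Subgroup.closure (Set.range (optf (bb π f) (zz π))) := by
    refine Subgroup.closure_mono ?_
    rintro _ ⟨i, rfl⟩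
    exact ⟨some i, rfl⟩
  have key : ∀ g : G1 π, ∃ p ∈ Subgroup.closure (Set.range (optf (bb π f) (zz π))),
      f1 π p = g := by
    intro g
    induction g using HNNExtension.induction_on with
    | of x =>
      obtain ⟨a, ha⟩ := hπ x.2
      refine ⟨j1 π x.1 * j2 π a, hb (mul_mem (j1_mem π f hf _) (j2_mem π f hf _)), ?_⟩
      rw [map_mul, f1_j1, f1_j2, ← map_mul, ha]
      show oo π _ = oo π x
      congr 1
      ext <;> simp
    | t => exact ⟨zz π, Subgroup.subset_closure ⟨none, rfl⟩, rfl⟩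
    | mul x y hx hy =>
      obtain ⟨p, hp, rfl⟩ := hx
      obtain ⟨q, hq, rfl⟩ := hy
      exact ⟨p * q, mul_mem hp hq, map_mul _ _ _⟩
    | inv x hx =>
      obtain ⟨p, hp, rfl⟩ := hx
      exact ⟨p⁻¹, inv_mem hp, map_inv _ _⟩
  rw [eq_top_iff]
  rintro p -
  obtain ⟨q, hq, hqp⟩ := key (f1 π p)
  have h1 : p = q * (q⁻¹ * p) := by group
  rw [h1]
  refine mul_mem hq (hb (base_mem π f hf _ 1 ?_))
  rw [map_mul, map_inv, hqp, inv_mul_cancel, map_one]

/-- the edge group `F ×_Q F` -/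
def Sgm : Subgroup (FP π) := ((Gph π).map (oo π)).comap (f1 π)

theorem oo_inj : Function.Injective (oo π) := HNNExtension.of_injective _

theorem mem_Sgm (p : FP π) : p ∈ Sgm π ↔ f1 π p = oo π (pF π (f1 π p), π (pF π (f1 π p))) := by
  constructor
  · rintro ⟨x, hx, hxp⟩
    have hx' := (mem_Gph π x).1 hx
    rw [← hxp]
    show oo π x = oo π (pF π (oo π x), π (pF π (oo π x)))
    rw [pF_oo]
    congr 1
    exact Prod.ext rfl hx'
  · intro h
    exact ⟨_, (mem_Gph π _).2 rfl, h.symm⟩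

theorem star_p (x : ZG (FP π))
    (hx : x * (MonoidAlgebra.of ℤ (FP π) (zz π) - 1) ∈ IL ℤ (Set.range (bb π f))) :
    x ∈ IL ℤ (Sgm π : Set (FP π)) := by
  have h1 := push_mem_IL (f1 π) _ hx
  rw [map_mul, map_sub, map_one, push_of, f1_zz] at h1
  have h2 : push (f1 π) x * (MonoidAlgebra.of ℤ (G1 π) (tt π) - 1) ∈
      IL ℤ (Set.range (HNNExtension.of : F × Q → G1 π)) := by
    refine IL_mono ?_ h1
    rintro _ ⟨_, ⟨i, rfl⟩, rfl⟩
    rcases i with i | i
    · exact ⟨(f i, 1), rfl⟩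
    · exact ⟨(1, π (f i)), rfl⟩
  have h3 := Pool.Agent.W335.DU.HN.th ℤ (F × Q) (Gph π) (Gph π) (MulEquiv.refl _) _ h2
  have h4 : push (f1 π) x ∈ IL ℤ (((Gph π).map (oo π) : Subgroup (G1 π)) : Set (G1 π)) := by
    rw [Subgroup.coe_map]
    exact h3
  exact mem_IL_comap (f1 π) _ x h4

/-- **The fibre product is not of type `FP_2`.** -/
theorem not_fp2 [Fintype β] (m1 : PropM1) (hπ : Function.Surjective π)
    (hf : Subgroup.closure (Set.range f) = ⊤)
    (hK : ¬ ∃ S : Finset F, Subgroup.normalClosure (S : Set F) = π.ker) : ¬ FPc 2 (FP π) := by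
  intro h
  have h1 := m1 (FP π) (Option (β ⊕ β)) (optf (bb π f) (zz π)) (fp_closure π f hπ hf) h
  obtain ⟨T, hT⟩ := sigma_fg (bb π f) (zz π) (Sgm π) (by
    intro s hs
    exact base_mem π f hf s _ ((mem_Sgm π s).1 hs)) (by
    intro s hs
    apply fp_ext
    · rw [map_mul, map_mul, f1_zz, (mem_Sgm π s).1 hs]
      exact (tt_comm π ((mem_Gph π _).2 rfl)).symm
    · rw [map_mul, map_mul, f2_zz, mul_one, one_mul]) (star_p π f) h1
  apply hK
  refine normal_fg π (fun p => pF π (f1 π p)) (f2 π) (Sgm π) ?_ ?_ ?_ ?_ ?_ T hT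
  · intro p _ q _
    rw [map_mul, map_mul]
  · intro p _
    rw [map_inv, map_inv]
  · rw [map_one, map_one]
  · intro p hp
    rw [← fp_rel π p, (mem_Sgm π p).1 hp, p1_oo, pF_oo]
  · intro k hk
    refine ⟨j1 π k, ?_, ?_, rfl⟩
    · rw [mem_Sgm, f1_j1, pF_oo, hk]
    · show pF π (f1 π (j1 π k)) = k
      rw [f1_j1, pF_oo]

end

end Pool.Agent.Y66.HC
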