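import Pool.Agent.Y66.HC.IL
import Pool.Agent.W304.DU.RG

/-!
# Free groups
-/

set_option autoImplicit false

namespace Pool.Agent.Y66.HC

open Pool.Agent.W326.DU
open Pool.Agent.W304.DU.RG (A affine D D_mul_sub of_smul_of_smul)

/-- the relation module of a free group is trivial -/
theorem rm_free (β : Type) [Fintype β] : RM (FreeGroup.of : β → FreeGroup β) = ⊥ := by
  classical
  rw [eq_bot_iff]
  intro c hc
  rw [Submodule.mem_bot]
  funext i
  have hc' : fox (FreeGroup.of : β → FreeGroup β) c = 0 := hc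
  let fi : β → Equiv.Perm (ZG (FreeGroup β)) := fun j =>
    if j = i then Equiv.addRight (1 : ZG (FreeGroup β)) * A ℤ (ZG (FreeGroup β)) (FreeGroup.of j)
    else A ℤ (ZG (FreeGroup β)) (FreeGroup.of j)
  let Ψ : FreeGroup β →* Equiv.Perm (ZG (FreeGroup β)) := FreeGroup.lift fi
  have hΨ : ∀ j, Ψ (FreeGroup.of j) = fi j := fun j => FreeGroup.lift_apply_of
  have haff := affine (R := ℤ) Ψ (Set.range FreeGroup.of) (FreeGroup.closure_range_of β) (by
    rintro _ ⟨w, rfl⟩ x
    rw [hΨ]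
    by_cases hw : w = i
    · simp only [fi, if_pos hw]
      show MonoidAlgebra.of ℤ (FreeGroup β) _ • x + 1 = MonoidAlgebra.of ℤ (FreeGroup β) _ • x +
        (MonoidAlgebra.of ℤ (FreeGroup β) _ • (0 : ZG (FreeGroup β)) + 1)
      rw [smul_zero, zero_add]
    · simp only [fi, if_neg hw]
      show MonoidAlgebra.of ℤ (FreeGroup β) _ • x = MonoidAlgebra.of ℤ (FreeGroup β) _ • x +
        (MonoidAlgebra.of ℤ (FreeGroup β) _ • (0 : ZG (FreeGroup β)))
      rw [smul_zero, add_zero])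
  let δ : FreeGroup β → ZG (FreeGroup β) := fun g => Ψ g 0
  have hδ : ∀ g h, δ (g * h) = δ g + MonoidAlgebra.of ℤ (FreeGroup β) g • δ h := by
    intro g h
    show Ψ (g * h) 0 = Ψ g 0 + MonoidAlgebra.of ℤ (FreeGroup β) g • Ψ h 0
    rw [map_mul, Equiv.Perm.mul_apply, haff g (Ψ h 0), add_comm]
  have hδw : ∀ w, w ≠ i → δ (FreeGroup.of w) = 0 := by
    intro w hw
    show Ψ (FreeGroup.of w) 0 = 0
    rw [hΨ]
    simp only [fi, if_neg hw]
    show MonoidAlgebra.of ℤ (FreeGroup β) _ • (0 : ZG (FreeGroup β)) = 0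
    exact smul_zero _
  have hδv : δ (FreeGroup.of i) = 1 := by
    show Ψ (FreeGroup.of i) 0 = 1
    rw [hΨ]
    simp only [fi, if_pos rfl]
    show MonoidAlgebra.of ℤ (FreeGroup β) _ • (0 : ZG (FreeGroup β)) + 1 = 1
    rw [smul_zero, zero_add]
  have h1 := congrArg (D (R := ℤ) δ) hc'
  rw [fox_apply, map_sum, map_zero] at h1
  simp only [D_mul_sub δ hδ] at h1
  rw [Finset.sum_eq_single i] at h1
  · rw [hδv, smul_eq_mul, mul_one] at h1
    exact h1
  · intro j _ hj
    rw [hδw j hj, smul_zero]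
  · intro h; exact absurd (Finset.mem_univ _) h

end Pool.Agent.Y66.HC
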