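import Pool.Agent.Y66.HC.G1
import Pool.Agent.Y66.HC.Sig
import Pool.Agent.W335.DU.HN

/-!
# The relation module of `G₁` is finitely generated
-/

set_option autoImplicit false

namespace Pool.Agent.Y66.HC

open Pool.Agent.W326.DU
open Pool.Agent.W490.DU (of_sub_mem_IL IL_le)
open Pool.Agent.W571.DU.BC (pi pi_coeff pi_mul_sub decomp coeff_term)

section bc

variable {H G : Type} [Group H] [Group G] (ι : H →* G) (hι : Function.Injective ι)

include hι in
theorem mem_IL_of_pi (L : Set H) (x : ZG G) (h : ∀ g, pi ℤ ι hι g x ∈ IL ℤ L) :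
    x ∈ IL ℤ (ι '' L) := by
  rw [decomp ℤ ι hι x]
  apply Submodule.sum_mem
  intro q _
  exact Submodule.smul_mem _ _ (push_mem_IL ι L (h _))

open Classical in
theorem decompT (x : ZG G) (T : Finset (G ⧸ ι.range))
    (hT : ∀ a, x.coeff a ≠ 0 → (QuotientGroup.mk a : G ⧸ ι.range) ∈ T) :
    x = ∑ q ∈ T, MonoidAlgebra.of ℤ G q.out * push ι (pi ℤ ι hι q.out x) := by
  apply MonoidAlgebra.ext
  ext a
  rw [MonoidAlgebra.coeff_sum, Finsupp.finsetSum_apply]
  simp only [coeff_term, push]
  have key : ∀ q : G ⧸ ι.range, q.out⁻¹ * a ∈ ι.range ↔ q = (a : G ⧸ ι.range) := by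
    intro q
    rw [← QuotientGroup.eq, QuotientGroup.out_eq']
  by_cases ha : x.coeff a = 0
  · rw [ha]
    simp
  · rw [Finset.sum_eq_single (a : G ⧸ ι.range)]
    · rw [if_pos ((key _).2 rfl)]
    · intro q _ hq
      rw [if_neg]
      intro h
      exact hq ((key q).1 h)
    · intro h
      exact absurd (hT a ha) h

/-- pushing vectors -/
noncomputable def pv {κ : Type} (v : κ → ZG H) : κ → ZG G := fun j => push ι (v j)

theorem pv_add {κ : Type} (v w : κ → ZG H) : pv ι (v + w) = pv ι v + pv ι w := by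
  funext j; exact map_add _ _ _

theorem pv_smul {κ : Type} (a : ZG H) (v : κ → ZG H) : pv ι (a • v) = push ι a • pv ι v := by
  funext j; exact map_mul _ _ _

theorem pv_zero {κ : Type} : pv ι (0 : κ → ZG H) = 0 := by
  funext j; exact map_zero _

theorem fox_pv {κ : Type} [Fintype κ] (x : κ → H) (v : κ → ZG H) :
    fox (fun j => ι (x j)) (pv ι v) = push ι (fox x v) := by
  rw [fox_apply, fox_apply, map_sum]
  refine Finset.sum_congr rfl fun j _ => ?_
  rw [map_mul, map_sub, map_one, push_of]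
  rfl

include hι in
open Classical in
/-- base change for the relation module -/
theorem RM_bc {κ : Type} [Fintype κ] (x : κ → H) (W : Set (κ → ZG H))
    (hW : Submodule.span (ZG H) W = RM x) (w : κ → ZG G) (hw : w ∈ RM (fun j => ι (x j))) :
    w ∈ Submodule.span (ZG G) (pv ι '' W) := by
  have h1 : ∀ v ∈ RM x, pv ι v ∈ Submodule.span (ZG G) (pv ι '' W) := by
    intro v hv
    rw [← hW] at hv
    induction hv using Submodule.span_induction with
    | mem v hv => exact Submodule.subset_span ⟨v, hv, rfl⟩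
    | zero => rw [pv_zero]; exact Submodule.zero_mem _
    | add a b _ _ ha hb => rw [pv_add]; exact Submodule.add_mem _ ha hb
    | smul a v _ hv => rw [pv_smul]; exact Submodule.smul_mem _ _ hv
  have h2 : ∀ g, (fun j => pi ℤ ι hι g (w j)) ∈ RM x := by
    intro g
    show fox x _ = 0
    have h3 : fox (fun j => ι (x j)) w = 0 := hw
    have h4 := congrArg (pi ℤ ι hι g) h3
    rw [fox_apply, map_sum, map_zero] at h4
    rw [fox_apply, ← h4]
    refine Finset.sum_congr rfl fun j _ => ?_
    rw [pi_mul_sub]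
  let T : Finset (G ⧸ ι.range) := Finset.univ.biUnion (fun j =>
    (w j).coeff.support.image (fun a : G => (QuotientGroup.mk a : G ⧸ ι.range)))
  have h5 : w = ∑ q ∈ T, MonoidAlgebra.of ℤ G q.out • pv ι (fun j => pi ℤ ι hι q.out (w j)) := by
    funext j
    rw [Finset.sum_apply]
    conv_lhs => rw [decompT ι hι (w j) T (by
      intro a ha
      exact Finset.mem_biUnion.2 ⟨j, Finset.mem_univ j,
        Finset.mem_image.2 ⟨a, Finsupp.mem_support_iff.2 ha, rfl⟩⟩)]
    rfl
  rw [h5]
  exact Submodule.sum_mem _ fun q _ => Submodule.smul_mem _ _ (h1 _ (h2 _))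

end bc

section

variable {F Q : Type} [Group F] [Group Q] (π : F →* Q)
variable {β κ : Type} [Fintype β] [Fintype κ] (f : β → F) (x : κ → Q)

/-- generators of the base of `G₁` -/
def y0 : β ⊕ κ → G1 π := Sum.elim (fun i => oo π (f i, 1)) (fun j => oo π (1, x j))

omit [Fintype β] [Fintype κ] in
theorem ygen_eq : ygen π f x = optf (y0 π f x) (tt π) := rfl

theorem fox_y0 (c : β ⊕ κ → ZG (G1 π)) : fox (y0 π f x) c =
    fox (fun i => oo π (f i, 1)) (fun i => c (Sum.inl i)) +
      fox (fun j => oo π (1, x j)) (fun j => c (Sum.inr j)) := by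
  rw [fox_apply, fox_apply, fox_apply, Fintype.sum_sum_type]
  rfl

theorem comm_oo (a : F) (q : Q) : oo π (a, 1) * oo π (1, q) = oo π (1, q) * oo π (a, 1) := by
  rw [← map_mul, ← map_mul]
  congr 1
  ext <;> simp

/-- **M4**: the relation module of `G₁` is finitely generated. -/
theorem g1_rm (hf : Subgroup.closure (Set.range f) = ⊤) (hx : Subgroup.closure (Set.range x) = ⊤)
    (hfree : RM f = ⊥) (hRM : (RM x).FG) : (RM (ygen π f x)).FG := by
  classical
  obtain ⟨W, hW⟩ := hRM
  -- closure facts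
  have hy0 : ∀ a : F × Q, oo π a ∈ Subgroup.closure (Set.range (y0 π f x)) := by
    intro a
    have h1 : oo π (a.1, 1) ∈ Subgroup.closure (Set.range (y0 π f x)) := by
      have ha : a.1 ∈ Subgroup.closure (Set.range f) := by rw [hf]; trivial
      have h1 : oo π (a.1, 1) ∈ (Subgroup.closure (Set.range f)).map
          ((oo π).comp (MonoidHom.inl F Q)) := ⟨a.1, ha, rfl⟩
      rw [MonoidHom.map_closure] at h1
      refine Subgroup.closure_mono ?_ h1
      rintro _ ⟨_, ⟨i, rfl⟩, rfl⟩
      exact ⟨Sum.inl i, rfl⟩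
    have h2 : oo π (1, a.2) ∈ Subgroup.closure (Set.range (y0 π f x)) := by
      have ha : a.2 ∈ Subgroup.closure (Set.range x) := by rw [hx]; trivial
      have h1 : oo π (1, a.2) ∈ (Subgroup.closure (Set.range x)).map
          ((oo π).comp (MonoidHom.inr F Q)) := ⟨a.2, ha, rfl⟩
      rw [MonoidHom.map_closure] at h1
      refine Subgroup.closure_mono ?_ h1
      rintro _ ⟨_, ⟨i, rfl⟩, rfl⟩
      exact ⟨Sum.inr i, rfl⟩
    have : oo π a = oo π (a.1, 1) * oo π (1, a.2) := by
      rw [← map_mul]; congr 1; ext <;> simp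
    rw [this]
    exact mul_mem h1 h2
  have hgph : ∀ a ∈ Gph π, oo π a ∈ Subgroup.closure (Set.range (fun i => oo π (f i, π (f i)))) := by
    rintro _ ⟨a, rfl⟩
    have ha : a ∈ Subgroup.closure (Set.range f) := by rw [hf]; trivial
    have h1 : oo π (a, π a) ∈ (Subgroup.closure (Set.range f)).map
        ((oo π).comp ((MonoidHom.id F).prod π)) := ⟨a, ha, rfl⟩
    rw [MonoidHom.map_closure] at h1
    refine Subgroup.closure_mono ?_ h1
    rintro _ ⟨_, ⟨i, rfl⟩, rfl⟩
    exact ⟨i, rfl⟩
  -- relations of the first kind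
  have hc : ∀ i : β, ∃ c : β ⊕ κ → ZG (G1 π), fox (y0 π f x) c =
      MonoidAlgebra.of ℤ (G1 π) (oo π (f i, π (f i))) - 1 := fun i =>
    (mem_IL_range _ _).1 (of_sub_mem_IL ℤ (hy0 _))
  choose c hc using hc
  let r1 : β → (Option (β ⊕ κ) → ZG (G1 π)) := fun i o =>
    o.elim (MonoidAlgebra.of ℤ (G1 π) (oo π (f i, π (f i))) - 1)
      (fun m => -(MonoidAlgebra.of ℤ (G1 π) (tt π) - 1) * c i m)
  -- relations of the second kind
  let r2 : β × κ → (Option (β ⊕ κ) → ZG (G1 π)) := fun p o =>
    o.elim 0 (Sum.elim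
      (Pi.single p.1 (MonoidAlgebra.of ℤ (G1 π) (oo π (1, x p.2)) - 1))
      (Pi.single p.2 (-(MonoidAlgebra.of ℤ (G1 π) (oo π (f p.1, 1)) - 1))))
  -- relations of the third kind
  let e : (κ → ZG (G1 π)) →ₗ[ZG (G1 π)] (Option (β ⊕ κ) → ZG (G1 π)) :=
    { toFun := fun v o => o.elim 0 (Sum.elim 0 v)
      map_add' := by
        intro v w
        funext o
        rcases o with _ | (i | j) <;> simp
      map_smul' := by
        intro a v
        funext o
        rcases o with _ | (i | j) <;> simp }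
  let ιQ : Q →* G1 π := (oo π).comp (MonoidHom.inr F Q)
  have hιQ : Function.Injective ιQ := by
    intro a b hab
    have h1 : oo π (1, a) = oo π (1, b) := hab
    have h2 := HNNExtension.of_injective _ h1
    exact congrArg Prod.snd h2
  let S : Set (Option (β ⊕ κ) → ZG (G1 π)) :=
    (Set.range r1 ∪ Set.range r2) ∪ e '' (pv ιQ '' (W : Set (κ → ZG Q)))
  have hSfin : S.Finite :=
    ((Set.finite_range _).union (Set.finite_range _)).union
      ((W.finite_toSet.image _).image _)
  have hfoxe : ∀ v : κ → ZG (G1 π), fox (ygen π f x) (e v) = fox (fun j => oo π (1, x j)) v := by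
    intro v
    rw [ygen_eq, fox_opt]
    show (0 : ZG (G1 π)) * _ + fox (y0 π f x) (Sum.elim 0 v) = _
    rw [zero_mul, zero_add, fox_y0]
    show fox (fun i => oo π (f i, 1)) (0 : β → ZG (G1 π)) + fox (fun j => oo π (1, x j)) v = _
    rw [map_zero, zero_add]
  -- the relations are relations
  have hr1 : ∀ i, r1 i ∈ RM (ygen π f x) := by
    intro i
    show fox (ygen π f x) (r1 i) = 0
    rw [ygen_eq, fox_opt]
    show (MonoidAlgebra.of ℤ (G1 π) (oo π (f i, π (f i))) - 1) *
      (MonoidAlgebra.of ℤ (G1 π) (tt π) - 1) +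
      fox (y0 π f x) (fun m => -(MonoidAlgebra.of ℤ (G1 π) (tt π) - 1) * c i m) = 0
    have h7 : (fun m => -(MonoidAlgebra.of ℤ (G1 π) (tt π) - 1) * c i m) =
      (-(MonoidAlgebra.of ℤ (G1 π) (tt π) - 1)) • c i := rfl
    rw [h7, map_smul, hc, smul_eq_mul, neg_mul]
    have h8 : MonoidAlgebra.of ℤ (G1 π) (oo π (f i, π (f i))) * MonoidAlgebra.of ℤ (G1 π) (tt π) =
        MonoidAlgebra.of ℤ (G1 π) (tt π) * MonoidAlgebra.of ℤ (G1 π) (oo π (f i, π (f i))) := by
      rw [← map_mul, ← map_mul, tt_comm π ((mem_Gph π _).2 rfl)]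
    have h9 := Pool.Agent.W490.DU.comm_sub_one h8
    rw [h9, add_neg_cancel]
  have hr2 : ∀ p, r2 p ∈ RM (ygen π f x) := by
    rintro ⟨i, j⟩
    show fox (ygen π f x) (r2 (i, j)) = 0
    rw [ygen_eq, fox_opt]
    show (0 : ZG (G1 π)) * _ + fox (y0 π f x) (Sum.elim
      (Pi.single i (MonoidAlgebra.of ℤ (G1 π) (oo π (1, x j)) - 1))
      (Pi.single j (-(MonoidAlgebra.of ℤ (G1 π) (oo π (f i, 1)) - 1)))) = 0
    rw [zero_mul, zero_add, fox_y0]
    show fox (fun i => oo π (f i, 1))
        (Pi.single i (MonoidAlgebra.of ℤ (G1 π) (oo π (1, x j)) - 1)) +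
      fox (fun j => oo π (1, x j))
        (Pi.single j (-(MonoidAlgebra.of ℤ (G1 π) (oo π (f i, 1)) - 1))) = 0
    rw [fox_apply, fox_apply, Finset.sum_eq_single i, Finset.sum_eq_single j, Pi.single_eq_same,
      Pi.single_eq_same, neg_mul]
    · have h8 : MonoidAlgebra.of ℤ (G1 π) (oo π (1, x j)) * MonoidAlgebra.of ℤ (G1 π) (oo π (f i, 1))
        = MonoidAlgebra.of ℤ (G1 π) (oo π (f i, 1)) * MonoidAlgebra.of ℤ (G1 π) (oo π (1, x j)) := by
        rw [← map_mul (MonoidAlgebra.of ℤ (G1 π)), ← map_mul (MonoidAlgebra.of ℤ (G1 π)), comm_oo]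
      rw [Pool.Agent.W490.DU.comm_sub_one h8, add_neg_cancel]
    · intro b _ hb; rw [Pi.single_eq_of_ne hb, zero_mul]
    · intro h; exact absurd (Finset.mem_univ _) h
    · intro b _ hb; rw [Pi.single_eq_of_ne hb, zero_mul]
    · intro h; exact absurd (Finset.mem_univ _) h
  have hr3 : ∀ v ∈ W, e (pv ιQ v) ∈ RM (ygen π f x) := by
    intro v hv
    show fox (ygen π f x) (e (pv ιQ v)) = 0
    rw [hfoxe]
    have h1 : v ∈ RM x := by rw [← hW]; exact Submodule.subset_span hv
    have h2 : fox x v = 0 := h1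
    have h3 := fox_pv ιQ x v
    rw [h2, map_zero] at h3
    exact h3
  rw [Submodule.fg_def]
  refine ⟨S, hSfin, le_antisymm ?_ ?_⟩
  · rw [Submodule.span_le]
    rintro _ ((⟨i, rfl⟩ | ⟨p, rfl⟩) | ⟨_, ⟨v, hv, rfl⟩, rfl⟩)
    · exact hr1 i
    · exact hr2 p
    · exact hr3 v hv
  -- the main inclusion
  have hS1 : ∀ i, r1 i ∈ Submodule.span (ZG (G1 π)) S := fun i =>
    Submodule.subset_span (Or.inl (Or.inl ⟨i, rfl⟩))
  have hS2 : ∀ p, r2 p ∈ Submodule.span (ZG (G1 π)) S := fun p =>
    Submodule.subset_span (Or.inl (Or.inr ⟨p, rfl⟩))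
  -- step 3
  have step3 : ∀ w ∈ RM (ygen π f x), w none = 0 → (∀ i, w (some (Sum.inl i)) = 0) →
      w ∈ Submodule.span (ZG (G1 π)) S := by
    intro w hw h0 h1
    have h2 : w = e (fun j => w (some (Sum.inr j))) := by
      funext o
      rcases o with _ | (i | j)
      · exact h0
      · exact h1 i
      · rfl
    have h3 : (fun j => w (some (Sum.inr j))) ∈ RM (fun j => ιQ (x j)) := by
      show fox _ _ = 0
      have h4 := hfoxe (fun j => w (some (Sum.inr j)))
      rw [← h2] at h4
      rw [show (fun j => ιQ (x j)) = (fun j => oo π (1, x j)) from rfl, ← h4]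
      exact hw
    have h5 := RM_bc ιQ hιQ x (W : Set (κ → ZG Q)) hW _ h3
    rw [h2]
    have h6 : e (fun j => w (some (Sum.inr j))) ∈
        (Submodule.span (ZG (G1 π)) (pv ιQ '' (W : Set (κ → ZG Q)))).map e := ⟨_, h5, rfl⟩
    rw [Submodule.map_span] at h6
    exact Submodule.span_mono Set.subset_union_right h6
  -- step 2
  have step2 : ∀ w ∈ RM (ygen π f x), w none = 0 → w ∈ Submodule.span (ZG (G1 π)) S := by
    intro w hw h0
    have h1 : fox (y0 π f x) (fun m => w (some m)) = 0 := by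
      have h2 : fox (ygen π f x) w = 0 := hw
      rw [ygen_eq, fox_opt, h0, zero_mul, zero_add] at h2
      exact h2
    rw [fox_y0] at h1
    have h2 : ∀ i, w (some (Sum.inl i)) ∈ IL ℤ (Set.range (fun j => oo π (1, x j))) := by
      intro i
      have h3 : ∀ g, pi ℤ (oo π) (HNNExtension.of_injective _) g (w (some (Sum.inl i))) ∈
          IL ℤ (((⊥ : Subgroup F).comap (MonoidHom.fst F Q) : Subgroup (F × Q)) :
            Set (F × Q)) := by
        intro g
        apply mem_IL_comap
        have h4 : (fun i => push (MonoidHom.fst F Q)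
            (pi ℤ (oo π) (HNNExtension.of_injective _) g (w (some (Sum.inl i))))) ∈ RM f := by
          show fox f _ = 0
          have h5 := congrArg (fun z => push (MonoidHom.fst F Q)
            (pi ℤ (oo π) (HNNExtension.of_injective _) g z)) h1
          rw [fox_apply, fox_apply, map_add, map_sum, map_sum, map_add, map_sum, map_sum,
            map_zero, map_zero] at h5
          have h6 : ∀ j, push (MonoidHom.fst F Q) (pi ℤ (oo π) (HNNExtension.of_injective _) g
              (w (some (Sum.inr j)) * (MonoidAlgebra.of ℤ (G1 π) (oo π (1, x j)) - 1))) = 0 := by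
            intro j
            rw [pi_mul_sub, map_mul, map_sub, map_one, push_of]
            rw [show (MonoidHom.fst F Q) (1, x j) = 1 from rfl, map_one, sub_self, mul_zero]
          rw [Finset.sum_congr rfl (fun j _ => h6 j), Finset.sum_const_zero, add_zero] at h5
          rw [fox_apply, ← h5]
          refine Finset.sum_congr rfl fun k _ => ?_
          rw [pi_mul_sub, map_mul, map_sub, map_one, push_of]
          rfl
        rw [hfree, Submodule.mem_bot] at h4
        rw [congrFun h4 i]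
        exact Submodule.zero_mem _
      have h7 := mem_IL_of_pi (oo π) (HNNExtension.of_injective _) _ _ h3
      refine IL_le ℤ ?_ h7
      rintro _ ⟨⟨a, q⟩, ha, rfl⟩
      have ha' : a = 1 := ha
      subst ha'
      have hq : q ∈ Subgroup.closure (Set.range x) := by rw [hx]; trivial
      have h1 : oo π (1, q) ∈ (Subgroup.closure (Set.range x)).map
          ((oo π).comp (MonoidHom.inr F Q)) := ⟨q, hq, rfl⟩
      rw [MonoidHom.map_closure] at h1
      refine Subgroup.closure_mono ?_ h1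
      rintro _ ⟨_, ⟨j, rfl⟩, rfl⟩
      exact ⟨j, rfl⟩
    have h3 : ∀ i, ∃ b : κ → ZG (G1 π), fox (fun j => oo π (1, x j)) b =
        w (some (Sum.inl i)) := fun i => (mem_IL_range _ _).1 (h2 i)
    choose b hb using h3
    have h4 : ∑ i, ∑ j, b i j • r2 (i, j) ∈ Submodule.span (ZG (G1 π)) S :=
      Submodule.sum_mem _ fun i _ => Submodule.sum_mem _ fun j _ =>
        Submodule.smul_mem _ _ (hS2 _)
    have h4' : ∑ i, ∑ j, b i j • r2 (i, j) ∈ RM (ygen π f x) :=
      Submodule.sum_mem _ fun i _ => Submodule.sum_mem _ fun j _ =>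
        Submodule.smul_mem _ _ (hr2 _)
    have h5 : w = (w - ∑ i, ∑ j, b i j • r2 (i, j)) + ∑ i, ∑ j, b i j • r2 (i, j) := by abel
    rw [h5]
    refine Submodule.add_mem _ (step3 _ (Submodule.sub_mem _ hw h4') ?_ ?_) h4
    · rw [Pi.sub_apply, h0, Finset.sum_apply, zero_sub, neg_eq_zero]
      refine Finset.sum_eq_zero fun i _ => ?_
      rw [Finset.sum_apply]
      refine Finset.sum_eq_zero fun j _ => ?_
      show b i j * 0 = 0
      rw [mul_zero]
    · intro k
      rw [Pi.sub_apply, sub_eq_zero, Finset.sum_apply, Finset.sum_eq_single k]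
      · rw [Finset.sum_apply, ← hb k, fox_apply]
        refine Finset.sum_congr rfl fun j _ => ?_
        show _ = b k j * (Pi.single k (MonoidAlgebra.of ℤ (G1 π) (oo π (1, x j)) - 1) :
          β → ZG (G1 π)) k
        rw [Pi.single_eq_same]
      · intro i _ hik
        rw [Finset.sum_apply]
        refine Finset.sum_eq_zero fun j _ => ?_
        show b i j * (Pi.single i (MonoidAlgebra.of ℤ (G1 π) (oo π (1, x j)) - 1) :
          β → ZG (G1 π)) k = 0
        rw [Pi.single_eq_of_ne hik.symm, mul_zero]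
      · intro h; exact absurd (Finset.mem_univ _) h
  -- step 1
  intro w hw
  have h1 : w none ∈ IL ℤ (Set.range (fun i => oo π (f i, π (f i)))) := by
    have h2 : fox (ygen π f x) w = 0 := hw
    rw [ygen_eq, fox_opt] at h2
    have h3 : w none * (MonoidAlgebra.of ℤ (G1 π) (tt π) - 1) ∈
        IL ℤ (Set.range (HNNExtension.of : F × Q → G1 π)) := by
      rw [eq_neg_of_add_eq_zero_left h2]
      refine Submodule.neg_mem _ (IL_mono ?_ (fox_mem_IL _ _))
      rintro _ ⟨i | j, rfl⟩
      · exact ⟨(f i, 1), rfl⟩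
      · exact ⟨(1, x j), rfl⟩
    have h4 := Pool.Agent.W335.DU.HN.th ℤ (F × Q) (Gph π) (Gph π) (MulEquiv.refl _) _ h3
    refine IL_le ℤ ?_ h4
    rintro _ ⟨a, ha, rfl⟩
    exact hgph a ha
  obtain ⟨a, ha⟩ := (mem_IL_range _ _).1 h1
  have h4 : ∑ i, a i • r1 i ∈ Submodule.span (ZG (G1 π)) S :=
    Submodule.sum_mem _ fun i _ => Submodule.smul_mem _ _ (hS1 _)
  have h4' : ∑ i, a i • r1 i ∈ RM (ygen π f x) :=
    Submodule.sum_mem _ fun i _ => Submodule.smul_mem _ _ (hr1 _)
  have h5 : w = (w - ∑ i, a i • r1 i) + ∑ i, a i • r1 i := by abel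
  rw [h5]
  refine Submodule.add_mem _ (step2 _ (Submodule.sub_mem _ hw h4') ?_) h4
  rw [Pi.sub_apply, sub_eq_zero, Finset.sum_apply, ← ha, fox_apply]
  rfl

end

end Pool.Agent.Y66.HC
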