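import Pool.Agent.Y66.HC.Slab
import Pool.Agent.Y448.HC.M2

/-!
# The Bestvina-Brady group is of type `FP`
-/

set_option autoImplicit false

namespace Pool.Agent.Y66.HC

open Pool.Agent.W326.DU

section bb

variable {V : Type} {ad : V → V → Prop}

/-- the Bestvina-Brady group -/
abbrev HH (ad : V → V → Prop) : Type := ↥(ht ad).ker

/-- its inclusion -/
abbrev iH (ad : V → V → Prop) : HH ad →* RAAG ad := (ht ad).ker.subtype

theorem iH_inj : Function.Injective (iH ad) := Subtype.val_injective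

theorem mem_range_iH (g : RAAG ad) : g ∈ (iH ad).range ↔ hz g = 0 := by
  rw [Subgroup.range_subtype, MonoidHom.mem_ker]
  unfold hz
  exact Iff.rfl

theorem push_iH_coeff (c : ZG (HH ad)) (h : HH ad) :
    (push (iH ad) c).coeff (h : RAAG ad) = c.coeff h := by
  unfold push
  rw [MonoidAlgebra.mapDomainRingHom_apply, MonoidAlgebra.coeff_mapDomain]
  exact Finsupp.mapDomain_apply iH_inj _ h

theorem push_iH_coeff_not (c : ZG (HH ad)) (g : RAAG ad) (hg : hz g ≠ 0) :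
    (push (iH ad) c).coeff g = 0 := by
  unfold push
  rw [MonoidAlgebra.mapDomainRingHom_apply, MonoidAlgebra.coeff_mapDomain]
  apply Finsupp.mapDomain_of_notMem_range
  rintro ⟨h, rfl⟩
  exact hg ((mem_range_iH _).1 ⟨h, rfl⟩)

variable (v0 : V)

/-- the coefficient functions -/
noncomputable def kp (i : ℕ) : ZG (RAAG ad) →+ ZG (HH ad) :=
  (Pool.Agent.W571.DU.BC.pi ℤ (iH ad) iH_inj 1).comp
    (AddMonoidHom.mulRight (MonoidAlgebra.of ℤ (RAAG ad) (gen ad v0 ^ i)⁻¹))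

theorem kp_coeff (i : ℕ) (x : ZG (RAAG ad)) (h : HH ad) :
    (kp v0 i x).coeff h = x.coeff (h * gen ad v0 ^ i) := by
  show (Pool.Agent.W571.DU.BC.pi ℤ (iH ad) iH_inj 1
    (x * MonoidAlgebra.of ℤ (RAAG ad) (gen ad v0 ^ i)⁻¹)).coeff h = _
  rw [Pool.Agent.W571.DU.BC.pi_coeff, MonoidAlgebra.of_apply,
    MonoidAlgebra.coeff_mul_single_apply, mul_one, one_mul, inv_inv]
  rfl

theorem mul_of_coeff (x : ZG (RAAG ad)) (k g : RAAG ad) :
    (x * MonoidAlgebra.of ℤ (RAAG ad) k).coeff g = x.coeff (g * k⁻¹) := by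
  rw [MonoidAlgebra.of_apply, MonoidAlgebra.coeff_mul_single_apply, mul_one]

theorem hz_gpow (i : ℕ) : hz (gen ad v0 ^ i) = i := by
  rw [hz_pow, hz_gen, mul_one]

/-- **K1** -/
theorem push_kp (i : ℕ) (x : ZG (RAAG ad)) :
    push (iH ad) (kp v0 i x) * MonoidAlgebra.of ℤ (RAAG ad) (gen ad v0 ^ i) = Pn ad i x := by
  apply MonoidAlgebra.ext
  ext g
  rw [mul_of_coeff, Pn_coeff]
  have h1 : hz (g * (gen ad v0 ^ i)⁻¹) = hz g - i := by
    rw [hz_mul, hz_inv, hz_gpow]; ring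
  by_cases hg : hz g = i
  · rw [if_pos hg]
    obtain ⟨h, hh⟩ := (mem_range_iH (g * (gen ad v0 ^ i)⁻¹)).2 (by rw [h1, hg, sub_self])
    have hh' : (h : RAAG ad) = g * (gen ad v0 ^ i)⁻¹ := hh
    rw [← hh', push_iH_coeff, kp_coeff, hh', inv_mul_cancel_right]
  · rw [if_neg hg, push_iH_coeff_not]
    rw [h1]
    intro h
    exact hg (by linarith)

/-- **K2** -/
theorem kp_push (i j : ℕ) (c : ZG (HH ad)) :
    kp v0 i (push (iH ad) c * MonoidAlgebra.of ℤ (RAAG ad) (gen ad v0 ^ j)) =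
      if i = j then c else 0 := by
  apply MonoidAlgebra.ext
  ext h
  rw [kp_coeff, mul_of_coeff]
  by_cases hij : i = j
  · subst hij
    rw [if_pos rfl, mul_inv_cancel_right, push_iH_coeff]
  · rw [if_neg hij, push_iH_coeff_not]
    · rfl
    · have h0 : hz (h : RAAG ad) = 0 := (mem_range_iH _).1 ⟨h, rfl⟩
      rw [hz_mul, hz_mul, hz_inv, hz_gpow, hz_gpow, h0]
      intro h
      apply hij
      have : (i : ℤ) = j := by linarith
      exact_mod_cast this

/-- **K3** -/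
theorem kp_mul (i : ℕ) (a : ZG (HH ad)) (x : ZG (RAAG ad)) :
    kp v0 i (push (iH ad) a * x) = a * kp v0 i x := by
  let f : ZG (HH ad) →+ ZG (HH ad) :=
    (kp v0 i).comp ((AddMonoidHom.mulRight x).comp (push (iH ad)).toAddMonoidHom)
  let f' : ZG (HH ad) →+ ZG (HH ad) := AddMonoidHom.mulRight (kp v0 i x)
  have : f = f' := by
    apply MonoidAlgebra.addMonoidHom_ext
    intro k n
    show kp v0 i (push (iH ad) (MonoidAlgebra.single k n) * x) =
      MonoidAlgebra.single k n * kp v0 i x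
    rw [push_single]
    apply MonoidAlgebra.ext
    ext h
    rw [kp_coeff, MonoidAlgebra.coeff_single_mul_apply, MonoidAlgebra.coeff_single_mul_apply,
      kp_coeff]
    congr 2
    rw [← mul_assoc]
    rfl
  exact DFunLike.congr_fun this a

/-- the embedding of `(ℤH)^n` -/
noncomputable def emb (n : ℕ) (c : Fin n → ZG (HH ad)) : ZG (RAAG ad) :=
  ∑ i : Fin n, push (iH ad) (c i) * MonoidAlgebra.of ℤ (RAAG ad) (gen ad v0 ^ (i : ℕ))

theorem emb_add (n : ℕ) (c d : Fin n → ZG (HH ad)) :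
    emb v0 n (c + d) = emb v0 n c + emb v0 n d := by
  unfold emb
  rw [← Finset.sum_add_distrib]
  exact Finset.sum_congr rfl fun i _ => by rw [Pi.add_apply, map_add, add_mul]

theorem emb_smul (n : ℕ) (a : ZG (HH ad)) (c : Fin n → ZG (HH ad)) :
    emb v0 n (a • c) = push (iH ad) a * emb v0 n c := by
  unfold emb
  rw [Finset.mul_sum]
  exact Finset.sum_congr rfl fun i _ => by rw [Pi.smul_apply, smul_eq_mul, map_mul, mul_assoc]

theorem emb_HB (n : ℕ) (m : ℤ) (hm : m + 1 = n) (c : Fin n → ZG (HH ad)) :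
    emb v0 n c ∈ HB ad 0 m := by
  refine sum_mem fun i _ => ?_
  have h1 := push_kp v0 (i : ℕ)
    (push (iH ad) (c i) * MonoidAlgebra.of ℤ (RAAG ad) (gen ad v0 ^ (i : ℕ)))
  rw [kp_push, if_pos rfl] at h1
  rw [h1]
  refine HB_mono ?_ ?_ (Pn_HB _ _)
  · positivity
  · have := i.2
    omega

theorem kp_emb (n : ℕ) (c : Fin n → ZG (HH ad)) (j : Fin n) :
    kp v0 (j : ℕ) (emb v0 n c) = c j := by
  unfold emb
  rw [map_sum, Finset.sum_eq_single j]
  · rw [kp_push, if_pos rfl]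
  · intro i _ hij
    rw [kp_push, if_neg]
    intro h
    exact hij (Fin.ext h.symm)
  · intro h; exact absurd (Finset.mem_univ _) h

theorem emb_kp (n : ℕ) (m : ℤ) (hm : m + 1 = n) {x : ZG (RAAG ad)} (hx : x ∈ HB ad 0 m) :
    emb v0 n (fun i : Fin n => kp v0 (i : ℕ) x) = x := by
  unfold emb
  have e : ∀ i : Fin n, push (iH ad) (kp v0 (i : ℕ) x) *
      MonoidAlgebra.of ℤ (RAAG ad) (gen ad v0 ^ (i : ℕ)) = Pn ad ((i : ℕ) : ℤ) x :=
    fun i => push_kp v0 (i : ℕ) x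
  refine (Finset.sum_congr rfl fun i _ => e i).trans ?_
  apply MonoidAlgebra.ext
  ext g
  rw [MonoidAlgebra.coeff_sum, Finsupp.finsetSum_apply]
  simp only [Pn_coeff]
  by_cases hg : x.coeff g = 0
  · rw [hg]; simp
  · have h1 := hx g hg
    have h2 : (hz g).toNat < n := by omega
    rw [Finset.sum_eq_single ⟨(hz g).toNat, h2⟩]
    · rw [if_pos]
      dsimp only
      omega
    · intro j _ hj
      rw [if_neg]
      intro h
      apply hj
      apply Fin.ext
      dsimp only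
      omega
    · intro h; exact absurd (Finset.mem_univ _) h

theorem Rr_push (v : V) (a : ZG (HH ad)) (x : ZG (RAAG ad)) :
    Rr ad v (push (iH ad) a * x) = push (iH ad) a * Rr ad v x := by
  rw [Rr_eq, Rr_eq, mul_assoc]

theorem Rr_HB {a b : ℤ} {x : ZG (RAAG ad)} (hx : x ∈ HB ad a b) (v : V) :
    Rr ad v x ∈ HB ad a (b + 1) := by
  rw [Rr_apply]
  exact sub_mem (HB_mono (by omega) le_rfl (T_HB hx v)) (HB_mono le_rfl (by omega) hx)

variable (o : V → ℕ)

/-- oriented edges -/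
abbrev Ed (ad : V → V → Prop) (o : V → ℕ) : Type := {p : V × V // o p.1 < o p.2 ∧ ad p.1 p.2}

/-- 1-chains -/
noncomputable def X1 (c : V × Fin 2 → ZG (HH ad)) (v : V) : ZG (RAAG ad) :=
  emb v0 2 (fun i => c (v, i))

open Classical in
/-- 2-chains -/
noncomputable def X2 (c : Ed ad o → ZG (HH ad)) (a b : V) : ZG (RAAG ad) :=
  if h : o a < o b ∧ ad a b then push (iH ad) (c ⟨(a, b), h⟩)
  else if h : o b < o a ∧ ad b a then -push (iH ad) (c ⟨(b, a), h⟩) else 0

theorem X2_pos (c : Ed ad o → ZG (HH ad)) {a b : V} (h : o a < o b ∧ ad a b) :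
    X2 o c a b = push (iH ad) (c ⟨(a, b), h⟩) := by
  unfold X2
  rw [dif_pos h]

theorem X2_neg (c : Ed ad o → ZG (HH ad)) {a b : V} (h : o b < o a ∧ ad b a) :
    X2 o c a b = -push (iH ad) (c ⟨(b, a), h⟩) := by
  unfold X2
  rw [dif_neg (fun h' => by omega), dif_pos h]

theorem X2_zero (c : Ed ad o → ZG (HH ad)) {a b : V} (h : ¬ (o a < o b ∧ ad a b))
    (h' : ¬ (o b < o a ∧ ad b a)) : X2 o c a b = 0 := by
  unfold X2
  rw [dif_neg h, dif_neg h']

theorem X2_add (c d : Ed ad o → ZG (HH ad)) (a b : V) :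
    X2 o (c + d) a b = X2 o c a b + X2 o d a b := by
  by_cases h : o a < o b ∧ ad a b
  · rw [X2_pos o _ h, X2_pos o _ h, X2_pos o _ h, Pi.add_apply, map_add]
  · by_cases h' : o b < o a ∧ ad b a
    · rw [X2_neg o _ h', X2_neg o _ h', X2_neg o _ h', Pi.add_apply, map_add, neg_add]
    · rw [X2_zero o _ h h', X2_zero o _ h h', X2_zero o _ h h', add_zero]

theorem X2_smul (r : ZG (HH ad)) (c : Ed ad o → ZG (HH ad)) (a b : V) :
    X2 o (r • c) a b = push (iH ad) r * X2 o c a b := by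
  by_cases h : o a < o b ∧ ad a b
  · rw [X2_pos o _ h, X2_pos o _ h, Pi.smul_apply, smul_eq_mul, map_mul]
  · by_cases h' : o b < o a ∧ ad b a
    · rw [X2_neg o _ h', X2_neg o _ h', Pi.smul_apply, smul_eq_mul, map_mul, mul_neg]
    · rw [X2_zero o _ h h', X2_zero o _ h h', mul_zero]

theorem push_HB (c : ZG (HH ad)) : push (iH ad) c ∈ HB ad 0 0 := by
  intro g hg
  by_cases h : hz g = 0
  · rw [h]; exact ⟨le_rfl, le_rfl⟩
  · exact absurd (push_iH_coeff_not c g h) hg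

theorem X2_HB (c : Ed ad o → ZG (HH ad)) (a b : V) : X2 o c a b ∈ HB ad 0 0 := by
  by_cases h : o a < o b ∧ ad a b
  · rw [X2_pos o _ h]; exact push_HB _
  · by_cases h' : o b < o a ∧ ad b a
    · rw [X2_neg o _ h']; exact neg_mem (push_HB _)
    · rw [X2_zero o _ h h']; exact zero_mem _

theorem X2_alt (hs : ∀ a b, ad a b → ad b a) (c : Ed ad o → ZG (HH ad)) :
    IsAlt2 ad Set.univ (X2 o c) := by
  refine ⟨fun a b => ?_, fun a b hab => ?_⟩
  · by_cases h : o a < o b ∧ ad a b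
    · rw [X2_pos o _ h, X2_neg o _ h, neg_neg]
    · by_cases h' : o b < o a ∧ ad b a
      · rw [X2_neg o _ h', X2_pos o _ h']
      · rw [X2_zero o _ h h', X2_zero o _ h' h, neg_zero]
  · refine X2_zero o c (fun h => hab ⟨trivial, trivial, h.2⟩)
      (fun h => hab ⟨trivial, trivial, hs _ _ h.2⟩)

theorem kp0_push (c : ZG (HH ad)) : kp v0 0 (push (iH ad) c) = c := by
  have := kp_push v0 0 0 c
  rwa [pow_zero, map_one, mul_one, if_pos rfl] at this

theorem push_kp0 {x : ZG (RAAG ad)} (hx : x ∈ HB ad 0 0) : push (iH ad) (kp v0 0 x) = x := by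
  have := push_kp v0 0 x
  rw [pow_zero, map_one, mul_one] at this
  rw [this]
  have h1 := Pn_bot hx
  have h2 := HB_empty (by norm_num) h1
  exact (sub_eq_zero.1 h2).symm

theorem X2_kp (hs : ∀ a b, ad a b → ad b a) (hi : ∀ a, ¬ ad a a) (ho : Function.Injective o)
    (y : V → V → ZG (RAAG ad)) (hy : IsAlt2 ad Set.univ y) (hyS : ∀ a b, y a b ∈ HB ad 0 0) :
    X2 o (fun e : Ed ad o => kp v0 0 (y e.1.1 e.1.2)) = y := by
  funext a b
  by_cases h : o a < o b ∧ ad a b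
  · rw [X2_pos o _ h, push_kp0 v0 (hyS _ _)]
  · by_cases h' : o b < o a ∧ ad b a
    · rw [X2_neg o _ h', push_kp0 v0 (hyS _ _), ← hy.1]
    · rw [X2_zero o _ h h', hy.2 a b]
      rintro ⟨-, -, hab⟩
      rcases lt_trichotomy (o a) (o b) with h1 | h1 | h1
      · exact h ⟨h1, hab⟩
      · rw [ho h1] at hab; exact hi _ hab
      · exact h' ⟨h1, hs _ _ hab⟩

end bb

section reso

variable {V : Type} [Fintype V] {ad : V → V → Prop} (v0 : V) (o : V → ℕ)

/-- the index sets of the bases -/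
def IX (ad : V → V → Prop) (o : V → ℕ) : ℕ → Type
  | 0 => Fin 3
  | 1 => V × Fin 2
  | 2 => Ed ad o
  | _ + 3 => Empty

instance (i : ℕ) : Finite (IX ad o i) := by
  match i with
  | 0 => exact inferInstanceAs (Finite (Fin 3))
  | 1 => exact inferInstanceAs (Finite (V × Fin 2))
  | 2 => exact inferInstanceAs (Finite (Ed ad o))
  | _ + 3 => exact inferInstanceAs (Finite Empty)

/-- first differential -/
noncomputable def e0 : (V × Fin 2 → ZG (HH ad)) →ₗ[ZG (HH ad)] (Fin 3 → ZG (HH ad)) where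
  toFun c := fun i => kp v0 (i : ℕ) (∑ v, Rr ad v (X1 v0 c v))
  map_add' c d := by
    funext i
    show _ = kp v0 _ _ + kp v0 _ _
    rw [← map_add, ← Finset.sum_add_distrib]
    congr 1
    refine Finset.sum_congr rfl fun v _ => ?_
    rw [← map_add]
    congr 1
    exact emb_add v0 2 _ _
  map_smul' r c := by
    funext i
    show _ = r * kp v0 _ _
    rw [← kp_mul, Finset.mul_sum]
    congr 1
    refine Finset.sum_congr rfl fun v _ => ?_
    rw [← Rr_push]
    congr 1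
    exact emb_smul v0 2 _ _

/-- second differential -/
noncomputable def e1 : (Ed ad o → ZG (HH ad)) →ₗ[ZG (HH ad)] (V × Fin 2 → ZG (HH ad)) where
  toFun c := fun p => kp v0 (p.2 : ℕ) (∑ a, Rr ad a (X2 o c a p.1))
  map_add' c d := by
    funext p
    show _ = kp v0 _ _ + kp v0 _ _
    rw [← map_add, ← Finset.sum_add_distrib]
    congr 1
    refine Finset.sum_congr rfl fun a _ => ?_
    rw [← map_add, X2_add]
  map_smul' r c := by
    funext p
    show _ = r * kp v0 _ _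
    rw [← kp_mul, Finset.mul_sum]
    congr 1
    refine Finset.sum_congr rfl fun a _ => ?_
    rw [← Rr_push, X2_smul]

/-- the differentials -/
noncomputable def ee : ∀ i : ℕ, (IX ad o (i + 1) → ZG (HH ad)) →ₗ[ZG (HH ad)]
    (IX ad o i → ZG (HH ad))
  | 0 => e0 v0
  | 1 => e1 v0 o
  | _ + 2 => 0

omit [Fintype V] in
theorem X1_HB (c : V × Fin 2 → ZG (HH ad)) (v : V) : X1 v0 c v ∈ HB ad 0 1 :=
  emb_HB v0 2 1 (by norm_num) (fun i => c (v, i))

theorem emb_e0 (c : V × Fin 2 → ZG (HH ad)) :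
    emb v0 3 (e0 v0 c) = ∑ v, Rr ad v (X1 v0 c v) := by
  have h : ∑ v, Rr ad v (X1 v0 c v) ∈ HB ad 0 2 :=
    sum_mem fun v _ => HB_mono le_rfl (by norm_num) (Rr_HB (X1_HB v0 c v) v)
  exact emb_kp v0 3 2 (by norm_num) h

theorem X1_e1 (c : Ed ad o → ZG (HH ad)) (v : V) :
    X1 v0 (e1 v0 o c) v = ∑ a, Rr ad a (X2 o c a v) := by
  have h : ∑ a, Rr ad a (X2 o c a v) ∈ HB ad 0 1 :=
    sum_mem fun a _ => HB_mono le_rfl (by norm_num) (Rr_HB (X2_HB o c a v) a)
  have h2 := emb_kp v0 2 1 (by norm_num) h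
  unfold X1
  exact h2

theorem X1_kp (w : V → ZG (RAAG ad)) (hw : ∀ v, w v ∈ HB ad 0 1) :
    X1 v0 (fun p : V × Fin 2 => kp v0 (p.2 : ℕ) (w p.1)) = w := by
  funext v
  have h2 := emb_kp v0 2 1 (by norm_num) (hw v)
  unfold X1
  exact h2

/-- the augmentation -/
noncomputable def ep : (Fin 3 → ZG (HH ad)) →+ ℤ where
  toFun c := augm (RAAG ad) (emb v0 3 c)
  map_zero' := by
    have : emb v0 3 (0 : Fin 3 → ZG (HH ad)) = 0 := by
      unfold emb
      simp
    rw [this, map_zero]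
  map_add' c d := by rw [emb_add, map_add]

theorem ep_surj : Function.Surjective (ep (ad := ad) v0) := by
  intro n
  refine ⟨fun i => if i = 0 then (n : ZG (HH ad)) else 0, ?_⟩
  show augm (RAAG ad) (emb v0 3 _) = n
  have : emb v0 3 (fun i : Fin 3 => if i = 0 then (n : ZG (HH ad)) else 0) =
      (n : ZG (RAAG ad)) := by
    unfold emb
    rw [Finset.sum_eq_single 0]
    · dsimp only
      rw [if_pos rfl, map_intCast, Fin.val_zero, pow_zero, map_one, mul_one]
    · intro i _ hi'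
      dsimp only
      rw [if_neg hi', map_zero, zero_mul]
    · intro h; exact absurd (Finset.mem_univ _) h
  rw [this]
  show (MonoidAlgebra.lift ℤ ℤ (RAAG ad) (1 : RAAG ad →* ℤ)) (n : ZG (RAAG ad)) = n
  rw [map_intCast]
  simp

omit [Fintype V] in
theorem ep_equi (g : HH ad) (x : Fin 3 → ZG (HH ad)) :
    ep v0 (MonoidAlgebra.of ℤ (HH ad) g • x) = ep v0 x := by
  show augm (RAAG ad) (emb v0 3 (MonoidAlgebra.of ℤ (HH ad) g • x)) = augm (RAAG ad) (emb v0 3 x)
  rw [emb_smul, push_of]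
  show (MonoidAlgebra.lift ℤ ℤ (RAAG ad) (1 : RAAG ad →* ℤ)) _ =
    (MonoidAlgebra.lift ℤ ℤ (RAAG ad) (1 : RAAG ad →* ℤ)) _
  rw [map_mul]
  simp

theorem ex_0 (hs : ∀ a b, ad a b → ad b a) (hi : ∀ a, ¬ ad a a) (D : Acyc ad)
    (x : Fin 3 → ZG (HH ad)) : ep v0 x = 0 ↔ ∃ c, e0 v0 c = x := by
  constructor
  · intro h
    have hx : emb v0 3 x ∈ HB ad 0 2 := emb_HB v0 3 2 (by norm_num) x
    obtain ⟨w, hw, hwx⟩ := slab0 hs hi D _ hx h
    refine ⟨fun p => kp v0 (p.2 : ℕ) (w p.1), ?_⟩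
    funext i
    show kp v0 (i : ℕ) (∑ v, Rr ad v (X1 v0 _ v)) = x i
    rw [X1_kp v0 w hw, hwx, kp_emb]
  · rintro ⟨c, rfl⟩
    show augm (RAAG ad) (emb v0 3 (e0 v0 c)) = 0
    rw [emb_e0, map_sum]
    refine Finset.sum_eq_zero fun v _ => ?_
    rw [Rr_eq]
    show (MonoidAlgebra.lift ℤ ℤ (RAAG ad) (1 : RAAG ad →* ℤ)) _ = 0
    rw [map_mul, map_sub]
    simp

theorem ex_1 (hs : ∀ a b, ad a b → ad b a) (hi : ∀ a, ¬ ad a a) (D : Acyc ad)
    (hk : ∀ a b c d, ad a b → ad a c → ad a d → ad b c → ad b d → ¬ ad c d)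
    (ho : Function.Injective o)
    (x : V × Fin 2 → ZG (HH ad)) : e0 v0 x = 0 ↔ ∃ c, e1 v0 o c = x := by
  constructor
  · intro h'
    have h1 : ∑ v, Rr ad v (X1 v0 x v) = 0 := by
      rw [← emb_e0, h']
      unfold emb
      simp
    obtain ⟨y, hy, hyS, hyx⟩ := slab1 hs hi D hk (X1 v0 x) (X1_HB v0 x) h1
    refine ⟨fun e => kp v0 0 (y e.1.1 e.1.2), ?_⟩
    funext p
    show kp v0 (p.2 : ℕ) (∑ a, Rr ad a (X2 o _ a p.1)) = x p
    rw [X2_kp v0 o hs hi ho y hy hyS, hyx]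
    exact kp_emb v0 2 _ p.2
  · rintro ⟨c, rfl⟩
    funext i
    show kp v0 (i : ℕ) (∑ v, Rr ad v (X1 v0 (e1 v0 o c) v)) = 0
    have h1 : ∀ v, X1 v0 (e1 v0 o c) v = ∑ a, Rr ad a (X2 o c a v) := X1_e1 v0 o c
    rw [Finset.sum_congr rfl fun v _ => by rw [h1 v], dd2 hs hi _ (X2_alt o hs c), map_zero]

theorem ex_2 (hs : ∀ a b, ad a b → ad b a) (hi : ∀ a, ¬ ad a a) (D : Acyc ad)
    (hk : ∀ a b c d, ad a b → ad a c → ad a d → ad b c → ad b d → ¬ ad c d)
    (x : Ed ad o → ZG (HH ad)) (h' : e1 v0 o x = 0) : x = 0 := by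
  have h1 : ∀ b, ∑ a, Rr ad a (X2 o x a b) = 0 := by
    intro b
    rw [← X1_e1 v0, h']
    unfold X1 emb
    simp
  have h2 := slab2 hs hi D hk (X2 o x) (X2_alt o hs x) (X2_HB o x) h1
  funext e
  have h3 := h2 e.1.1 e.1.2
  rw [X2_pos o x e.2] at h3
  have h4 := congrArg (kp v0 0) h3
  rw [kp0_push, map_zero] at h4
  exact h4

theorem reso_bb (hs : ∀ a b, ad a b → ad b a) (hi : ∀ a, ¬ ad a a) (D : Acyc ad)
    (hk : ∀ a b c d, ad a b → ad a c → ad a d → ad b c → ad b d → ¬ ad c d)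
    (ho : Function.Injective o) :
    Pool.Agent.Helper158.Reso (P := fun i => IX ad o i → ZG (HH ad)) (ee v0 o) (ep v0) := by
  constructor
  · exact ep_surj v0
  · exact ep_equi v0
  · exact ex_0 v0 hs hi D
  · intro i x
    match i, x with
    | 0, x => exact ex_1 v0 o hs hi D hk ho x
    | 1, x =>
      constructor
      · intro h
        have h' := ex_2 v0 o hs hi D hk x h
        exact ⟨0, (map_zero _).trans h'.symm⟩
      · rintro ⟨c, rfl⟩
        exact map_zero (e1 v0 o)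
    | (n + 2), x =>
      constructor
      · intro _
        refine ⟨0, ?_⟩
        funext e
        exact e.elim
      · intro _
        rfl

/-- **M3**: the Bestvina-Brady group is of type `FP_m` for all `m`. -/
theorem fp_bb (hs : ∀ a b, ad a b → ad b a) (hi : ∀ a, ¬ ad a a) (D : Acyc ad)
    (hk : ∀ a b c d, ad a b → ad a c → ad a d → ad b c → ad b d → ¬ ad c d) (v0 : V) (m : ℕ) :
    FPc m (HH ad) :=
  Pool.Agent.Y448.HC.fpc_of_reso (reso_bb v0 (fun v => (Fintype.equivFin V v : ℕ)) hs hi D hk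
    (fun _ _ h => (Fintype.equivFin V).injective (Fin.ext h))) m (fun _ _ => inferInstance)

end reso

end Pool.Agent.Y66.HC
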