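import Pool.Agent.W326.DU.Stm

/-!
# The homological 1-2-3 conjecture fails (MP_3ca9d5_al, S01246): definitions and statements

`Q` is a Bestvina-Brady group of type `FP` which is not finitely presented, `π₂ : F → Q` a
surjection from a free group, `G₁` the HNN extension of `F × Q` whose stable letter centralises
the graph of `π₂`.
-/

set_option autoImplicit false

open CategoryTheory

namespace Pool.Agent.Y66.HC

open Pool.Agent.W326.DU

/-- The finiteness condition of the frozen statements: type `FP_m`. -/
def FPc (m : ℕ) (G : Type) [Group G] : Prop :=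
  ∃ R : ProjectiveResolution (Rep.trivial ℤ G ℤ), ∀ k ≤ m,
    ∃ s : Finset (R.complex.X k).V, ∀ x : (R.complex.X k).V,
      x ∈ Submodule.span ℤ
        (Set.range (fun p : G × s => (R.complex.X k).ρ p.1 (p.2 : (R.complex.X k).V)))

/-- `(c_i) ↦ ∑ c_i (x_i - 1)` -/
noncomputable def fox {G ι : Type} [Group G] [Fintype ι] (x : ι → G) :
    (ι → ZG G) →ₗ[ZG G] ZG G where
  toFun c := ∑ i, c i * (MonoidAlgebra.of ℤ G (x i) - 1)
  map_add' c d := by simp [add_mul, Finset.sum_add_distrib]
  map_smul' r c := by simp [Finset.mul_sum, mul_assoc]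

/-- the relation module of a finite family of elements of `G` -/
noncomputable def RM {G ι : Type} [Group G] [Fintype ι] (x : ι → G) :
    Submodule (ZG G) (ι → ZG G) := LinearMap.ker (fox x)

/-- **M1**: if `G` is of type `FP_2` then the relation module of every finite generating family
is finitely generated. -/
def PropM1 : Prop := ∀ (G ι : Type) [Group G] [Fintype ι] (x : ι → G),
  Subgroup.closure (Set.range x) = ⊤ → FPc 2 G → (RM x).FG

/-- **M2**: converse of M1. -/
def PropM2 : Prop := ∀ (G ι : Type) [Group G] [Fintype ι] (x : ι → G),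
  Subgroup.closure (Set.range x) = ⊤ → (RM x).FG → FPc 2 G

/-- acyclicity of the clique complex of a `K₄`-free graph, with arbitrary coefficients -/
structure Acyc {V : Type} [Fintype V] (ad : V → V → Prop) : Prop where
  ac1 : ∀ (M : Type) [AddCommGroup M] (x : V → M), ∑ v, x v = 0 →
    ∃ y : V → V → M, IsAlt2 ad Set.univ y ∧ ∀ b, x b = ∑ a, y a b
  ac2 : ∀ (M : Type) [AddCommGroup M] (y : V → V → M), IsAlt2 ad Set.univ y →
    (∀ b, ∑ a, y a b = 0) →
    ∃ z : V → V → V → M, IsAlt3 ad Set.univ z ∧ ∀ b c, y b c = ∑ a, z a b c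
  ac3 : ∀ (M : Type) [AddCommGroup M] (z : V → V → V → M), IsAlt3 ad Set.univ z →
    (∀ b c, ∑ a, z a b c = 0) → ∀ a b c, z a b c = 0

/-- The graph data: a finite `K₄`-free graph with acyclic clique complex, a `1`-cocycle `γ` on
the clique complex with values in a group `J` and a closed path with nontrivial value. -/
structure GrData {V J : Type} [Fintype V] [Group J] (ad : V → V → Prop) (γ : V → V → J) (l : ℕ)
    (p : ℕ → V) : Prop where
  symm : ∀ a b, ad a b → ad b a
  irr : ∀ a, ¬ ad a a
  k4 : ∀ a b c d, ad a b → ad a c → ad a d → ad b c → ad b d → ¬ ad c d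
  acyc : Acyc ad
  /-- connectedness -/
  conn : ∀ a b, Relation.ReflTransGen ad a b
  /-- the cocycle condition -/
  coc : ∀ u v w, (u = v ∨ ad u v) → (v = w ∨ ad v w) → (u = w ∨ ad u w) → γ u v * γ v w = γ u w
  closed : p l = p 0
  path : ∀ i < l, ad (p i) (p (i + 1))
  hol : ((List.range l).map (fun i => γ (p i) (p (i + 1)))).prod ≠ 1

/-- **M8**: the graph exists (the 21 cells of the 2-complex with five vertices, ten edges and six
pentagons which is a spine of the Poincaré homology sphere). -/
def PropM8 : Prop := ∃ (V : Type) (_ : Fintype V) (_ : DecidableEq V) (ad : V → V → Prop)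
  (γ : V → V → Equiv.Perm (Fin 5)) (l : ℕ) (p : ℕ → V), GrData ad γ l p

end Pool.Agent.Y66.HC
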