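import Pool.Agent.Y66.HC.IL

/-!
# The group `G₁`: the HNN extension of `F × Q` whose stable letter centralises the graph of `π`
-/

set_option autoImplicit false

namespace Pool.Agent.Y66.HC

open Pool.Agent.W326.DU

section

variable {F Q : Type} [Group F] [Group Q] (π : F →* Q)

/-- the graph of `π` -/
def Gph : Subgroup (F × Q) := ((MonoidHom.id F).prod π).range

theorem mem_Gph (x : F × Q) : x ∈ Gph π ↔ x.2 = π x.1 := by
  constructor
  · rintro ⟨f, rfl⟩; rfl
  · intro h
    exact ⟨x.1, Prod.ext rfl h.symm⟩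

/-- the group `G₁` -/
abbrev G1 : Type := HNNExtension (F × Q) (Gph π) (Gph π) (MulEquiv.refl _)

/-- the base -/
abbrev oo : F × Q →* G1 π := HNNExtension.of

/-- the stable letter -/
abbrev tt : G1 π := HNNExtension.t

theorem tt_comm {x : F × Q} (hx : x ∈ Gph π) : tt π * oo π x = oo π x * tt π :=
  HNNExtension.t_mul_of (φ := MulEquiv.refl (Gph π)) (⟨x, hx⟩ : Gph π)

/-- the projection to `Q` -/
def p1 : G1 π →* Q := HNNExtension.lift (MonoidHom.snd F Q) 1 (fun a => by simp)

@[simp] theorem p1_oo (x : F × Q) : p1 π (oo π x) = x.2 := HNNExtension.lift_of _ _ _ _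

@[simp] theorem p1_tt : p1 π (tt π) = 1 := HNNExtension.lift_t _ _ _

/-- the projection to `F` -/
def pF : G1 π →* F := HNNExtension.lift (MonoidHom.fst F Q) 1 (fun a => by simp)

@[simp] theorem pF_oo (x : F × Q) : pF π (oo π x) = x.1 := HNNExtension.lift_of _ _ _ _

@[simp] theorem pF_tt : pF π (tt π) = 1 := HNNExtension.lift_t _ _ _

theorem p1_surj : Function.Surjective (p1 π) := fun q => ⟨oo π (1, q), by simp⟩

variable {β : Type} (f : β → F)

/-- generators of the kernel of `p1` -/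
def kgen : Set (G1 π) := Set.range (fun i => oo π (f i, 1)) ∪ {tt π}

theorem oo_fst_mem (hf : Subgroup.closure (Set.range f) = ⊤) (a : F) :
    oo π (a, 1) ∈ Subgroup.closure (kgen π f) := by
  have ha : a ∈ Subgroup.closure (Set.range f) := by rw [hf]; trivial
  have h1 : oo π (a, 1) ∈ (Subgroup.closure (Set.range f)).map
      ((oo π).comp (MonoidHom.inl F Q)) := ⟨a, ha, rfl⟩
  rw [MonoidHom.map_closure] at h1
  refine Subgroup.closure_mono ?_ h1
  rintro _ ⟨_, ⟨i, rfl⟩, rfl⟩
  exact Or.inl ⟨i, rfl⟩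

theorem kgen_conj_q (hπ : Function.Surjective π) (hf : Subgroup.closure (Set.range f) = ⊤)
    (q : Q) {a : G1 π} (ha : a ∈ Subgroup.closure (kgen π f)) :
    oo π (1, q) * a * (oo π (1, q))⁻¹ ∈ Subgroup.closure (kgen π f) := by
  induction ha using Subgroup.closure_induction with
  | mem a ha =>
    rcases ha with ⟨i, rfl⟩ | rfl
    · have : oo π (1, q) * oo π (f i, 1) * (oo π (1, q))⁻¹ = oo π (f i, 1) := by
        rw [← map_mul, ← map_inv, ← map_mul]
        congr 1
        ext <;> simp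
      dsimp only
      rw [this]
      exact Subgroup.subset_closure (Or.inl ⟨i, rfl⟩)
    · obtain ⟨g, rfl⟩ := hπ q
      have e1 : oo π (1, π g) = oo π (g⁻¹, 1) * oo π (g, π g) := by
        rw [← map_mul]; congr 1; ext <;> simp
      have e2 : tt π * oo π (g, π g) = oo π (g, π g) * tt π :=
        tt_comm π ((mem_Gph π _).2 rfl)
      have e3 : oo π (1, π g) * tt π * (oo π (1, π g))⁻¹ =
          oo π (g⁻¹, 1) * tt π * (oo π (g⁻¹, 1))⁻¹ := by
        rw [e1, mul_inv_rev]
        calc oo π (g⁻¹, 1) * oo π (g, π g) * tt π * ((oo π (g, π g))⁻¹ * (oo π (g⁻¹, 1))⁻¹)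
            = oo π (g⁻¹, 1) * (oo π (g, π g) * tt π) * (oo π (g, π g))⁻¹ * (oo π (g⁻¹, 1))⁻¹ := by
              simp only [mul_assoc]
          _ = oo π (g⁻¹, 1) * (tt π * oo π (g, π g)) * (oo π (g, π g))⁻¹ * (oo π (g⁻¹, 1))⁻¹ := by
              rw [e2]
          _ = _ := by group
      rw [e3]
      have h1 := oo_fst_mem π f hf g⁻¹
      exact mul_mem (mul_mem h1 (Subgroup.subset_closure (Or.inr rfl))) (inv_mem h1)
  | one => rw [mul_one, mul_inv_cancel]; exact one_mem _
  | mul a b _ _ ha hb =>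
    have : oo π (1, q) * (a * b) * (oo π (1, q))⁻¹ =
      (oo π (1, q) * a * (oo π (1, q))⁻¹) * (oo π (1, q) * b * (oo π (1, q))⁻¹) := by group
    rw [this]; exact mul_mem ha hb
  | inv a _ ha =>
    have : oo π (1, q) * a⁻¹ * (oo π (1, q))⁻¹ = (oo π (1, q) * a * (oo π (1, q))⁻¹)⁻¹ := by group
    rw [this]; exact inv_mem ha

theorem kgen_decomp (hπ : Function.Surjective π) (hf : Subgroup.closure (Set.range f) = ⊤)
    (g : G1 π) : ∃ a ∈ Subgroup.closure (kgen π f), ∃ q : Q, g = a * oo π (1, q) := by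
  induction g using HNNExtension.induction_on with
  | of x =>
    refine ⟨oo π (x.1, 1), oo_fst_mem π f hf x.1, x.2, ?_⟩
    rw [← map_mul]
    congr 1
    ext <;> simp
  | t =>
    refine ⟨tt π, Subgroup.subset_closure (Or.inr rfl), 1, ?_⟩
    rw [show ((1 : F), (1 : Q)) = 1 from rfl, map_one, mul_one]
  | mul x y hx hy =>
    obtain ⟨a, ha, q, rfl⟩ := hx
    obtain ⟨b, hb, r, rfl⟩ := hy
    refine ⟨a * (oo π (1, q) * b * (oo π (1, q))⁻¹), mul_mem ha (kgen_conj_q π f hπ hf q hb),
      q * r, ?_⟩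
    have : oo π (1, q * r) = oo π (1, q) * oo π (1, r) := by
      rw [← map_mul]; congr 1; ext <;> simp
    rw [this]; group
  | inv x hx =>
    obtain ⟨a, ha, q, rfl⟩ := hx
    have e : oo π (1, q⁻¹) = (oo π (1, q))⁻¹ := by
      rw [← map_inv]; congr 1; ext <;> simp
    refine ⟨oo π (1, q⁻¹) * a⁻¹ * (oo π (1, q⁻¹))⁻¹, kgen_conj_q π f hπ hf q⁻¹ (inv_mem ha),
      q⁻¹, ?_⟩
    rw [e]; group

theorem ker_p1 (hπ : Function.Surjective π) (hf : Subgroup.closure (Set.range f) = ⊤) :
    (p1 π).ker = Subgroup.closure (kgen π f) := by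
  have hle : Subgroup.closure (kgen π f) ≤ (p1 π).ker := by
    rw [Subgroup.closure_le]
    rintro _ (⟨i, rfl⟩ | rfl)
    · show p1 π (oo π (f i, 1)) = 1
      rw [p1_oo]
    · exact p1_tt π
  refine le_antisymm ?_ hle
  intro g hg
  obtain ⟨a, ha, q, rfl⟩ := kgen_decomp π f hπ hf g
  have h1 : p1 π a = 1 := hle ha
  rw [MonoidHom.mem_ker, map_mul, h1, p1_oo, one_mul] at hg
  dsimp only at hg
  rw [hg, show ((1 : F), (1 : Q)) = 1 from rfl, map_one, mul_one]
  exact ha

/-- the kernel of `p1` is finitely generated -/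
theorem ker_p1_fg [Finite β] (hπ : Function.Surjective π)
    (hf : Subgroup.closure (Set.range f) = ⊤) : Group.FG (p1 π).ker := by
  rw [Group.fg_iff_subgroup_fg, ker_p1 π f hπ hf, Subgroup.fg_iff]
  exact ⟨kgen π f, rfl, (Set.finite_range _).union (Set.finite_singleton _)⟩

/-- generators of `G₁` -/
def ygen {κ : Type} (x : κ → Q) : Option (β ⊕ κ) → G1 π := fun o =>
  o.elim (tt π) (Sum.elim (fun i => oo π (f i, 1)) (fun j => oo π (1, x j)))

theorem ygen_closure {κ : Type} (x : κ → Q) (hf : Subgroup.closure (Set.range f) = ⊤)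
    (hx : Subgroup.closure (Set.range x) = ⊤) : Subgroup.closure (Set.range (ygen π f x)) = ⊤ := by
  rw [eq_top_iff]
  rintro g -
  have h1 : ∀ a : F, oo π (a, 1) ∈ Subgroup.closure (Set.range (ygen π f x)) := by
    intro a
    have ha : a ∈ Subgroup.closure (Set.range f) := by rw [hf]; trivial
    have h1 : oo π (a, 1) ∈ (Subgroup.closure (Set.range f)).map
        ((oo π).comp (MonoidHom.inl F Q)) := ⟨a, ha, rfl⟩
    rw [MonoidHom.map_closure] at h1
    refine Subgroup.closure_mono ?_ h1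
    rintro _ ⟨_, ⟨i, rfl⟩, rfl⟩
    exact ⟨some (Sum.inl i), rfl⟩
  have h2 : ∀ a : Q, oo π (1, a) ∈ Subgroup.closure (Set.range (ygen π f x)) := by
    intro a
    have ha : a ∈ Subgroup.closure (Set.range x) := by rw [hx]; trivial
    have h1 : oo π (1, a) ∈ (Subgroup.closure (Set.range x)).map
        ((oo π).comp (MonoidHom.inr F Q)) := ⟨a, ha, rfl⟩
    rw [MonoidHom.map_closure] at h1
    refine Subgroup.closure_mono ?_ h1
    rintro _ ⟨_, ⟨i, rfl⟩, rfl⟩
    exact ⟨some (Sum.inr i), rfl⟩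
  induction g using HNNExtension.induction_on with
  | of a =>
    have : oo π a = oo π (a.1, 1) * oo π (1, a.2) := by
      rw [← map_mul]; congr 1; ext <;> simp
    change oo π a ∈ _
    rw [this]
    exact mul_mem (h1 _) (h2 _)
  | t => exact Subgroup.subset_closure ⟨none, rfl⟩
  | mul a b ha hb => exact mul_mem ha hb
  | inv a ha => exact inv_mem ha

end

end Pool.Agent.Y66.HC
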