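import Pool.Agent.Y66.HC.Defs
import Pool.Agent.W571.DU.BC
import Pool.Agent.W490.DU.Grp

/-!
# Left ideals `IL S` of group rings and cosets
-/

set_option autoImplicit false

namespace Pool.Agent.Y66.HC

open Pool.Agent.W326.DU
open Pool.Agent.W490.DU (of_sub_mem_IL IL_le)

variable {G : Type} [Group G]

/-- the image of an element of the group ring in the permutation module of the cosets -/
noncomputable def cm (S : Subgroup G) : ZG G →+ (G ⧸ S →₀ ℤ) :=
  (Finsupp.mapDomain.addMonoidHom (fun g : G => (QuotientGroup.mk g : G ⧸ S))).comp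
    MonoidAlgebra.coeffAddEquiv.toAddMonoidHom

theorem cm_single (S : Subgroup G) (g : G) (n : ℤ) :
    cm S (MonoidAlgebra.single g n) = Finsupp.single (QuotientGroup.mk g : G ⧸ S) n := by
  show Finsupp.mapDomain _ (MonoidAlgebra.single g n : ZG G).coeff = _
  rw [show (MonoidAlgebra.single g n : ZG G).coeff = Finsupp.single g n from rfl,
    Finsupp.mapDomain_single]

theorem cm_mul_sub (S : Subgroup G) (a : ZG G) {s : G} (hs : s ∈ S) :
    cm S (a * (MonoidAlgebra.of ℤ G s - 1)) = 0 := by
  let f : ZG G →+ (G ⧸ S →₀ ℤ) := (cm S).comp (AddMonoidHom.mulRight (MonoidAlgebra.of ℤ G s - 1))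
  have : f = 0 := by
    apply MonoidAlgebra.addMonoidHom_ext
    intro g n
    show cm S (MonoidAlgebra.single g n * (MonoidAlgebra.of ℤ G s - 1)) = 0
    rw [mul_sub, mul_one, map_sub, MonoidAlgebra.of_apply, MonoidAlgebra.single_mul_single, mul_one,
      cm_single, cm_single, sub_eq_zero]
    congr 1
    rw [QuotientGroup.eq]
    simpa using hs
  exact DFunLike.congr_fun this a

/-- back to the group ring -/
noncomputable def bk (S : Subgroup G) : (G ⧸ S →₀ ℤ) →+ ZG G :=
  MonoidAlgebra.coeffAddEquiv.symm.toAddMonoidHom.comp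
    (Finsupp.mapDomain.addMonoidHom (fun q : G ⧸ S => q.out))

theorem bk_single (S : Subgroup G) (q : G ⧸ S) (n : ℤ) :
    bk S (Finsupp.single q n) = MonoidAlgebra.single q.out n := by
  show MonoidAlgebra.ofCoeff (Finsupp.mapDomain _ (Finsupp.single q n)) = _
  rw [Finsupp.mapDomain_single]
  rfl

theorem sub_bk_mem (S : Subgroup G) (x : ZG G) : x - bk S (cm S x) ∈ IL ℤ (S : Set G) := by
  induction x using MonoidAlgebra.induction_on with
  | of g =>
    rw [MonoidAlgebra.of_apply, cm_single, bk_single]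
    have h1 : ((QuotientGroup.mk g : G ⧸ S).out)⁻¹ * g ∈ S := by
      rw [← QuotientGroup.eq, QuotientGroup.out_eq']
    have h2 : (MonoidAlgebra.single g 1 : ZG G) -
        MonoidAlgebra.single ((QuotientGroup.mk g : G ⧸ S).out) 1 =
        MonoidAlgebra.of ℤ G ((QuotientGroup.mk g : G ⧸ S).out) •
          (MonoidAlgebra.of ℤ G (((QuotientGroup.mk g : G ⧸ S).out)⁻¹ * g) - 1) := by
      rw [smul_eq_mul, mul_sub, mul_one, ← map_mul, mul_inv_cancel_left]
      rfl
    rw [h2]
    exact Submodule.smul_mem _ _ (Submodule.subset_span ⟨_, h1, rfl⟩)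
  | add a b ha hb =>
    rw [map_add, map_add]
    have : a + b - (bk S (cm S a) + bk S (cm S b)) = (a - bk S (cm S a)) + (b - bk S (cm S b)) := by
      abel
    rw [this]
    exact add_mem ha hb
  | smul r a ha =>
    rw [map_zsmul, map_zsmul, ← smul_sub]
    exact zsmul_mem ha r

/-- **Lemma C** -/
theorem mem_IL_iff (S : Subgroup G) (x : ZG G) : x ∈ IL ℤ (S : Set G) ↔ cm S x = 0 := by
  constructor
  · intro h
    have key : ∀ a : ZG G, cm S (a * x) = 0 := by
      unfold IL at h
      induction h using Submodule.span_induction with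
      | mem x hx =>
        intro a
        obtain ⟨s, hs, rfl⟩ := hx
        exact cm_mul_sub S a hs
      | zero => intro a; rw [mul_zero, map_zero]
      | add x y _ _ hx hy => intro a; rw [mul_add, map_add, hx, hy, add_zero]
      | smul b x _ hx => intro a; rw [smul_eq_mul, ← mul_assoc]; exact hx _
    have := key 1
    rwa [one_mul] at this
  · intro h
    have := sub_bk_mem S x
    rwa [h, map_zero, sub_zero] at this

/-- **Lemma A** -/
theorem mem_closure_of {S : Set G} {g : G} (h : MonoidAlgebra.of ℤ G g - 1 ∈ IL ℤ S) :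
    g ∈ Subgroup.closure S := by
  have h1 : MonoidAlgebra.of ℤ G g - 1 ∈ IL ℤ ((Subgroup.closure S : Subgroup G) : Set G) :=
    IL_le ℤ (fun s hs => Subgroup.subset_closure (Subgroup.subset_closure hs)) h
  rw [mem_IL_iff, map_sub, show (1 : ZG G) = MonoidAlgebra.single 1 1 from rfl,
    MonoidAlgebra.of_apply, cm_single, cm_single, sub_eq_zero] at h1
  have h2 := (Finsupp.single_left_inj (one_ne_zero)).1 h1
  have h3 := QuotientGroup.eq.1 h2.symm
  simpa using h3

/-- pushing forward -/
noncomputable abbrev push {P G : Type} [Group P] [Group G] (φ : P →* G) : ZG P →+* ZG G :=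
  MonoidAlgebra.mapDomainRingHom ℤ φ

theorem push_of {P G : Type} [Group P] [Group G] (φ : P →* G) (p : P) :
    push φ (MonoidAlgebra.of ℤ P p) = MonoidAlgebra.of ℤ G (φ p) := by
  simp [MonoidAlgebra.of_apply]

theorem push_single {P G : Type} [Group P] [Group G] (φ : P →* G) (p : P) (n : ℤ) :
    push φ (MonoidAlgebra.single p n) = MonoidAlgebra.single (φ p) n := by
  simp

/-- **Lemma B** -/
theorem mem_IL_comap {P : Type} [Group P] (φ : P →* G) (T : Subgroup G) (x : ZG P)
    (h : push φ x ∈ IL ℤ (T : Set G)) : x ∈ IL ℤ ((T.comap φ : Subgroup P) : Set P) := by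
  rw [mem_IL_iff] at h ⊢
  let j : P ⧸ T.comap φ → G ⧸ T := Quotient.map' φ (fun a b hab => by
    rw [QuotientGroup.leftRel_apply] at hab ⊢
    rw [Subgroup.mem_comap, map_mul, map_inv] at hab
    exact hab)
  have hj : Function.Injective j := by
    intro a b
    obtain ⟨a, rfl⟩ := QuotientGroup.mk_surjective a
    obtain ⟨b, rfl⟩ := QuotientGroup.mk_surjective b
    intro hab
    have h1 : (QuotientGroup.mk (φ a) : G ⧸ T) = QuotientGroup.mk (φ b) := hab
    rw [QuotientGroup.eq] at h1 ⊢
    rw [Subgroup.mem_comap, map_mul, map_inv]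
    exact h1
  have key : ∀ y : ZG P, cm T (push φ y) = Finsupp.mapDomain j (cm (T.comap φ) y) := by
    intro y
    let f : ZG P →+ (G ⧸ T →₀ ℤ) := (cm T).comp (push φ).toAddMonoidHom
    let f' : ZG P →+ (G ⧸ T →₀ ℤ) := (Finsupp.mapDomain.addMonoidHom j).comp (cm (T.comap φ))
    have : f = f' := by
      apply MonoidAlgebra.addMonoidHom_ext
      intro g n
      show cm T (push φ (MonoidAlgebra.single g n)) =
        Finsupp.mapDomain j (cm (T.comap φ) (MonoidAlgebra.single g n))
      rw [push_single, cm_single, cm_single, Finsupp.mapDomain_single]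
      rfl
    exact DFunLike.congr_fun this y
  rw [key] at h
  exact Finsupp.mapDomain_injective hj (h.trans (Finsupp.mapDomain_zero).symm)

theorem push_mem_IL {P : Type} [Group P] (φ : P →* G) (L : Set P) {y : ZG P} (h : y ∈ IL ℤ L) :
    push φ y ∈ IL ℤ (φ '' L) :=
  Pool.Agent.W571.DU.BC.map_mem ℤ φ L y h

theorem IL_mono {S T : Set G} (h : S ⊆ T) : IL ℤ S ≤ IL ℤ T :=
  IL_le ℤ (fun _ hs => Subgroup.subset_closure (h hs))

/-- elements of `IL` as sums over a finite family -/
theorem mem_IL_range {ι : Type} [Fintype ι] (x : ι → G) (y : ZG G) :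
    y ∈ IL ℤ (Set.range x) ↔ ∃ c : ι → ZG G, fox x c = y := by
  have : IL ℤ (Set.range x) = LinearMap.range (fox x) := by
    apply le_antisymm
    · unfold IL
      rw [Submodule.span_le]
      rintro _ ⟨_, ⟨i, rfl⟩, rfl⟩
      classical
      refine ⟨Pi.single i 1, ?_⟩
      show ∑ j, (Pi.single i 1 : ι → ZG G) j * (MonoidAlgebra.of ℤ G (x j) - 1) = _
      rw [Finset.sum_eq_single i]
      · simp
      · intro j _ hj
        rw [Pi.single_eq_of_ne hj, zero_mul]
      · intro h; exact absurd (Finset.mem_univ i) h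
    · rintro _ ⟨c, rfl⟩
      show ∑ j, c j * (MonoidAlgebra.of ℤ G (x j) - 1) ∈ _
      exact Submodule.sum_mem _ fun j _ =>
        Submodule.smul_mem _ (c j) (Submodule.subset_span ⟨_, ⟨j, rfl⟩, rfl⟩)
  rw [this]
  rfl

theorem fox_mem_IL {ι : Type} [Fintype ι] (x : ι → G) (c : ι → ZG G) :
    fox x c ∈ IL ℤ (Set.range x) := (mem_IL_range x _).2 ⟨c, rfl⟩

theorem fox_apply {ι : Type} [Fintype ι] (x : ι → G) (c : ι → ZG G) :
    fox x c = ∑ i, c i * (MonoidAlgebra.of ℤ G (x i) - 1) := rfl

/-- finite subsets suffice -/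
theorem mem_IL_finite {S : Set G} {y : ZG G} (h : y ∈ IL ℤ S) :
    ∃ T : Finset G, (T : Set G) ⊆ S ∧ y ∈ IL ℤ (T : Set G) := by
  classical
  unfold IL at h
  induction h using Submodule.span_induction with
  | mem x hx =>
    obtain ⟨s, hs, rfl⟩ := hx
    refine ⟨{s}, by simpa using hs, Submodule.subset_span ⟨s, by simp, rfl⟩⟩
  | zero => exact ⟨∅, by simp, Submodule.zero_mem _⟩
  | add x y _ _ hx hy =>
    obtain ⟨T, hT, hx⟩ := hx
    obtain ⟨T', hT', hy⟩ := hy
    refine ⟨T ∪ T', ?_, ?_⟩
    · rw [Finset.coe_union]; exact Set.union_subset hT hT'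
    · exact Submodule.add_mem _ (IL_mono (by simp) hx) (IL_mono (by simp) hy)
  | smul b x _ hx =>
    obtain ⟨T, hT, hx⟩ := hx
    exact ⟨T, hT, Submodule.smul_mem _ _ hx⟩

end Pool.Agent.Y66.HC
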