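import Pool.Agent.Y66.HC.Raag

/-!
# Bestvina-Brady groups of non simply connected complexes are not finitely presented
-/

set_option autoImplicit false

namespace Pool.Agent.Y66.HC

open Pool.Agent.W326.DU

section

variable {V J : Type} [Group J] {ad : V → V → Prop}
variable (hs : ∀ a b, ad a b → ad b a) (hi : ∀ a, ¬ ad a a) (v0 : V) (γ : V → V → J)

/-- the height as an integer -/
def hz (h : RAAG ad) : ℤ := Multiplicative.toAdd (ht ad h)

theorem hz_one : hz (1 : RAAG ad) = 0 := by unfold hz; rw [map_one]; rfl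

theorem hz_mul (g h : RAAG ad) : hz (g * h) = hz g + hz h := by
  unfold hz; rw [map_mul]; rfl

theorem hz_inv (g : RAAG ad) : hz g⁻¹ = - hz g := by
  unfold hz; rw [map_inv]; rfl

theorem hz_gen (v : V) : hz (gen ad v) = 1 := by
  unfold hz; rw [ht_gen]; rfl

theorem hz_pow (g : RAAG ad) (n : ℕ) : hz (g ^ n) = n * hz g := by
  induction n with
  | zero => rw [pow_zero, hz_one]; simp
  | succ n ih => rw [pow_succ, hz_mul, ih]; push_cast; ring

theorem ne_one_of_hz {h : RAAG ad} (hh : hz h ≠ 0) : h ≠ 1 := by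
  rintro rfl
  exact hh hz_one

open Classical in
/-- a vertex among the first letters -/
noncomputable def mf (h : RAAG ad) : V :=
  if h1 : h ≠ 1 then (exists_Dv hs hi h1).choose else v0

theorem mf_spec {h : RAAG ad} (h1 : h ≠ 1) : h ∈ Dv hs hi (mf hs hi v0 h) := by
  unfold mf
  rw [dif_pos h1]
  exact (exists_Dv hs hi h1).choose_spec

theorem mf_mem {S : Set V} {h : RAAG ad} (h1 : h ≠ 1) (h2 : h ∈ sp ad S) :
    mf hs hi v0 h ∈ S := by
  by_contra h3
  exact Dv_sp_one hs hi h3 h2 (mf_spec hs hi v0 h1)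

/-- the action of the free group on `A × J` -/
noncomputable def PA : FreeGroup V →* (Equiv.Perm (RAAG ad × J))ᵐᵒᵖ :=
  FreeGroup.lift (fun v => MulOpposite.op (shp (gen ad v)
    (fun h => γ (mf hs hi v0 h) (mf hs hi v0 (h * gen ad v)))))

/-- the projection of the free group -/
abbrev pr (ad : V → V → Prop) : FreeGroup V →* RAAG ad := PresentedGroup.mk (rels ad)

theorem pr_of (v : V) : pr ad (FreeGroup.of v) = gen ad v := rfl

theorem PA_of (v : V) (h : RAAG ad) (x : J) : (PA hs hi v0 γ (FreeGroup.of v)).unop (h, x) =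
    (h * gen ad v, x * γ (mf hs hi v0 h) (mf hs hi v0 (h * gen ad v))) := by
  unfold PA
  rw [FreeGroup.lift_apply_of]
  rfl

theorem PA_of_inv (v : V) (h : RAAG ad) (x : J) : (PA hs hi v0 γ (FreeGroup.of v)⁻¹).unop (h, x) =
    (h * (gen ad v)⁻¹, x * (γ (mf hs hi v0 (h * (gen ad v)⁻¹)) (mf hs hi v0 h))⁻¹) := by
  unfold PA
  rw [map_inv, FreeGroup.lift_apply_of, MulOpposite.unop_inv, MulOpposite.unop_op, shp_inv_apply,
    inv_mul_cancel_right]

theorem PA_mul (u w : FreeGroup V) (q : RAAG ad × J) : (PA hs hi v0 γ (u * w)).unop q =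
    (PA hs hi v0 γ w).unop ((PA hs hi v0 γ u).unop q) := by
  rw [map_mul, MulOpposite.unop_mul, Equiv.Perm.mul_apply]

theorem PA_one (q : RAAG ad × J) : (PA hs hi v0 γ 1).unop q = q := by
  rw [map_one]; rfl

theorem PA_fst (u : FreeGroup V) (q : RAAG ad × J) :
    ((PA hs hi v0 γ u).unop q).1 = q.1 * pr ad u := by
  induction u using FreeGroup.induction_on generalizing q with
  | C1 => rw [PA_one, map_one, mul_one]
  | of v =>
    obtain ⟨h, x⟩ := q
    rw [PA_of]; rfl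
  | inv_of v _ =>
    obtain ⟨h, x⟩ := q
    rw [PA_of_inv, map_inv]; rfl
  | mul u w hu hw => rw [PA_mul, hw, hu, map_mul, mul_assoc]

/-- words acting trivially far away from height zero -/
def KK : Subgroup (FreeGroup V) where
  carrier := {w | ∃ M : ℤ, ∀ q : RAAG ad × J, M < |hz q.1| → (PA hs hi v0 γ w).unop q = q}
  one_mem' := ⟨0, fun q _ => PA_one hs hi v0 γ q⟩
  mul_mem' := by
    rintro a b ⟨M, hM⟩ ⟨M', hM'⟩
    refine ⟨max M M', fun q hq => ?_⟩
    rw [PA_mul, hM q (lt_of_le_of_lt (le_max_left _ _) hq),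
      hM' q (lt_of_le_of_lt (le_max_right _ _) hq)]
  inv_mem' := by
    rintro a ⟨M, hM⟩
    refine ⟨M, fun q hq => ?_⟩
    have h1 := PA_mul hs hi v0 γ a a⁻¹ q
    rw [mul_inv_cancel, PA_one, hM q hq] at h1
    exact h1.symm

theorem KK_normal : (KK hs hi v0 γ).Normal := by
  refine ⟨?_⟩
  rintro w ⟨M, hM⟩ g
  refine ⟨M + |hz (pr ad g)|, fun q hq => ?_⟩
  rw [PA_mul, PA_mul, hM]
  · rw [← PA_mul, mul_inv_cancel, PA_one]
  · rw [PA_fst, hz_mul]
    have h1 : |hz q.1| ≤ |hz q.1 + hz (pr ad g)| + |hz (pr ad g)| := by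
      have := abs_sub_abs_le_abs_sub (hz q.1) (-hz (pr ad g))
      rw [sub_neg_eq_add, abs_neg] at this
      linarith
    linarith

variable {γ}

/-- commutation away from height zero -/
theorem PA_comm (hγ : ∀ u v w, (u = v ∨ ad u v) → (v = w ∨ ad v w) → (u = w ∨ ad u w) →
    γ u v * γ v w = γ u w) {a b : V} (hab : ad a b) (q : RAAG ad × J) (hq : 2 < |hz q.1|) :
    (PA hs hi v0 γ (FreeGroup.of a * FreeGroup.of b)).unop q =
      (PA hs hi v0 γ (FreeGroup.of b * FreeGroup.of a)).unop q := by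
  obtain ⟨h, x⟩ := q
  dsimp only at hq
  rw [PA_mul, PA_mul, PA_of, PA_of, PA_of, PA_of]
  have e1 : h * gen ad b * gen ad a = h * gen ad a * gen ad b := by
    rw [mul_assoc, ← gcomm hab, ← mul_assoc]
  have n0 : hz h ≠ 0 := by
    intro h0; rw [h0] at hq; norm_num at hq
  have n1 : hz h + 1 ≠ 0 := by
    intro h0
    have : hz h = -1 := by linarith
    rw [this] at hq; norm_num at hq
  have n2 : hz h + 1 + 1 ≠ 0 := by
    intro h0
    have : hz h = -2 := by linarith
    rw [this] at hq; norm_num at hq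
  have s0 := mf_spec hs hi v0 (ne_one_of_hz n0)
  have sa := mf_spec hs hi v0 (h := h * gen ad a) (ne_one_of_hz (by rwa [hz_mul, hz_gen]))
  have sb := mf_spec hs hi v0 (h := h * gen ad b) (ne_one_of_hz (by rwa [hz_mul, hz_gen]))
  have sab := mf_spec hs hi v0 (h := h * gen ad a * gen ad b)
    (ne_one_of_hz (by rwa [hz_mul, hz_mul, hz_gen, hz_gen]))
  have t1 := square_adj hs hi hab h (Or.inl rfl) (Or.inr (Or.inl rfl)) s0 sa
  have t2 := square_adj hs hi hab h (Or.inr (Or.inl rfl)) (Or.inr (Or.inr (Or.inr rfl))) sa sab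
  have t3 := square_adj hs hi hab h (Or.inl rfl) (Or.inr (Or.inr (Or.inr rfl))) s0 sab
  have t4 := square_adj hs hi hab h (Or.inl rfl) (Or.inr (Or.inr (Or.inl rfl))) s0 sb
  have t5 := square_adj hs hi hab h (Or.inr (Or.inr (Or.inl rfl))) (Or.inr (Or.inr (Or.inr rfl)))
    sb sab
  refine Prod.ext e1.symm ?_
  show x * γ (mf hs hi v0 h) (mf hs hi v0 (h * gen ad a)) *
      γ (mf hs hi v0 (h * gen ad a)) (mf hs hi v0 (h * gen ad a * gen ad b)) =
    x * γ (mf hs hi v0 h) (mf hs hi v0 (h * gen ad b)) *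
      γ (mf hs hi v0 (h * gen ad b)) (mf hs hi v0 (h * gen ad b * gen ad a))
  rw [e1, mul_assoc x, mul_assoc x, hγ _ _ _ t1 t2 t3, hγ _ _ _ t4 t5 t3]

theorem ker_le_KK (hγ : ∀ u v w, (u = v ∨ ad u v) → (v = w ∨ ad v w) → (u = w ∨ ad u w) →
    γ u v * γ v w = γ u w) : (pr ad).ker ≤ KK hs hi v0 γ := by
  have h1 : (pr ad).ker = Subgroup.normalClosure (rels ad) := QuotientGroup.ker_mk' _
  rw [h1]
  have := KK_normal hs hi v0 γ
  refine Subgroup.normalClosure_le_normal ?_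
  rintro _ ⟨a, b, hab, rfl⟩
  refine ⟨2, fun q hq => ?_⟩
  have e1 : FreeGroup.of a * FreeGroup.of b * (FreeGroup.of a)⁻¹ * (FreeGroup.of b)⁻¹ =
      (FreeGroup.of a * FreeGroup.of b) * (FreeGroup.of b * FreeGroup.of a)⁻¹ := by group
  rw [e1, PA_mul, PA_comm hs hi v0 hγ hab q hq, ← PA_mul, mul_inv_cancel, PA_one]

end

section main

variable {V J : Type} [Group J] {ad : V → V → Prop} {γ : V → V → J}

/-- the generators of the Bestvina-Brady group in the free group -/
def jf (V : Type) : FreeGroup (V × V) →* FreeGroup V :=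
  FreeGroup.lift (fun e => FreeGroup.of e.1 * (FreeGroup.of e.2)⁻¹)

theorem jf_of (a b : V) : jf V (FreeGroup.of (a, b)) = FreeGroup.of a * (FreeGroup.of b)⁻¹ :=
  FreeGroup.lift_apply_of

theorem hz_jf (u : FreeGroup (V × V)) : hz (pr ad (jf V u)) = 0 := by
  have : (ht ad).comp ((pr ad).comp (jf V)) = 1 := by
    ext e
    simp only [MonoidHom.comp_apply]
    rw [show FreeGroup.of e = FreeGroup.of (e.1, e.2) from rfl, jf_of, map_mul, map_inv, pr_of,
      pr_of, map_mul, map_inv, ht_gen, ht_gen, mul_inv_cancel]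
    rfl
  have h1 := DFunLike.congr_fun this u
  unfold hz
  change ht ad (pr ad (jf V u)) = 1 at h1
  rw [h1]; rfl

variable (hs : ∀ a b, ad a b → ad b a) (hi : ∀ a, ¬ ad a a) (v0 : V)

theorem two_letter (hγ : ∀ u v w, (u = v ∨ ad u v) → (v = w ∨ ad v w) → (u = w ∨ ad u w) →
    γ u v * γ v w = γ u w) {a b : V} (hab : ad a b) {h : RAAG ad} (h1 : h ∈ sp ad {a, b})
    (h2 : 1 < |hz h|) (x : J) :
    (PA hs hi v0 γ (jf V (FreeGroup.of (a, b)))).unop (h, x) =
      (h * (gen ad a * (gen ad b)⁻¹), x * γ (mf hs hi v0 h)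
        (mf hs hi v0 (h * (gen ad a * (gen ad b)⁻¹)))) := by
  have hS : ∀ u ∈ ({a, b} : Set V), ∀ w ∈ ({a, b} : Set V), u = w ∨ ad u w := by
    rintro u (rfl | rfl) w (rfl | rfl)
    · exact Or.inl rfl
    · exact Or.inr hab
    · exact Or.inr (hs _ _ hab)
    · exact Or.inl rfl
  have ga : gen ad a ∈ sp ad {a, b} := gen_sp (Or.inl rfl)
  have gb : gen ad b ∈ sp ad {a, b} := gen_sp (Or.inr rfl)
  have n0 : hz h ≠ 0 := by
    intro h0; rw [h0] at h2; norm_num at h2
  have n1 : hz h + 1 ≠ 0 := by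
    intro h0
    have : hz h = -1 := by linarith
    rw [this] at h2; norm_num at h2
  have m0 := mf_mem hs hi v0 (ne_one_of_hz n0) h1
  have ma := mf_mem hs hi v0 (h := h * gen ad a) (ne_one_of_hz (by rwa [hz_mul, hz_gen]))
    (mul_mem h1 ga)
  have mb := mf_mem hs hi v0 (h := h * gen ad a * (gen ad b)⁻¹)
    (ne_one_of_hz (by rw [hz_mul, hz_mul, hz_inv, hz_gen, hz_gen]; simpa using n0))
    (mul_mem (mul_mem h1 ga) (inv_mem gb))
  rw [jf_of, PA_mul, PA_of, PA_of_inv, ← mul_assoc]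
  congr 1
  rw [mul_assoc]
  congr 1
  rw [mul_inv_eq_iff_eq_mul]
  exact (hγ _ _ _ (hS _ m0 _ mb) (hS _ mb _ ma) (hS _ m0 _ ma)).symm

theorem two_letter_pow (hγ : ∀ u v w, (u = v ∨ ad u v) → (v = w ∨ ad v w) → (u = w ∨ ad u w) →
    γ u v * γ v w = γ u w) {a b : V} (hab : ad a b) {h : RAAG ad} (h1 : h ∈ sp ad {a, b})
    (h2 : 1 < |hz h|) (x : J) (k : ℕ) :
    (PA hs hi v0 γ (jf V (FreeGroup.of (a, b) ^ k))).unop (h, x) =
      (h * (gen ad a * (gen ad b)⁻¹) ^ k, x * γ (mf hs hi v0 h)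
        (mf hs hi v0 (h * (gen ad a * (gen ad b)⁻¹) ^ k))) := by
  have hS : ∀ u ∈ ({a, b} : Set V), ∀ w ∈ ({a, b} : Set V), u = w ∨ ad u w := by
    rintro u (rfl | rfl) w (rfl | rfl)
    · exact Or.inl rfl
    · exact Or.inr hab
    · exact Or.inr (hs _ _ hab)
    · exact Or.inl rfl
  have ga : gen ad a ∈ sp ad {a, b} := gen_sp (Or.inl rfl)
  have gb : gen ad b ∈ sp ad {a, b} := gen_sp (Or.inr rfl)
  have gab : gen ad a * (gen ad b)⁻¹ ∈ sp ad {a, b} := mul_mem ga (inv_mem gb)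
  have hz0 : ∀ k : ℕ, hz (h * (gen ad a * (gen ad b)⁻¹) ^ k) = hz h := by
    intro k
    rw [hz_mul, hz_pow, hz_mul, hz_inv, hz_gen, hz_gen]; simp
  have n0 : hz h ≠ 0 := by
    intro h0; rw [h0] at h2; norm_num at h2
  have mk : ∀ k : ℕ, mf hs hi v0 (h * (gen ad a * (gen ad b)⁻¹) ^ k) ∈ ({a, b} : Set V) :=
    fun k => mf_mem hs hi v0 (ne_one_of_hz (by rw [hz0]; exact n0)) (mul_mem h1 (pow_mem gab k))
  have m0 := mf_mem hs hi v0 (ne_one_of_hz n0) h1
  induction k with
  | zero =>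
    rw [pow_zero, map_one, PA_one, pow_zero, mul_one]
    have e1 : γ (mf hs hi v0 h) (mf hs hi v0 h) = 1 := by
      have := hγ (mf hs hi v0 h) (mf hs hi v0 h) (mf hs hi v0 h) (Or.inl rfl) (Or.inl rfl)
        (Or.inl rfl)
      exact mul_eq_left.1 this
    rw [e1, mul_one]
  | succ k ih =>
    rw [pow_succ, map_mul, PA_mul, ih, two_letter hs hi v0 hγ hab (mul_mem h1 (pow_mem gab k))
      (by rw [hz0]; exact h2), pow_succ, ← mul_assoc h, mul_assoc x]
    rw [hγ _ _ _ (hS _ m0 _ (mk k)) (hS _ (mk k) _ _) (hS _ m0 _ _)]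
    · have := mk (k + 1)
      rwa [pow_succ, ← mul_assoc] at this
    · have := mk (k + 1)
      rwa [pow_succ, ← mul_assoc] at this

/-- **M7** -/
theorem not_fp [Fintype V] {l : ℕ} {p : ℕ → V} (D : GrData ad γ l p) :
    ¬ ∃ S : Finset (FreeGroup (V × V)), Subgroup.normalClosure (S : Set (FreeGroup (V × V))) =
      ((pr ad).comp (jf V)).ker := by
  rintro ⟨S, hS⟩
  have hs := D.symm
  have hi := D.irr
  set v0 := p 0 with hv0
  -- a common bound
  have hb : ∀ s ∈ S, ∃ M : ℤ, ∀ q : RAAG ad × J, M < |hz q.1| →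
      (PA hs hi v0 γ (jf V s)).unop q = q := by
    intro s hs'
    have h1 : s ∈ ((pr ad).comp (jf V)).ker := by
      rw [← hS]; exact Subgroup.subset_normalClosure hs'
    have h2 : jf V s ∈ (pr ad).ker := h1
    exact ker_le_KK hs hi v0 D.coc h2
  have hb2 : ∃ M : ℤ, ∀ s ∈ S, ∀ q : RAAG ad × J, M < |hz q.1| →
      (PA hs hi v0 γ (jf V s)).unop q = q := by
    clear hS
    classical
    induction S using Finset.induction_on with
    | empty => exact ⟨0, fun s h => absurd h (Finset.notMem_empty s)⟩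
    | insert a S _ ih =>
      obtain ⟨M, hM⟩ := ih (fun s hs' => hb s (Finset.mem_insert_of_mem hs'))
      obtain ⟨M', hM'⟩ := hb a (Finset.mem_insert_self a S)
      refine ⟨max M M', fun s hs' q hq => ?_⟩
      rcases Finset.mem_insert.1 hs' with rfl | h
      · exact hM' q (lt_of_le_of_lt (le_max_right _ _) hq)
      · exact hM s h q (lt_of_le_of_lt (le_max_left _ _) hq)
  obtain ⟨M, hM⟩ := hb2
  obtain ⟨N, hN1, hN2⟩ : ∃ N : ℕ, M < (N : ℤ) ∧ 1 < (N : ℤ) :=
    ⟨M.toNat + 2, by push_cast; have := Int.self_le_toNat M; linarith, by push_cast; omega⟩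
  let NN : Subgroup (FreeGroup (V × V)) :=
    { carrier := {f | ∀ q : RAAG ad × J, hz q.1 = -(N : ℤ) → (PA hs hi v0 γ (jf V f)).unop q = q}
      one_mem' := fun q _ => by rw [map_one, PA_one]
      mul_mem' := fun {a b} ha hb q hq => by rw [map_mul, PA_mul, ha q hq, hb q hq]
      inv_mem' := fun {a} ha q hq => by
        have h1 := PA_mul hs hi v0 γ (jf V a) (jf V a)⁻¹ q
        rw [mul_inv_cancel, PA_one, ha q hq] at h1
        rw [map_inv]; exact h1.symm }
  have hNN : NN.Normal := by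
    refine ⟨fun w hw g q hq => ?_⟩
    rw [map_mul (jf V), map_mul (jf V), map_inv (jf V), PA_mul, PA_mul, hw, ← PA_mul,
      mul_inv_cancel, PA_one]
    rw [PA_fst, hz_mul, hz_jf, add_zero, hq]
  have hker : ((pr ad).comp (jf V)).ker ≤ NN := by
    rw [← hS]
    refine Subgroup.normalClosure_le_normal ?_
    intro s hs' q hq
    refine hM s hs' q ?_
    rw [hq, abs_neg, Nat.abs_cast]; exact hN1
  -- the element
  let f : ℕ → FreeGroup (V × V) := fun i =>
    ((List.range i).map (fun i => FreeGroup.of (p i, p (i + 1)) ^ N)).prod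
  have hf0 : f 0 = 1 := rfl
  have hfs : ∀ i, f (i + 1) = f i * FreeGroup.of (p i, p (i + 1)) ^ N := by
    intro i
    simp [f, List.range_succ]
  let c : ℕ → J := fun i => ((List.range i).map (fun i => γ (p i) (p (i + 1)))).prod
  have hc0 : c 0 = 1 := rfl
  have hcs : ∀ i, c (i + 1) = c i * γ (p i) (p (i + 1)) := by
    intro i
    simp [c, List.range_succ]
  have hab : ∀ i < l, gen ad (p i) ^ N * (gen ad (p (i + 1)) ^ N)⁻¹ =
      (gen ad (p i) * (gen ad (p (i + 1)))⁻¹) ^ N := by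
    intro i hi'
    have hc : Commute (gen ad (p i)) (gen ad (p (i + 1)))⁻¹ :=
      (show Commute _ _ from gcomm (D.path i hi')).inv_right
    rw [hc.mul_pow, inv_pow]
  have hfk : ∀ i ≤ l, pr ad (jf V (f i)) = gen ad (p 0) ^ N * (gen ad (p i) ^ N)⁻¹ := by
    intro i
    induction i with
    | zero => intro _; rw [hf0, map_one, map_one, mul_inv_cancel]
    | succ i ih =>
      intro hi'
      rw [hfs, map_mul, map_mul, ih (by omega), map_pow, jf_of, map_pow, map_mul, map_inv, pr_of,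
        pr_of, ← hab i (by omega)]
      group
  have hact : ∀ i ≤ l, (PA hs hi v0 γ (jf V (f i))).unop ((gen ad (p 0) ^ N)⁻¹, 1) =
      ((gen ad (p i) ^ N)⁻¹, c i) := by
    intro i
    induction i with
    | zero => intro _; rw [hf0, map_one, PA_one, hc0]
    | succ i ih =>
      intro hi'
      have hadj := D.path i (by omega)
      have hin : (gen ad (p i) ^ N)⁻¹ ∈ sp ad {p i, p (i + 1)} :=
        inv_mem (pow_mem (gen_sp (S := {p i, p (i + 1)}) (Or.inl rfl)) N)
      have hzi : ∀ j, hz (gen ad (p j) ^ N)⁻¹ = -(N : ℤ) := by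
        intro j; rw [hz_inv, hz_pow, hz_gen, mul_one]
      have hne : ∀ j, (gen ad (p j) ^ N)⁻¹ ≠ 1 := fun j => ne_one_of_hz (by
        rw [hzi]; intro h; linarith)
      have hm : ∀ j, mf hs hi v0 (gen ad (p j) ^ N)⁻¹ = p j := by
        intro j
        have h3 : gen ad (p j) ∈ sp ad ({p j} : Set V) := gen_sp (Set.mem_singleton (p j))
        have h4 : (gen ad (p j) ^ N)⁻¹ ∈ sp ad ({p j} : Set V) := inv_mem (pow_mem h3 N)
        exact Set.mem_singleton_iff.1 (mf_mem hs hi v0 (hne j) h4)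
      rw [hfs, map_mul, PA_mul, ih (by omega), two_letter_pow hs hi v0 D.coc hadj hin
        (by rw [hzi, abs_neg, Nat.abs_cast]; exact hN2), ← hab i (by omega), hcs]
      have e1 : (gen ad (p i) ^ N)⁻¹ * (gen ad (p i) ^ N * (gen ad (p (i + 1)) ^ N)⁻¹) =
          (gen ad (p (i + 1)) ^ N)⁻¹ := by group
      rw [e1, hm, hm]
  have hfl : f l ∈ ((pr ad).comp (jf V)).ker := by
    rw [MonoidHom.mem_ker, MonoidHom.comp_apply, hfk l le_rfl, D.closed, mul_inv_cancel]
  have h1 := hker hfl ((gen ad (p 0) ^ N)⁻¹, 1) (by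
    show hz (gen ad (p 0) ^ N)⁻¹ = _
    rw [hz_inv, hz_pow, hz_gen, mul_one])
  rw [hact l le_rfl, D.closed] at h1
  have h2 : c l = 1 := (Prod.mk.inj h1).2
  exact D.hol h2

end main

end Pool.Agent.Y66.HC
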