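import Pool.Agent.Y66.HC.Defs

/-!
# Right-angled Artin groups: the half spaces `Dv v` (first letters)
-/

set_option autoImplicit false

namespace Pool.Agent.Y66.HC

open Pool.Agent.W326.DU

/-! ### Skew translations -/

section shp

variable {A X : Type} [Group A] [Group X]

/-- the permutation `(h, x) ↦ (h g, x φ(h))` -/
def shp (g : A) (φ : A → X) : Equiv.Perm (A × X) where
  toFun p := (p.1 * g, p.2 * φ p.1)
  invFun p := (p.1 * g⁻¹, p.2 * (φ (p.1 * g⁻¹))⁻¹)
  left_inv p := by
    ext <;> simp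
  right_inv p := by
    ext <;> simp

theorem shp_apply (g : A) (φ : A → X) (h : A) (x : X) : shp g φ (h, x) = (h * g, x * φ h) := rfl

theorem shp_inv_apply (g : A) (φ : A → X) (h : A) (x : X) :
    (shp g φ)⁻¹ (h, x) = (h * g⁻¹, x * (φ (h * g⁻¹))⁻¹) := rfl

end shp

section raag

variable {V : Type} {ad : V → V → Prop}

theorem gcomm {a b : V} (h : ad a b) : gen ad a * gen ad b = gen ad b * gen ad a := by
  have h1 : PresentedGroup.mk (rels ad) (FreeGroup.of a * FreeGroup.of b * (FreeGroup.of a)⁻¹ *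
      (FreeGroup.of b)⁻¹) = 1 :=
    PresentedGroup.one_of_mem ⟨a, b, h, rfl⟩
  rw [map_mul, map_mul, map_mul, map_inv, map_inv] at h1
  change gen ad a * gen ad b * (gen ad a)⁻¹ * (gen ad b)⁻¹ = 1 at h1
  rw [mul_inv_eq_one, mul_inv_eq_iff_eq_mul] at h1
  exact h1

/-- universal property -/
def rlift {K : Type} [Group K] (f : V → K) (hf : ∀ a b, ad a b → f a * f b = f b * f a) :
    RAAG ad →* K :=
  PresentedGroup.toGroup (f := f) (by
    rintro _ ⟨a, b, hab, rfl⟩
    rw [map_mul, map_mul, map_mul, map_inv, map_inv, FreeGroup.lift_apply_of,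
      FreeGroup.lift_apply_of, mul_inv_eq_one, mul_inv_eq_iff_eq_mul]
    exact hf a b hab)

@[simp] theorem rlift_gen {K : Type} [Group K] (f : V → K)
    (hf : ∀ a b, ad a b → f a * f b = f b * f a) (v : V) : rlift f hf (gen ad v) = f v :=
  PresentedGroup.toGroup.of _

theorem closure_gen' : Subgroup.closure (Set.range (gen ad)) = ⊤ :=
  PresentedGroup.closure_range_of (rels ad)

/-- the height -/
def ht (ad : V → V → Prop) : RAAG ad →* Multiplicative ℤ :=
  rlift (fun _ => Multiplicative.ofAdd 1) (fun _ _ _ => rfl)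

@[simp] theorem ht_gen (v : V) : ht ad (gen ad v) = Multiplicative.ofAdd 1 := rlift_gen _ _ _

open Classical in
/-- the retraction onto the special subgroup of `S` -/
noncomputable def rho (ad : V → V → Prop) (S : Set V) : RAAG ad →* RAAG ad :=
  rlift (fun w => if w ∈ S then gen ad w else 1) (by
    intro a b hab
    by_cases ha : a ∈ S
    · by_cases hb : b ∈ S
      · rw [if_pos ha, if_pos hb, gcomm hab]
      · rw [if_neg hb, mul_one, one_mul]
    · rw [if_neg ha, mul_one, one_mul])

theorem rho_mem {S : Set V} {v : V} (h : v ∈ S) : rho ad S (gen ad v) = gen ad v := by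
  unfold rho; rw [rlift_gen, if_pos h]

theorem rho_not {S : Set V} {v : V} (h : v ∉ S) : rho ad S (gen ad v) = 1 := by
  unfold rho; rw [rlift_gen, if_neg h]

/-- the special subgroup -/
def sp (ad : V → V → Prop) (S : Set V) : Subgroup (RAAG ad) := Subgroup.closure (gen ad '' S)

theorem gen_sp {S : Set V} {v : V} (h : v ∈ S) : gen ad v ∈ sp ad S :=
  Subgroup.subset_closure ⟨v, h, rfl⟩

theorem rho_sp {S : Set V} {g : RAAG ad} (h : g ∈ sp ad S) : rho ad S g = g := by
  induction h using Subgroup.closure_induction with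
  | mem x hx =>
    obtain ⟨v, hv, rfl⟩ := hx
    exact rho_mem hv
  | one => exact map_one _
  | mul x y _ _ hx hy => rw [map_mul, hx, hy]
  | inv x _ hx => rw [map_inv, hx]

/-! ### Words -/

/-- evaluation of a letter -/
def lev (ad : V → V → Prop) (t : V × Bool) : RAAG ad := cond t.2 (gen ad t.1) (gen ad t.1)⁻¹

/-- evaluation of a word -/
def ev (ad : V → V → Prop) (l : List (V × Bool)) : RAAG ad := (l.map (lev ad)).prod

theorem ev_append (l l' : List (V × Bool)) : ev ad (l ++ l') = ev ad l * ev ad l' := by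
  simp [ev]

theorem ev_snoc (l : List (V × Bool)) (t : V × Bool) : ev ad (l ++ [t]) = ev ad l * lev ad t := by
  simp [ev]

theorem ev_surj (g : RAAG ad) : ∃ l, ev ad l = g := by
  have hg : g ∈ Subgroup.closure (Set.range (gen ad)) := by rw [closure_gen']; trivial
  induction hg using Subgroup.closure_induction with
  | mem x hx =>
    obtain ⟨v, rfl⟩ := hx
    exact ⟨[(v, true)], by simp [ev, lev]⟩
  | one => exact ⟨[], rfl⟩
  | mul x y _ _ hx hy =>
    obtain ⟨l, rfl⟩ := hx
    obtain ⟨l', rfl⟩ := hy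
    exact ⟨l ++ l', ev_append _ _⟩
  | inv x _ hx =>
    obtain ⟨l, rfl⟩ := hx
    clear * -
    induction l with
    | nil => exact ⟨[], by simp [ev]⟩
    | cons t l ih =>
      obtain ⟨m, hm⟩ := ih
      refine ⟨m ++ [(t.1, !t.2)], ?_⟩
      rw [ev_snoc, hm]
      have : lev ad (t.1, !t.2) = (lev ad t)⁻¹ := by
        obtain ⟨v, b⟩ := t
        cases b <;> simp [lev]
      rw [this]
      simp [ev]

open Classical in
theorem rho_ev (S : Set V) (l : List (V × Bool)) :
    rho ad S (ev ad l) = ev ad (l.filter (fun t => decide (t.1 ∈ S))) := by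
  induction l with
  | nil => exact map_one _
  | cons t l ih =>
    have h1 : ev ad (t :: l) = lev ad t * ev ad l := by simp [ev]
    rw [h1, map_mul, ih]
    have h2 : rho ad S (lev ad t) = if t.1 ∈ S then lev ad t else 1 := by
      obtain ⟨v, b⟩ := t
      by_cases hv : v ∈ S
      · cases b <;> simp [lev, hv, rho_mem]
      · cases b <;> simp [lev, hv, rho_not]
    rw [h2]
    by_cases ht : t.1 ∈ S
    · rw [if_pos ht, List.filter_cons_of_pos (by simpa using ht)]
      simp [ev]
    · rw [if_neg ht, List.filter_cons_of_neg (by simpa using ht), one_mul]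

/-! ### The functions `dv` -/

/-- the subgroup generated by the link -/
def Ck (ad : V → V → Prop) (v : V) : Subgroup (RAAG ad) := sp ad {w | ad w v}

open Classical in
/-- indicator function of a subgroup -/
noncomputable def indS {A : Type} [Group A] (S : Subgroup A) (h : A) : ℤ := if h ∈ S then 1 else 0

theorem indS_congr {A : Type} [Group A] {S : Subgroup A} {g h : A} (e : g ∈ S ↔ h ∈ S) :
    indS S g = indS S h := by
  unfold indS
  by_cases hg : g ∈ S
  · rw [if_pos hg, if_pos (e.1 hg)]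
  · rw [if_neg hg, if_neg (fun h => hg (e.2 h))]

theorem indS_pos {A : Type} [Group A] {S : Subgroup A} {g : A} (e : g ∈ S) : indS S g = 1 := if_pos e

theorem indS_neg {A : Type} [Group A] {S : Subgroup A} {g : A} (e : g ∉ S) : indS S g = 0 := if_neg e

/-- the jump function -/
noncomputable def jmp (ad : V → V → Prop) (v : V) (h : RAAG ad) : Multiplicative ℤ :=
  Multiplicative.ofAdd (indS (Ck ad v) h - indS (Ck ad v) (h * gen ad v))

theorem jmp_mul (hs : ∀ a b, ad a b → ad b a) {v w : V} (hw : ad w v) (h : RAAG ad) :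
    jmp ad v (h * gen ad w) = jmp ad v h := by
  have h1 : gen ad w ∈ Ck ad v := gen_sp hw
  have h2 : h * gen ad w ∈ Ck ad v ↔ h ∈ Ck ad v := Subgroup.mul_mem_cancel_right _ h1
  have h3 : h * gen ad w * gen ad v ∈ Ck ad v ↔ h * gen ad v ∈ Ck ad v := by
    rw [mul_assoc, gcomm hw, ← mul_assoc]
    exact Subgroup.mul_mem_cancel_right _ h1
  unfold jmp
  rw [indS_congr h2, indS_congr h3]

open Classical in
/-- the right action used to define `dv` -/
noncomputable def actD (hs : ∀ a b, ad a b → ad b a) (hi : ∀ a, ¬ ad a a) (v : V) :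
    RAAG ad →* (Equiv.Perm (RAAG ad × Multiplicative ℤ))ᵐᵒᵖ :=
  rlift (fun w => MulOpposite.op (shp (gen ad w) (if w = v then jmp ad v else fun _ => 1))) (by
    intro a b hab
    rw [← MulOpposite.op_mul, ← MulOpposite.op_mul]
    congr 1
    ext1 ⟨h, x⟩
    show shp _ _ (shp _ _ (h, x)) = shp _ _ (shp _ _ (h, x))
    rw [shp_apply, shp_apply, shp_apply, shp_apply]
    have e1 : h * gen ad a * gen ad b = h * gen ad b * gen ad a := by
      rw [mul_assoc, gcomm hab, ← mul_assoc]
    by_cases ha : a = v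
    · subst ha
      have hb : b ≠ a := fun h => hi a (by rw [h] at hab; exact hab)
      rw [if_pos rfl, if_neg hb, jmp_mul hs (hs _ _ hab), e1, mul_one, mul_one]
    · by_cases hb : b = v
      · subst hb
        rw [if_pos rfl, if_neg ha, jmp_mul hs hab, e1, mul_one, mul_one]
      · rw [if_neg ha, if_neg hb, e1])

section dv

variable (hs : ∀ a b, ad a b → ad b a) (hi : ∀ a, ¬ ad a a)

theorem actD_fst (v : V) (g h : RAAG ad) (x : Multiplicative ℤ) :
    ((actD hs hi v g).unop (h, x)).1 = h * g := by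
  have hg : g ∈ Subgroup.closure (Set.range (gen ad)) := by rw [closure_gen']; trivial
  induction hg using Subgroup.closure_induction generalizing h x with
  | mem g hg =>
    obtain ⟨w, rfl⟩ := hg
    unfold actD
    rw [rlift_gen]
    rfl
  | one => rw [map_one]; simp
  | mul a b _ _ ha hb =>
    rw [map_mul, MulOpposite.unop_mul, Equiv.Perm.mul_apply, ← Prod.mk.eta
      (p := (actD hs hi v a).unop (h, x)), hb, ha, mul_assoc]
  | inv a _ ha =>
    have h1 := ha ((actD hs hi v a⁻¹).unop (h, x)).1 ((actD hs hi v a⁻¹).unop (h, x)).2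
    rw [Prod.mk.eta, ← Equiv.Perm.mul_apply, ← MulOpposite.unop_mul, ← map_mul, inv_mul_cancel,
      map_one, MulOpposite.unop_one, Equiv.Perm.one_apply] at h1
    rw [eq_mul_inv_iff_mul_eq]
    exact h1.symm

/-- the function counting the crossings of the hyperplanes at `1` dual to `v` -/
noncomputable def dv (v : V) (h : RAAG ad) : Multiplicative ℤ :=
  ((actD hs hi v h).unop (1, 1)).2

theorem dv_one (v : V) : dv hs hi v 1 = 1 := by
  unfold dv; rw [map_one]; rfl

theorem actD_one (v : V) (h : RAAG ad) : (actD hs hi v h).unop (1, 1) = (h, dv hs hi v h) := by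
  ext
  · rw [actD_fst, one_mul]
  · rfl

theorem dv_gen (v w : V) (h : RAAG ad) (hw : w ≠ v) :
    dv hs hi v (h * gen ad w) = dv hs hi v h := by
  have h1 : (actD hs hi v (h * gen ad w)).unop (1, 1) = (h * gen ad w, dv hs hi v h) := by
    rw [map_mul, MulOpposite.unop_mul, Equiv.Perm.mul_apply, actD_one]
    unfold actD
    rw [rlift_gen, if_neg hw]
    show shp (gen ad w) (fun _ => (1 : Multiplicative ℤ)) (h, dv hs hi v h) = _
    rw [shp_apply, mul_one]
  unfold dv
  rw [h1]
  rfl

theorem dv_gen_self (v : V) (h : RAAG ad) :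
    dv hs hi v (h * gen ad v) = dv hs hi v h * jmp ad v h := by
  have h1 : (actD hs hi v (h * gen ad v)).unop (1, 1) =
      (h * gen ad v, dv hs hi v h * jmp ad v h) := by
    rw [map_mul, MulOpposite.unop_mul, Equiv.Perm.mul_apply, actD_one]
    unfold actD
    rw [rlift_gen, if_pos rfl]
    rfl
  conv_lhs => unfold dv
  rw [h1]

/-- the half space -/
def Dv (v : V) : Set (RAAG ad) := {h | dv hs hi v h ≠ 1}

theorem one_notMem (v : V) : (1 : RAAG ad) ∉ Dv hs hi v := fun h => h (dv_one hs hi v)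

theorem Dv_gen {v w : V} (h : RAAG ad) (hw : w ≠ v) :
    h * gen ad w ∈ Dv hs hi v ↔ h ∈ Dv hs hi v := by
  unfold Dv
  rw [Set.mem_ofPred_eq, Set.mem_ofPred_eq, dv_gen hs hi v w h hw]

theorem Dv_lev {v : V} (t : V × Bool) (h : RAAG ad) (hw : t.1 ≠ v) :
    h * lev ad t ∈ Dv hs hi v ↔ h ∈ Dv hs hi v := by
  obtain ⟨w, b⟩ := t
  cases b
  · show h * (gen ad w)⁻¹ ∈ Dv hs hi v ↔ h ∈ Dv hs hi v
    rw [← Dv_gen hs hi (h * (gen ad w)⁻¹) hw, inv_mul_cancel_right]
  · exact Dv_gen hs hi h hw

theorem Dv_sp {S : Set V} {v : V} (hv : v ∉ S) {g : RAAG ad} (hg : g ∈ sp ad S) (h : RAAG ad) :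
    h * g ∈ Dv hs hi v ↔ h ∈ Dv hs hi v := by
  induction hg using Subgroup.closure_induction generalizing h with
  | mem g hg =>
    obtain ⟨w, hw, rfl⟩ := hg
    exact Dv_gen hs hi h (fun h => hv (h ▸ hw))
  | one => rw [mul_one]
  | mul a b _ _ ha hb => rw [← mul_assoc, hb, ha]
  | inv a _ ha => rw [← ha (h * a⁻¹), inv_mul_cancel_right]

theorem Dv_sp_one {S : Set V} {v : V} (hv : v ∉ S) {g : RAAG ad} (hg : g ∈ sp ad S) :
    g ∉ Dv hs hi v := by
  have := Dv_sp hs hi hv hg 1
  rw [one_mul] at this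
  rw [this]
  exact one_notMem hs hi v

theorem Ck_notMem {v : V} {g : RAAG ad} (hg : g ∈ Ck ad v) : g ∉ Dv hs hi v :=
  Dv_sp_one hs hi (S := {w | ad w v}) (fun h : ad v v => hi v h) hg

/-- crossing -/
theorem Dv_cross_gen {v : V} (h : RAAG ad) (h1 : h ∉ Ck ad v) (h2 : h * gen ad v ∉ Ck ad v) :
    h * gen ad v ∈ Dv hs hi v ↔ h ∈ Dv hs hi v := by
  unfold Dv
  rw [Set.mem_ofPred_eq, Set.mem_ofPred_eq, dv_gen_self]
  have : jmp ad v h = 1 := by
    unfold jmp
    rw [indS_neg h1, indS_neg h2]
    rfl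
  rw [this, mul_one]

theorem Dv_cross {v : V} (t : V × Bool) (ht : t.1 = v) (h : RAAG ad) (h1 : h ∉ Ck ad v)
    (h2 : h * lev ad t ∉ Ck ad v) : h * lev ad t ∈ Dv hs hi v ↔ h ∈ Dv hs hi v := by
  obtain ⟨w, b⟩ := t
  dsimp only at ht
  subst ht
  cases b
  · have h3 := Dv_cross_gen hs hi (h * lev ad (w, false)) h2 (by
      show h * (gen ad w)⁻¹ * gen ad w ∉ _
      rw [inv_mul_cancel_right]; exact h1)
    rw [← h3]
    show h * (gen ad w)⁻¹ * gen ad w ∈ _ ↔ _
    rw [inv_mul_cancel_right]
  · exact Dv_cross_gen hs hi h h1 h2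

theorem gen_notMem_Ck (hi : ∀ a, ¬ ad a a) (v : V) : gen ad v ∉ Ck ad v := by
  intro h
  have h1 := rho_sp h
  rw [rho_not (S := {w | ad w v}) (fun h : ad v v => hi v h)] at h1
  have h2 := congrArg (ht ad) h1
  rw [map_one, ht_gen] at h2
  exact absurd h2 (by decide)

theorem lev_mem_Dv (t : V × Bool) : lev ad t ∈ Dv hs hi t.1 := by
  obtain ⟨v, b⟩ := t
  have hg := gen_notMem_Ck (ad := ad) hi v
  cases b
  · show (gen ad v)⁻¹ ∈ Dv hs hi v
    have h1 := dv_gen_self hs hi v (gen ad v)⁻¹
    rw [inv_mul_cancel, dv_one] at h1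
    intro h2
    rw [h2, one_mul] at h1
    unfold jmp at h1
    rw [indS_neg (fun h => hg (by simpa using inv_mem h)), inv_mul_cancel,
      indS_pos (one_mem _)] at h1
    exact absurd h1 (by decide)
  · show gen ad v ∈ Dv hs hi v
    have h1 := dv_gen_self hs hi v (1 : RAAG ad)
    rw [one_mul, dv_one, one_mul] at h1
    show dv hs hi v (gen ad v) ≠ 1
    rw [h1]
    unfold jmp
    rw [one_mul, indS_neg hg, indS_pos (one_mem _)]
    decide

/-- two different vertices in the first letters of `h` are adjacent -/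
theorem Dv_adj {v w : V} (hvw : v ≠ w) {h : RAAG ad} (h1 : h ∈ Dv hs hi v)
    (h2 : h ∈ Dv hs hi w) : ad v w := by
  obtain ⟨l, rfl⟩ := ev_surj h
  induction l using List.reverseRecOn with
  | nil => exact absurd h1 (one_notMem hs hi v)
  | append_singleton l t ih =>
    rw [ev_snoc] at h1 h2
    by_cases hv : t.1 = v
    · have hw : t.1 ≠ w := fun h => hvw (hv.symm.trans h)
      rw [Dv_lev hs hi t _ hw] at h2
      by_cases h3 : ev ad l ∈ Dv hs hi v
      · exact ih h3 h2
      · have h4 : ev ad l ∈ Ck ad v := by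
          by_contra h5
          by_cases h6 : ev ad l * lev ad t ∈ Ck ad v
          · exact Ck_notMem hs hi h6 h1
          · exact h3 ((Dv_cross hs hi t hv _ h5 h6).1 h1)
        by_contra h5
        exact Dv_sp_one hs hi (S := {w | ad w v}) (fun h => h5 (hs _ _ h)) h4 h2
    · rw [Dv_lev hs hi t _ hv] at h1
      by_cases hw : t.1 = w
      · by_cases h3 : ev ad l ∈ Dv hs hi w
        · exact ih h1 h3
        · have h4 : ev ad l ∈ Ck ad w := by
            by_contra h5
            by_cases h6 : ev ad l * lev ad t ∈ Ck ad w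
            · exact Ck_notMem hs hi h6 h2
            · exact h3 ((Dv_cross hs hi t hw _ h5 h6).1 h2)
          by_contra h5
          exact Dv_sp_one hs hi (S := {u | ad u w}) (fun h => h5 h) h4 h1
      · rw [Dv_lev hs hi t _ hw] at h2
        exact ih h1 h2

/-- every nontrivial element has a first letter -/
theorem exists_Dv {h : RAAG ad} (h1 : h ≠ 1) : ∃ v, h ∈ Dv hs hi v := by
  classical
  have key : ∀ n : ℕ, ∀ l : List (V × Bool), l.length = n → ev ad l = 1 ∨
      ∃ v, ev ad l ∈ Dv hs hi v := by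
    intro n
    induction n using Nat.strong_induction_on with
    | _ n ih =>
    intro l hl
    rcases List.eq_nil_or_concat l with rfl | ⟨l', t, rfl⟩
    · exact Or.inl rfl
    rw [List.concat_eq_append] at hl ⊢
    rw [ev_snoc]
    rw [List.length_append, List.length_singleton] at hl
    rcases ih l'.length (by omega) l' rfl with h2 | ⟨v, hv⟩
    · rw [h2, one_mul]
      exact Or.inr ⟨t.1, lev_mem_Dv hs hi t⟩
    · by_cases ht : t.1 = v
      · by_cases h3 : ev ad l' * lev ad t ∈ Dv hs hi v
        · exact Or.inr ⟨v, h3⟩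
        · have h4 : ev ad l' * lev ad t ∈ Ck ad v := by
            by_contra h5
            by_cases h6 : ev ad l' ∈ Ck ad v
            · exact Ck_notMem hs hi h6 hv
            · exact h3 ((Dv_cross hs hi t ht _ h6 h5).2 hv)
          have h5 : rho ad {w | ad w v} (lev ad t) = 1 := by
            obtain ⟨w, b⟩ := t
            dsimp only at ht
            subst ht
            have := rho_not (ad := ad) (S := {u | ad u w}) (v := w) (fun h => hi w h)
            cases b <;> simp [lev, this]
          have h6 : ev ad l' * lev ad t = ev ad (l'.filter (fun t => decide (t.1 ∈ {w | ad w v}))) := by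
            rw [← rho_ev, ← rho_sp h4, map_mul, h5, mul_one]
          rw [h6]
          refine ih _ ?_ _ rfl
          have := List.length_filter_le (fun t : V × Bool => decide (t.1 ∈ {w | ad w v})) l'
          omega
      · exact Or.inr ⟨v, (Dv_lev hs hi t _ ht).2 hv⟩
  obtain ⟨l, rfl⟩ := ev_surj h
  rcases key _ l rfl with h2 | h2
  · exact absurd h2 h1
  · exact h2

/-- the first letters around a square are in a common clique -/
theorem square_adj {a b : V} (hab : ad a b) (h : RAAG ad) {g g' : RAAG ad} {v w : V}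
    (hg : g = h ∨ g = h * gen ad a ∨ g = h * gen ad b ∨ g = h * gen ad a * gen ad b)
    (hg' : g' = h ∨ g' = h * gen ad a ∨ g' = h * gen ad b ∨ g' = h * gen ad a * gen ad b)
    (hv : g ∈ Dv hs hi v) (hw : g' ∈ Dv hs hi w) : v = w ∨ ad v w := by
  have hcomm : h * gen ad a * gen ad b = h * gen ad b * gen ad a := by
    rw [mul_assoc, gcomm hab, ← mul_assoc]
  have key : ∀ u : V, u ≠ a → u ≠ b → ∀ k k' : RAAG ad,
      (k = h ∨ k = h * gen ad a ∨ k = h * gen ad b ∨ k = h * gen ad a * gen ad b) →
      (k' = h ∨ k' = h * gen ad a ∨ k' = h * gen ad b ∨ k' = h * gen ad a * gen ad b) →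
      k ∈ Dv hs hi u → k' ∈ Dv hs hi u := by
    intro u hua hub k k' hk hk' hku
    have h1 : ∀ k : RAAG ad, (k = h ∨ k = h * gen ad a ∨ k = h * gen ad b ∨
        k = h * gen ad a * gen ad b) → (k ∈ Dv hs hi u ↔ h ∈ Dv hs hi u) := by
      rintro k (rfl | rfl | rfl | rfl)
      · exact Iff.rfl
      · exact Dv_gen hs hi h hua.symm
      · exact Dv_gen hs hi h hub.symm
      · rw [Dv_gen hs hi _ hub.symm, Dv_gen hs hi _ hua.symm]
    exact (h1 k' hk').2 ((h1 k hk).1 hku)
  by_cases hvw : v = w
  · exact Or.inl hvw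
  right
  by_cases hv' : v = a ∨ v = b
  · by_cases hw' : w = a ∨ w = b
    · rcases hv' with rfl | rfl
      · rcases hw' with rfl | rfl
        · exact absurd rfl hvw
        · exact hab
      · rcases hw' with rfl | rfl
        · exact hs _ _ hab
        · exact absurd rfl hvw
    · push Not at hw'
      exact Dv_adj hs hi hvw hv (key w hw'.1 hw'.2 g' g hg' hg hw)
  · push Not at hv'
    exact Dv_adj hs hi hvw (key v hv'.1 hv'.2 g g' hg hg' hv) hw

end dv

end raag

end Pool.Agent.Y66.HC
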