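import Pool.Agent.Y66.HC.NFP
import Pool.Agent.Y66.HC.IL
import Pool.Agent.W304.DU.EX
import Pool.Agent.W304.DU.RG
import Pool.Agent.W326.DU.Sub
import Pool.Agent.W326.DU.Aug

/-!
# The slab of heights `0, 1, 2` in the cubical complex of a RAAG
-/

set_option autoImplicit false

namespace Pool.Agent.Y66.HC

open Pool.Agent.W326.DU
open Pool.Agent.W490.DU (of_sub_mem_IL IL_le)

section ac

variable {V : Type} [Fintype V] {ad : V → V → Prop} (D : Acyc ad) {M : Type} [AddCommGroup M]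
  (S : AddSubgroup M)

include D in
theorem ac1' (x : V → M) (hx : ∀ v, x v ∈ S) (h : ∑ v, x v = 0) :
    ∃ y : V → V → M, IsAlt2 ad Set.univ y ∧ (∀ a b, y a b ∈ S) ∧ ∀ b, x b = ∑ a, y a b := by
  obtain ⟨y, hy, hxy⟩ := D.ac1 S (fun v => ⟨x v, hx v⟩) (by
    apply Subtype.ext
    rw [AddSubgroup.val_finsetSum]
    exact h)
  refine ⟨fun a b => y a b, ⟨fun a b => ?_, fun a b hab => ?_⟩, fun a b => (y a b).2, fun b => ?_⟩
  · show ((y a b : S) : M) = -((y b a : S) : M)
    rw [hy.1 a b]; rfl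
  · show ((y a b : S) : M) = 0
    rw [hy.2 a b hab]; rfl
  · have := congrArg Subtype.val (hxy b)
    rw [AddSubgroup.val_finsetSum] at this
    exact this

include D in
theorem ac2' (y : V → V → M) (hy : IsAlt2 ad Set.univ y) (hS : ∀ a b, y a b ∈ S)
    (h : ∀ b, ∑ a, y a b = 0) :
    ∃ z : V → V → V → M, IsAlt3 ad Set.univ z ∧ (∀ a b c, z a b c ∈ S) ∧
      ∀ b c, y b c = ∑ a, z a b c := by
  obtain ⟨z, hz, hyz⟩ := D.ac2 S (fun a b => ⟨y a b, hS a b⟩) ⟨fun a b => by
      apply Subtype.ext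
      exact hy.1 a b, fun a b hab => by
      apply Subtype.ext
      exact hy.2 a b hab⟩ (fun b => by
    apply Subtype.ext
    rw [AddSubgroup.val_finsetSum]
    exact h b)
  refine ⟨fun a b c => z a b c, ⟨fun a b c => ?_, fun a b c => ?_, fun a b c hab => ?_⟩,
    fun a b c => (z a b c).2, fun b c => ?_⟩
  · show ((z a b c : S) : M) = -((z b a c : S) : M)
    rw [hz.1 a b c]; rfl
  · show ((z a b c : S) : M) = -((z a c b : S) : M)
    rw [hz.2.1 a b c]; rfl
  · show ((z a b c : S) : M) = 0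
    rw [hz.2.2 a b c hab]; rfl
  · have := congrArg Subtype.val (hyz b c)
    rw [AddSubgroup.val_finsetSum] at this
    exact this

end ac

section hgt

variable {V : Type} {ad : V → V → Prop}

/-- right multiplication by a generator -/
noncomputable def T (v : V) : ZG (RAAG ad) ≃+ ZG (RAAG ad) where
  toFun x := x * MonoidAlgebra.of ℤ _ (gen ad v)
  invFun x := x * MonoidAlgebra.of ℤ _ (gen ad v)⁻¹
  left_inv x := by
    dsimp only
    rw [mul_assoc, ← map_mul, mul_inv_cancel, map_one, mul_one]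
  right_inv x := by
    dsimp only
    rw [mul_assoc, ← map_mul, inv_mul_cancel, map_one, mul_one]
  map_add' x y := add_mul _ _ _

theorem T_apply (v : V) (x : ZG (RAAG ad)) : T v x = x * MonoidAlgebra.of ℤ _ (gen ad v) := rfl

theorem T_coeff (v : V) (x : ZG (RAAG ad)) (g : RAAG ad) :
    (T v x).coeff g = x.coeff (g * (gen ad v)⁻¹) := by
  rw [T_apply, MonoidAlgebra.of_apply, MonoidAlgebra.coeff_mul_single_apply, mul_one]

theorem Ts_coeff (v : V) (x : ZG (RAAG ad)) (g : RAAG ad) :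
    ((T v).symm x).coeff g = x.coeff (g * gen ad v) := by
  have := T_coeff v ((T v).symm x) (g * gen ad v)
  rw [AddEquiv.apply_symm_apply, mul_inv_cancel_right] at this
  exact this.symm

theorem T_comm {a b : V} (h : ad a b) (x : ZG (RAAG ad)) : T a (T b x) = T b (T a x) := by
  rw [T_apply, T_apply, T_apply, T_apply, mul_assoc, mul_assoc, ← map_mul, ← map_mul, gcomm h]

theorem Ts_comm {u v : V} (h : ad u v) (x : ZG (RAAG ad)) : (T u).symm ((T v).symm x) =
    (T v).symm ((T u).symm x) := by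
  apply (T u).injective
  apply (T v).injective
  rw [AddEquiv.apply_symm_apply, AddEquiv.apply_symm_apply, ← T_comm h, AddEquiv.apply_symm_apply,
    AddEquiv.apply_symm_apply]

/-- elements with heights between `a` and `b` -/
def HB (ad : V → V → Prop) (a b : ℤ) : AddSubgroup (ZG (RAAG ad)) where
  carrier := {x | ∀ g, x.coeff g ≠ 0 → a ≤ hz g ∧ hz g ≤ b}
  zero_mem' := by
    intro g hg
    exact absurd rfl hg
  add_mem' := by
    intro x y hx hy g hg
    by_cases h : x.coeff g = 0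
    · apply hy
      intro h2
      apply hg
      rw [MonoidAlgebra.coeff_add, Finsupp.add_apply, h, h2, add_zero]
    · exact hx g h
  neg_mem' := by
    intro x hx g hg
    apply hx
    intro h
    apply hg
    rw [MonoidAlgebra.coeff_neg, Finsupp.neg_apply, h, neg_zero]

theorem mem_HB {a b : ℤ} {x : ZG (RAAG ad)} :
    x ∈ HB ad a b ↔ ∀ g, x.coeff g ≠ 0 → a ≤ hz g ∧ hz g ≤ b := Iff.rfl

theorem HB_mono {a b c d : ℤ} (h1 : c ≤ a) (h2 : b ≤ d) : HB ad a b ≤ HB ad c d := by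
  intro x hx g hg
  have := hx g hg
  exact ⟨h1.trans this.1, this.2.trans h2⟩

theorem T_HB {a b : ℤ} {x : ZG (RAAG ad)} (hx : x ∈ HB ad a b) (v : V) :
    T v x ∈ HB ad (a + 1) (b + 1) := by
  intro g hg
  rw [T_coeff] at hg
  have := hx _ hg
  rw [hz_mul, hz_inv, hz_gen] at this
  constructor <;> linarith

theorem Ts_HB {a b : ℤ} {x : ZG (RAAG ad)} (hx : x ∈ HB ad a b) (v : V) :
    (T v).symm x ∈ HB ad (a - 1) (b - 1) := by
  intro g hg
  rw [Ts_coeff] at hg
  have := hx _ hg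
  rw [hz_mul, hz_gen] at this
  constructor <;> linarith

/-- the component of height `n` -/
noncomputable def Pn (ad : V → V → Prop) (n : ℤ) : ZG (RAAG ad) →+ ZG (RAAG ad) :=
  (MonoidAlgebra.coeffAddEquiv.symm.toAddMonoidHom.comp
    (Finsupp.filterAddHom (fun g : RAAG ad => hz g = n))).comp
    MonoidAlgebra.coeffAddEquiv.toAddMonoidHom

theorem Pn_coeff (n : ℤ) (x : ZG (RAAG ad)) (g : RAAG ad) :
    (Pn ad n x).coeff g = if hz g = n then x.coeff g else 0 := by
  show (Finsupp.filter (fun g : RAAG ad => hz g = n) x.coeff) g = _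
  rw [Finsupp.filter_apply]

theorem Pn_HB (n : ℤ) (x : ZG (RAAG ad)) : Pn ad n x ∈ HB ad n n := by
  intro g hg
  rw [Pn_coeff] at hg
  by_cases h : hz g = n
  · rw [h]; exact ⟨le_rfl, le_rfl⟩
  · rw [if_neg h] at hg; exact absurd rfl hg

theorem Pn_bot {a b : ℤ} {x : ZG (RAAG ad)} (hx : x ∈ HB ad a b) :
    x - Pn ad a x ∈ HB ad (a + 1) b := by
  intro g hg
  rw [MonoidAlgebra.coeff_sub, Finsupp.sub_apply, Pn_coeff] at hg
  by_cases h : hz g = a
  · rw [if_pos h, sub_self] at hg; exact absurd rfl hg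
  · rw [if_neg h, sub_zero] at hg
    have := hx g hg
    exact ⟨by omega, this.2⟩

theorem Pn_top {a b : ℤ} {x : ZG (RAAG ad)} (hx : x ∈ HB ad a b) :
    x - Pn ad b x ∈ HB ad a (b - 1) := by
  intro g hg
  rw [MonoidAlgebra.coeff_sub, Finsupp.sub_apply, Pn_coeff] at hg
  by_cases h : hz g = b
  · rw [if_pos h, sub_self] at hg; exact absurd rfl hg
  · rw [if_neg h, sub_zero] at hg
    have := hx g hg
    exact ⟨this.1, by omega⟩

theorem Pn_T (n : ℤ) (v : V) (x : ZG (RAAG ad)) : Pn ad (n + 1) (T v x) = T v (Pn ad n x) := by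
  apply MonoidAlgebra.ext
  ext g
  rw [Pn_coeff, T_coeff, T_coeff, Pn_coeff]
  have : hz (g * (gen ad v)⁻¹) = hz g - 1 := by
    rw [hz_mul, hz_inv, hz_gen]; ring
  rw [this]
  by_cases h : hz g = n + 1
  · rw [if_pos h, if_pos (by omega)]
  · rw [if_neg h, if_neg (by omega)]

theorem Pn_zero {a b n : ℤ} {x : ZG (RAAG ad)} (hx : x ∈ HB ad a b) (hn : n < a ∨ b < n) :
    Pn ad n x = 0 := by
  apply MonoidAlgebra.ext
  ext g
  rw [Pn_coeff]
  by_cases h : hz g = n
  · rw [if_pos h]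
    by_contra h2
    have := hx g h2
    rcases hn with hn | hn <;> omega
  · rw [if_neg h]; rfl

theorem HB_empty {a b : ℤ} (hab : b < a) {x : ZG (RAAG ad)} (hx : x ∈ HB ad a b) : x = 0 := by
  apply MonoidAlgebra.ext
  ext g
  by_contra h2
  have := hx g h2
  omega

theorem exists_HB (x : ZG (RAAG ad)) : ∃ n : ℕ, x ∈ HB ad (-(n : ℤ)) n := by
  classical
  have key : ∀ s : Finset (RAAG ad), ∃ n : ℕ, ∀ g ∈ s, -(n : ℤ) ≤ hz g ∧ hz g ≤ n := by
    intro s
    induction s using Finset.induction_on with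
    | empty => exact ⟨0, by simp⟩
    | insert a s _ ih =>
      obtain ⟨n, hn⟩ := ih
      refine ⟨n + (hz a).natAbs, fun g hg => ?_⟩
      rcases Finset.mem_insert.1 hg with rfl | hg
      · omega
      · have := hn g hg
        omega
  obtain ⟨n, hn⟩ := key x.coeff.support
  exact ⟨n, fun g hg => hn g (Finsupp.mem_support_iff.2 hg)⟩

/-- `x ↦ x (s_v - 1)` -/
noncomputable def Rr (ad : V → V → Prop) (v : V) : ZG (RAAG ad) →+ ZG (RAAG ad) :=
  (T v).toAddMonoidHom - AddMonoidHom.id _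

theorem Rr_apply (v : V) (x : ZG (RAAG ad)) : Rr ad v x = T v x - x := rfl

theorem Rr_eq (v : V) (x : ZG (RAAG ad)) :
    Rr ad v x = x * (MonoidAlgebra.of ℤ _ (gen ad v) - 1) := by
  rw [Rr_apply, T_apply, mul_sub, mul_one]

end hgt

section regs

variable {V : Type} {ad : V → V → Prop}

theorem mem_Im_iff' (S : Set V) (x : ZG (RAAG ad)) :
    x ∈ Im (Rr ad) S ↔ x ∈ IL ℤ (gen ad '' S) := by
  constructor
  · intro h
    have hle : Im (Rr ad) S ≤ (IL ℤ (gen ad '' S)).toAddSubgroup := by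
      refine iSup_le fun v => iSup_le fun hv => ?_
      rintro _ ⟨z, rfl⟩
      rw [Rr_eq]
      exact Submodule.smul_mem _ z (Submodule.subset_span ⟨gen ad v, ⟨v, hv, rfl⟩, rfl⟩)
    exact hle h
  · intro h
    refine Submodule.span_induction (p := fun x _ => x ∈ Im (Rr ad) S) ?_ ?_ ?_ ?_ h
    · rintro _ ⟨_, ⟨v, hv, rfl⟩, rfl⟩
      refine (le_iSup_of_le v (le_iSup_of_le hv le_rfl) :
        (Rr ad v).range ≤ Im (Rr ad) S) ⟨1, ?_⟩
      rw [Rr_eq, one_mul]
    · exact zero_mem _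
    · intro x y _ _ hx hy
      exact add_mem hx hy
    · intro a x _ hx
      have hle : (Im (Rr ad) S).map (AddMonoidHom.mulLeft a) ≤ Im (Rr ad) S := by
        unfold Im
        rw [AddSubgroup.map_iSup]
        refine iSup_le fun v => ?_
        rw [AddSubgroup.map_iSup]
        refine iSup_le fun hv => ?_
        refine le_trans ?_ (le_iSup_of_le v (le_iSup_of_le hv le_rfl))
        rintro _ ⟨_, ⟨z, rfl⟩, rfl⟩
        refine ⟨a * z, ?_⟩
        change Rr ad v (a * z) = a * Rr ad v z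
        rw [Rr_eq, Rr_eq, mul_assoc]
      exact hle ⟨x, hx, rfl⟩

theorem reg_raag (hs : ∀ a b, ad a b → ad b a) (hi : ∀ a, ¬ ad a a) : Reg ad (Rr ad) := by
  constructor
  · intro a b hab x
    simp only [Rr_apply, map_sub]
    rw [T_comm hab]
    abel
  · intro S v hv x hx
    rw [mem_Im_iff'] at hx ⊢
    let W' : Type := {w : V // w ∈ S ∨ w = v}
    let ad' : W' → W' → Prop := fun a b => ad a.1 b.1
    obtain ⟨F, hF, hFi⟩ := sub_th V W' ad ad' (fun w => w.1) Subtype.val_injective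
      (fun a b => Iff.rfl)
    let v' : W' := ⟨v, Or.inr rfl⟩
    have hst := Pool.Agent.W571.DU.BC.th ℤ (RAAG ad') (RAAG ad) F hFi _ _ _
      (Pool.Agent.W304.DU.RG.th ℤ W' ad' (fun a b h => hs _ _ h) (fun a h => hi _ h) v')
    have e1 : F '' (gen ad' '' {w | w ≠ v'}) = gen ad '' S := by
      ext g
      constructor
      · rintro ⟨_, ⟨w, hw, rfl⟩, rfl⟩
        refine ⟨w.1, ?_, (hF w).symm⟩
        rcases w.2 with h | h
        · exact h
        · exact absurd (Subtype.ext h) hw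
      · rintro ⟨w, hw, rfl⟩
        refine ⟨_, ⟨⟨w, Or.inl hw⟩, ?_, rfl⟩, hF _⟩
        intro h
        have : w = v := congrArg Subtype.val h
        exact hv (this ▸ hw)
    have e2 : F '' (gen ad' '' {w | ad' w v'}) = gen ad '' {w | w ∈ S ∧ ad w v} := by
      ext g
      constructor
      · rintro ⟨_, ⟨w, hw, rfl⟩, rfl⟩
        have hw' : ad w.1 v := hw
        refine ⟨w.1, ⟨?_, hw'⟩, (hF w).symm⟩
        rcases w.2 with h | h
        · exact h
        · rw [h] at hw'
          exact absurd hw' (hi v)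
      · rintro ⟨w, ⟨hw, hwv⟩, rfl⟩
        exact ⟨_, ⟨⟨w, Or.inl hw⟩, hwv, rfl⟩, hF _⟩
    rw [e1, e2, hF] at hst
    refine hst x ?_
    rw [← Rr_eq]
    exact hx

end regs

section steps

variable {V : Type} [Fintype V] {ad : V → V → Prop} (hs : ∀ a b, ad a b → ad b a)
  (hi : ∀ a, ¬ ad a a) (D : Acyc ad)

include hs hi in
theorem dd2 (y : V → V → ZG (RAAG ad)) (h : IsAlt2 ad Set.univ y) :
    ∑ b, Rr ad b (∑ a, Rr ad a (y a b)) = 0 :=
  Pool.Agent.W304.DU.dd (Rr ad) (reg_raag hs hi) hi y h.1 (fun a b hab => h.2 a b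
    (fun h => hab h.2.2))

include hs hi in
theorem dd3 (z : V → V → V → ZG (RAAG ad)) (h : IsAlt3 ad Set.univ z) (c : V) :
    ∑ b, Rr ad b (∑ a, Rr ad a (z a b c)) = 0 :=
  Pool.Agent.W304.DU.dd (Rr ad) (reg_raag hs hi) hi (fun a b => z a b c)
    (fun a b => h.1 a b c) (fun a b hab => h.2.2 a b c (fun h => hab h.2.2.2.1))

theorem Pn_Rr {a b : ℤ} {x : ZG (RAAG ad)} (hx : x ∈ HB ad a b) (v : V) :
    Pn ad a (Rr ad v x) = - Pn ad a x := by
  rw [Rr_apply, map_sub]
  have : Pn ad a (T v x) = 0 := Pn_zero (T_HB hx v) (Or.inl (by omega))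
  rw [this, zero_sub]

theorem Pn_Rr' {a b : ℤ} {x : ZG (RAAG ad)} (hx : x ∈ HB ad a b) (v : V) :
    Pn ad (b + 1) (Rr ad v x) = T v (Pn ad b x) := by
  rw [Rr_apply, map_sub, Pn_T]
  have : Pn ad (b + 1) x = 0 := Pn_zero hx (Or.inr (by omega))
  rw [this, sub_zero]

include hs hi D in
theorem bot1 (a b : ℤ) (hab : a + 1 ≤ b) (w : V → ZG (RAAG ad)) (hw : ∀ v, w v ∈ HB ad a b)
    (h : Pn ad a (∑ v, Rr ad v (w v)) = 0) :
    ∃ w' : V → ZG (RAAG ad), (∀ v, w' v ∈ HB ad (a + 1) b) ∧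
      ∑ v, Rr ad v (w' v) = ∑ v, Rr ad v (w v) := by
  have h1 : ∑ v, Pn ad a (w v) = 0 := by
    rw [map_sum] at h
    rw [← neg_eq_zero, ← Finset.sum_neg_distrib, ← h]
    exact Finset.sum_congr rfl fun v _ => (Pn_Rr (hw v) v).symm
  obtain ⟨y, hy, hyS, hxy⟩ := ac1' D (HB ad a a) (fun v => Pn ad a (w v)) (fun v => Pn_HB _ _) h1
  refine ⟨fun v => w v + ∑ u, Rr ad u (y u v), fun v => ?_, ?_⟩
  · have e1 : w v + ∑ u, Rr ad u (y u v) = (w v - Pn ad a (w v)) + ∑ u, T u (y u v) := by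
      have : ∑ u, Rr ad u (y u v) = ∑ u, T u (y u v) - ∑ u, y u v := by
        rw [← Finset.sum_sub_distrib]
        rfl
      rw [this, ← hxy v]
      abel
    dsimp only
    rw [e1]
    refine add_mem (Pn_bot (hw v)) (sum_mem fun u _ => ?_)
    exact HB_mono le_rfl hab (T_HB (hyS u v) u)
  · simp only [map_add, Finset.sum_add_distrib]
    rw [dd2 hs hi y hy, add_zero]

include hs hi D in
theorem top1 (a b : ℤ) (hab : a ≤ b - 1) (w : V → ZG (RAAG ad)) (hw : ∀ v, w v ∈ HB ad a b)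
    (h : Pn ad (b + 1) (∑ v, Rr ad v (w v)) = 0) :
    ∃ w' : V → ZG (RAAG ad), (∀ v, w' v ∈ HB ad a (b - 1)) ∧
      ∑ v, Rr ad v (w' v) = ∑ v, Rr ad v (w v) := by
  have h1 : ∑ v, T v (Pn ad b (w v)) = 0 := by
    rw [map_sum] at h
    rw [← h]
    exact Finset.sum_congr rfl fun v _ => (Pn_Rr' (hw v) v).symm
  obtain ⟨y, hy, hyS, hxy⟩ := ac1' D (HB ad (b + 1) (b + 1)) (fun v => T v (Pn ad b (w v)))
    (fun v => T_HB (Pn_HB _ _) v) h1
  let y' : V → V → ZG (RAAG ad) := fun u v => (T u).symm ((T v).symm (y u v))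
  have hTs : ∀ u v, ad u v → ∀ x : ZG (RAAG ad), (T u).symm ((T v).symm x) =
      (T v).symm ((T u).symm x) := fun u v huv x => Ts_comm huv x
  have hy' : IsAlt2 ad Set.univ y' := by
    refine ⟨fun u v => ?_, fun u v huv => ?_⟩
    · show (T u).symm ((T v).symm (y u v)) = -(T v).symm ((T u).symm (y v u))
      by_cases huv : ad u v
      · rw [hy.1 u v, map_neg, map_neg, hTs u v huv]
      · rw [hy.2 u v (fun h => huv h.2.2), hy.2 v u (fun h => huv (hs _ _ h.2.2))]
        simp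
    · show (T u).symm ((T v).symm (y u v)) = 0
      rw [hy.2 u v huv]; simp
  have hyS' : ∀ u v, y' u v ∈ HB ad (b - 1) (b - 1) := by
    intro u v
    have := Ts_HB (Ts_HB (hyS u v) v) u
    rwa [show b + 1 - 1 - 1 = b - 1 by ring] at this
  refine ⟨fun v => w v - ∑ u, Rr ad u (y' u v), fun v => ?_, ?_⟩
  · have e2 : ∑ u, T u (y' u v) = Pn ad b (w v) := by
      have e3 : ∀ u, T u (y' u v) = (T v).symm (y u v) := fun u => AddEquiv.apply_symm_apply _ _
      rw [Finset.sum_congr rfl fun u _ => e3 u, ← map_sum, ← hxy v]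
      exact AddEquiv.symm_apply_apply _ _
    have e1 : w v - ∑ u, Rr ad u (y' u v) = (w v - Pn ad b (w v)) + ∑ u, y' u v := by
      have : ∑ u, Rr ad u (y' u v) = ∑ u, T u (y' u v) - ∑ u, y' u v := by
        rw [← Finset.sum_sub_distrib]
        rfl
      rw [this, e2]
      abel
    dsimp only
    rw [e1]
    refine add_mem (Pn_top (hw v)) (sum_mem fun u _ => ?_)
    exact HB_mono hab le_rfl (hyS' u v)
  · simp only [map_sub, Finset.sum_sub_distrib]
    rw [dd2 hs hi y' hy', sub_zero]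

include hs hi D in
theorem bot2 (a b : ℤ) (hab : a + 1 ≤ b) (w : V → V → ZG (RAAG ad))
    (hA : IsAlt2 ad Set.univ w) (hw : ∀ u v, w u v ∈ HB ad a b)
    (h : ∀ c, Pn ad a (∑ v, Rr ad v (w v c)) = 0) :
    ∃ w' : V → V → ZG (RAAG ad), IsAlt2 ad Set.univ w' ∧ (∀ u v, w' u v ∈ HB ad (a + 1) b) ∧
      ∀ c, ∑ v, Rr ad v (w' v c) = ∑ v, Rr ad v (w v c) := by
  have h1 : ∀ c, ∑ v, Pn ad a (w v c) = 0 := by
    intro c
    have h := h c
    rw [map_sum] at h
    rw [← neg_eq_zero, ← Finset.sum_neg_distrib, ← h]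
    exact Finset.sum_congr rfl fun v _ => (Pn_Rr (hw v c) v).symm
  obtain ⟨z, hz', hzS, hxz⟩ := ac2' D (HB ad a a) (fun u v => Pn ad a (w u v)) ⟨fun u v => by
      dsimp only
      rw [hA.1 u v, map_neg], fun u v huv => by dsimp only; rw [hA.2 u v huv, map_zero]⟩
      (fun u v => Pn_HB _ _) h1
  refine ⟨fun v c => w v c + ∑ u, Rr ad u (z u v c), ⟨fun v c => ?_, fun v c hvc => ?_⟩,
    fun v c => ?_, fun c => ?_⟩
  · dsimp only
    rw [hA.1 v c, neg_add, ← Finset.sum_neg_distrib]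
    congr 1
    exact Finset.sum_congr rfl fun u _ => by rw [hz'.2.1 u v c, map_neg]
  · dsimp only
    rw [hA.2 v c hvc, zero_add]
    refine Finset.sum_eq_zero fun u _ => ?_
    rw [hz'.2.2 u v c, map_zero]
    rintro ⟨-, -, -, -, h3, -⟩
    exact hvc ⟨trivial, trivial, h3⟩
  · have e1 : w v c + ∑ u, Rr ad u (z u v c) = (w v c - Pn ad a (w v c)) + ∑ u, T u (z u v c) := by
      have : ∑ u, Rr ad u (z u v c) = ∑ u, T u (z u v c) - ∑ u, z u v c := by
        rw [← Finset.sum_sub_distrib]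
        rfl
      rw [this, ← hxz v c]
      abel
    dsimp only
    rw [e1]
    refine add_mem (Pn_bot (hw v c)) (sum_mem fun u _ => ?_)
    exact HB_mono le_rfl hab (T_HB (hzS u v c) u)
  · simp only [map_add, Finset.sum_add_distrib]
    rw [dd3 hs hi z hz' c, add_zero]

include hs hi D in
theorem top2 (a b : ℤ) (hab : a ≤ b - 1) (w : V → V → ZG (RAAG ad))
    (hA : IsAlt2 ad Set.univ w) (hw : ∀ u v, w u v ∈ HB ad a b)
    (h : ∀ c, Pn ad (b + 1) (∑ v, Rr ad v (w v c)) = 0) :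
    ∃ w' : V → V → ZG (RAAG ad), IsAlt2 ad Set.univ w' ∧ (∀ u v, w' u v ∈ HB ad a (b - 1)) ∧
      ∀ c, ∑ v, Rr ad v (w' v c) = ∑ v, Rr ad v (w v c) := by
  have h1 : ∀ c, ∑ v, T v (Pn ad b (w v c)) = 0 := by
    intro c
    have h := h c
    rw [map_sum] at h
    rw [← h]
    exact Finset.sum_congr rfl fun v _ => (Pn_Rr' (hw v c) v).symm
  have hTs : ∀ u v, ad u v → ∀ x : ZG (RAAG ad), (T u).symm ((T v).symm x) =
      (T v).symm ((T u).symm x) := fun u v huv x => Ts_comm huv x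
  obtain ⟨z, hz', hzS, hxz⟩ := ac2' D (HB ad (b + 2) (b + 2))
    (fun u v => T u (T v (Pn ad b (w u v)))) ⟨fun u v => by
      show T u (T v (Pn ad b (w u v))) = - T v (T u (Pn ad b (w v u)))
      by_cases huv : ad u v
      · rw [hA.1 u v, map_neg, map_neg, map_neg, T_comm huv]
      · rw [hA.2 u v (fun h => huv h.2.2), hA.2 v u (fun h => huv (hs _ _ h.2.2))]
        simp, fun u v huv => by
      show T u (T v (Pn ad b (w u v))) = 0
      rw [hA.2 u v huv]; simp⟩
      (fun u v => by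
        have := T_HB (T_HB (Pn_HB b (w u v)) v) u
        rwa [show b + 1 + 1 = b + 2 by ring] at this) (fun c => by
        have e1 : ∀ u, T u (T c (Pn ad b (w u c))) = T c (T u (Pn ad b (w u c))) := by
          intro u
          by_cases huc : ad u c
          · exact T_comm huc _
          · rw [hA.2 u c (fun h => huc h.2.2)]; simp
        rw [Finset.sum_congr rfl fun u _ => e1 u, ← map_sum, h1 c, map_zero])
  let z' : V → V → V → ZG (RAAG ad) := fun u v c => (T u).symm ((T v).symm ((T c).symm (z u v c)))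
  have hzz : IsAlt3 ad Set.univ z' := by
    have hzero : ∀ u v c, z u v c = 0 → z' u v c = 0 := by
      intro u v c h
      show (T u).symm ((T v).symm ((T c).symm (z u v c))) = 0
      rw [h]; simp
    refine ⟨fun u v c => ?_, fun u v c => ?_, fun u v c huv => hzero _ _ _ (hz'.2.2 u v c huv)⟩
    · by_cases huv : ad u v
      · show (T u).symm ((T v).symm ((T c).symm (z u v c))) =
          -(T v).symm ((T u).symm ((T c).symm (z v u c)))
        rw [hz'.1 u v c, map_neg, map_neg, map_neg, hTs u v huv]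
      · rw [hzero u v c (hz'.2.2 u v c (fun h => huv h.2.2.2.1)),
          hzero v u c (hz'.2.2 v u c (fun h => huv (hs _ _ h.2.2.2.1))), neg_zero]
    · by_cases hvc : ad v c
      · show (T u).symm ((T v).symm ((T c).symm (z u v c))) =
          -(T u).symm ((T c).symm ((T v).symm (z u c v)))
        rw [hz'.2.1 u v c, map_neg, map_neg, map_neg, hTs v c hvc]
      · rw [hzero u v c (hz'.2.2 u v c (fun h => hvc h.2.2.2.2.1)),
          hzero u c v (hz'.2.2 u c v (fun h => hvc (hs _ _ h.2.2.2.2.1))), neg_zero]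
  have hzzS : ∀ u v c, z' u v c ∈ HB ad (b - 1) (b - 1) := by
    intro u v c
    have := Ts_HB (Ts_HB (Ts_HB (hzS u v c) c) v) u
    rwa [show b + 2 - 1 - 1 - 1 = b - 1 by ring] at this
  refine ⟨fun v c => w v c - ∑ u, Rr ad u (z' u v c), ⟨fun v c => ?_, fun v c hvc => ?_⟩,
    fun v c => ?_, fun c => ?_⟩
  · dsimp only
    rw [hA.1 v c, neg_sub, sub_eq_add_neg, ← Finset.sum_neg_distrib, add_comm, sub_eq_add_neg]
    congr 1
    exact Finset.sum_congr rfl fun u _ => by rw [hzz.2.1 u v c, map_neg, neg_neg]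
  · dsimp only
    rw [hA.2 v c hvc, zero_sub, neg_eq_zero]
    refine Finset.sum_eq_zero fun u _ => ?_
    rw [hzz.2.2 u v c, map_zero]
    rintro ⟨-, -, -, -, h3, -⟩
    exact hvc ⟨trivial, trivial, h3⟩
  · have e2 : ∑ u, T u (z' u v c) = Pn ad b (w v c) := by
      have e3 : ∀ u, T u (z' u v c) = (T v).symm ((T c).symm (z u v c)) :=
        fun u => AddEquiv.apply_symm_apply _ _
      rw [Finset.sum_congr rfl fun u _ => e3 u, ← map_sum, ← map_sum, ← hxz v c]
      by_cases hvc : ad v c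
      · rw [T_comm hvc, AddEquiv.symm_apply_apply, AddEquiv.symm_apply_apply]
      · rw [hA.2 v c (fun h => hvc h.2.2)]; simp
    have e1 : w v c - ∑ u, Rr ad u (z' u v c) = (w v c - Pn ad b (w v c)) + ∑ u, z' u v c := by
      have : ∑ u, Rr ad u (z' u v c) = ∑ u, T u (z' u v c) - ∑ u, z' u v c := by
        rw [← Finset.sum_sub_distrib]
        rfl
      rw [this, e2]
      abel
    dsimp only
    rw [e1]
    refine add_mem (Pn_top (hw v c)) (sum_mem fun u _ => ?_)
    exact HB_mono hab le_rfl (hzzS u v c)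
  · simp only [map_sub, Finset.sum_sub_distrib]
    rw [dd3 hs hi z' hzz c, sub_zero]

include D in
theorem bot3 (a b : ℤ) (w : V → V → V → ZG (RAAG ad))
    (hA : IsAlt3 ad Set.univ w) (hw : ∀ u v c, w u v c ∈ HB ad a b)
    (h : ∀ c d, Pn ad a (∑ v, Rr ad v (w v c d)) = 0) :
    ∀ u v c, w u v c ∈ HB ad (a + 1) b := by
  have h1 : ∀ c d, ∑ v, Pn ad a (w v c d) = 0 := by
    intro c d
    have h := h c d
    rw [map_sum] at h
    rw [← neg_eq_zero, ← Finset.sum_neg_distrib, ← h]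
    exact Finset.sum_congr rfl fun v _ => (Pn_Rr (hw v c d) v).symm
  have h2 := D.ac3 (ZG (RAAG ad)) (fun u v c => Pn ad a (w u v c)) ⟨fun u v c => by
      dsimp only
      rw [hA.1 u v c, map_neg], fun u v c => by dsimp only; rw [hA.2.1 u v c, map_neg],
      fun u v c huv => by dsimp only; rw [hA.2.2 u v c huv, map_zero]⟩ h1
  intro u v c
  have := Pn_bot (hw u v c)
  rwa [h2, sub_zero] at this

include hs D in
theorem top3 (a b : ℤ) (w : V → V → V → ZG (RAAG ad))
    (hA : IsAlt3 ad Set.univ w) (hw : ∀ u v c, w u v c ∈ HB ad a b)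
    (h : ∀ c d, Pn ad (b + 1) (∑ v, Rr ad v (w v c d)) = 0) :
    ∀ u v c, w u v c ∈ HB ad a (b - 1) := by
  have h1 : ∀ c d, ∑ v, T v (Pn ad b (w v c d)) = 0 := by
    intro c d
    have h := h c d
    rw [map_sum] at h
    rw [← h]
    exact Finset.sum_congr rfl fun v _ => (Pn_Rr' (hw v c d) v).symm
  have hzero : ∀ u v c, w u v c = 0 → T u (T v (T c (Pn ad b (w u v c)))) = 0 := by
    intro u v c h
    rw [h]; simp
  have h2 := D.ac3 (ZG (RAAG ad)) (fun u v c => T u (T v (T c (Pn ad b (w u v c)))))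
    ⟨fun u v c => by
      show T u (T v (T c (Pn ad b (w u v c)))) = - T v (T u (T c (Pn ad b (w v u c))))
      by_cases huv : ad u v
      · rw [hA.1 u v c, map_neg, map_neg, map_neg, map_neg, T_comm huv]
      · rw [hzero u v c (hA.2.2 u v c (fun h => huv h.2.2.2.1)),
          hzero v u c (hA.2.2 v u c (fun h => huv (hs _ _ h.2.2.2.1))), neg_zero],
    fun u v c => by
      show T u (T v (T c (Pn ad b (w u v c)))) = - T u (T c (T v (Pn ad b (w u c v))))
      by_cases hvc : ad v c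
      · rw [hA.2.1 u v c, map_neg, map_neg, map_neg, map_neg, T_comm hvc]
      · rw [hzero u v c (hA.2.2 u v c (fun h => hvc h.2.2.2.2.1)),
          hzero u c v (hA.2.2 u c v (fun h => hvc (hs _ _ h.2.2.2.2.1))), neg_zero],
    fun u v c huv => hzero _ _ _ (hA.2.2 u v c huv)⟩ (fun c d => by
      have e1 : ∀ u, T u (T c (T d (Pn ad b (w u c d)))) = T c (T d (T u (Pn ad b (w u c d)))) := by
        intro u
        by_cases h0 : ad u c ∧ ad u d
        · rw [T_comm h0.1, T_comm h0.2]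
        · rw [hA.2.2 u c d (fun h => h0 ⟨h.2.2.2.1, h.2.2.2.2.2⟩)]; simp
      rw [Finset.sum_congr rfl fun u _ => e1 u, ← map_sum, ← map_sum, h1 c d, map_zero, map_zero])
  intro u v c
  have h3 : Pn ad b (w u v c) = 0 := by
    have h4 := h2 u v c
    rw [AddEquiv.map_eq_zero_iff, AddEquiv.map_eq_zero_iff, AddEquiv.map_eq_zero_iff] at h4
    exact h4
  have := Pn_top (hw u v c)
  rwa [h3, sub_zero] at this

end steps

section main

variable {V : Type} [Fintype V] {ad : V → V → Prop} (hs : ∀ a b, ad a b → ad b a)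
  (hi : ∀ a, ¬ ad a a) (D : Acyc ad)
  (hk : ∀ a b c d, ad a b → ad a c → ad a d → ad b c → ad b d → ¬ ad c d)

theorem ex_all {ι : Type} [Finite ι] (w : ι → ZG (RAAG ad)) :
    ∃ n : ℕ, ∀ i, w i ∈ HB ad (-(n : ℤ)) n := by
  classical
  have := Fintype.ofFinite ι
  have h := fun i => exists_HB (w i)
  choose n hn using h
  refine ⟨∑ i, n i, fun i => ?_⟩
  have h1 : n i ≤ ∑ i, n i := Finset.single_le_sum (fun _ _ => Nat.zero_le _) (Finset.mem_univ i)
  exact HB_mono (by push_cast; have : (n i : ℤ) ≤ ((∑ i, n i : ℕ) : ℤ) := by exact_mod_cast h1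
                    push_cast at this; linarith)
    (by exact_mod_cast h1) (hn i)

include hs hi D in
/-- exactness at the vertices -/
theorem slab0 (x : ZG (RAAG ad)) (hx : x ∈ HB ad 0 2) (ha : augm (RAAG ad) x = 0) :
    ∃ w : V → ZG (RAAG ad), (∀ v, w v ∈ HB ad 0 1) ∧ ∑ v, Rr ad v (w v) = x := by
  have h1 : x ∈ IL ℤ (Set.range (gen ad)) := aug_th (RAAG ad) (Set.range (gen ad)) closure_gen' x ha
  obtain ⟨w0, hw0⟩ := (mem_IL_range _ _).1 h1
  have hw0' : ∑ v, Rr ad v (w0 v) = x := by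
    rw [← hw0, fox_apply]
    exact Finset.sum_congr rfl fun v _ => Rr_eq v _
  obtain ⟨n, hn⟩ := ex_all w0
  -- bottom reduction
  have hb : ∀ m : ℕ, ∀ w : V → ZG (RAAG ad), (∀ v, w v ∈ HB ad (-(m : ℤ)) (n + 1)) →
      ∑ v, Rr ad v (w v) = x → ∃ w' : V → ZG (RAAG ad), (∀ v, w' v ∈ HB ad 0 (n + 1)) ∧
        ∑ v, Rr ad v (w' v) = x := by
    intro m
    induction m with
    | zero =>
      intro w hw h
      exact ⟨w, fun v => by simpa using hw v, h⟩
    | succ m ih =>
      intro w hw h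
      obtain ⟨w', hw', h'⟩ := bot1 hs hi D (-((m + 1 : ℕ) : ℤ)) (n + 1) (by push_cast; omega) w hw
        (by rw [h]; exact Pn_zero hx (Or.inl (by push_cast; omega)))
      refine ih w' (fun v => ?_) (h'.trans h)
      have := hw' v
      rwa [show -((m + 1 : ℕ) : ℤ) + 1 = -(m : ℤ) by push_cast; ring] at this
  obtain ⟨w1, hw1, h1⟩ := hb n w0 (fun v => HB_mono le_rfl (by omega) (hn v)) hw0'
  -- top reduction
  have ht : ∀ m : ℕ, ∀ w : V → ZG (RAAG ad), (∀ v, w v ∈ HB ad 0 (m + 1)) →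
      ∑ v, Rr ad v (w v) = x → ∃ w' : V → ZG (RAAG ad), (∀ v, w' v ∈ HB ad 0 1) ∧
        ∑ v, Rr ad v (w' v) = x := by
    intro m
    induction m with
    | zero =>
      intro w hw h
      exact ⟨w, fun v => by simpa using hw v, h⟩
    | succ m ih =>
      intro w hw h
      obtain ⟨w', hw', h'⟩ := top1 hs hi D 0 (((m + 1 : ℕ) : ℤ) + 1) (by push_cast; omega) w hw
        (by rw [h]; exact Pn_zero hx (Or.inr (by push_cast; omega)))
      refine ih w' (fun v => ?_) (h'.trans h)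
      have := hw' v
      rwa [show ((m + 1 : ℕ) : ℤ) + 1 - 1 = (m : ℤ) + 1 by push_cast; ring] at this
  exact ht n w1 hw1 h1

include hs hi D hk in
/-- exactness at the edges -/
theorem slab1 (x : V → ZG (RAAG ad)) (hx : ∀ v, x v ∈ HB ad 0 1)
    (ha : ∑ v, Rr ad v (x v) = 0) :
    ∃ y : V → V → ZG (RAAG ad), IsAlt2 ad Set.univ y ∧ (∀ u v, y u v ∈ HB ad 0 0) ∧
      ∀ b, ∑ a, Rr ad a (y a b) = x b := by
  obtain ⟨y0, hy0, hxy0⟩ := (Pool.Agent.W304.DU.th V (ZG (RAAG ad)) ad (Rr ad) hs hi hk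
    (reg_raag hs hi) Finset.univ).1 x (fun v hv => absurd (Finset.mem_univ v) hv) ha
  rw [Finset.coe_univ] at hy0
  obtain ⟨n, hn⟩ := ex_all (fun p : V × V => y0 p.1 p.2)
  have hb : ∀ m : ℕ, ∀ w : V → V → ZG (RAAG ad), IsAlt2 ad Set.univ w →
      (∀ u v, w u v ∈ HB ad (-(m : ℤ)) (n + 1)) →
      (∀ c, ∑ v, Rr ad v (w v c) = x c) → ∃ w' : V → V → ZG (RAAG ad), IsAlt2 ad Set.univ w' ∧
        (∀ u v, w' u v ∈ HB ad 0 (n + 1)) ∧ ∀ c, ∑ v, Rr ad v (w' v c) = x c := by
    intro m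
    induction m with
    | zero =>
      intro w hA hw h
      exact ⟨w, hA, fun u v => by simpa using hw u v, h⟩
    | succ m ih =>
      intro w hA hw h
      obtain ⟨w', hA', hw', h'⟩ := bot2 hs hi D (-((m + 1 : ℕ) : ℤ)) (n + 1)
        (by push_cast; omega) w hA hw
        (fun c => by rw [h]; exact Pn_zero (hx c) (Or.inl (by push_cast; omega)))
      refine ih w' hA' (fun u v => ?_) (fun c => (h' c).trans (h c))
      have := hw' u v
      rwa [show -((m + 1 : ℕ) : ℤ) + 1 = -(m : ℤ) by push_cast; ring] at this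
  obtain ⟨w1, hA1, hw1, h1⟩ := hb n y0 hy0 (fun u v => HB_mono le_rfl (by omega) (hn (u, v)))
    (fun c => (hxy0 c).symm)
  have ht : ∀ m : ℕ, ∀ w : V → V → ZG (RAAG ad), IsAlt2 ad Set.univ w →
      (∀ u v, w u v ∈ HB ad 0 m) →
      (∀ c, ∑ v, Rr ad v (w v c) = x c) → ∃ w' : V → V → ZG (RAAG ad), IsAlt2 ad Set.univ w' ∧
        (∀ u v, w' u v ∈ HB ad 0 0) ∧ ∀ c, ∑ v, Rr ad v (w' v c) = x c := by
    intro m
    induction m with
    | zero =>
      intro w hA hw h
      exact ⟨w, hA, fun u v => by simpa using hw u v, h⟩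
    | succ m ih =>
      intro w hA hw h
      obtain ⟨w', hA', hw', h'⟩ := top2 hs hi D 0 ((m + 1 : ℕ) : ℤ) (by push_cast; omega) w hA hw
        (fun c => by rw [h]; exact Pn_zero (hx c) (Or.inr (by push_cast; omega)))
      refine ih w' hA' (fun u v => ?_) (fun c => (h' c).trans (h c))
      have := hw' u v
      rwa [show ((m + 1 : ℕ) : ℤ) - 1 = (m : ℤ) by push_cast; ring] at this
  exact ht (n + 1) w1 hA1 (fun u v => by have := hw1 u v; push_cast; exact this) h1

include hs hi D hk in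
/-- exactness at the squares -/
theorem slab2 (y : V → V → ZG (RAAG ad)) (hy : IsAlt2 ad Set.univ y)
    (hyS : ∀ u v, y u v ∈ HB ad 0 0) (ha : ∀ b, ∑ a, Rr ad a (y a b) = 0) :
    ∀ a b, y a b = 0 := by
  obtain ⟨z, hz', hyz⟩ := (Pool.Agent.W304.DU.th V (ZG (RAAG ad)) ad (Rr ad) hs hi hk
    (reg_raag hs hi) Finset.univ).2.1 y (by rw [Finset.coe_univ]; exact hy) ha
  rw [Finset.coe_univ] at hz'
  obtain ⟨n, hn⟩ := ex_all (fun p : V × V × V => z p.1 p.2.1 p.2.2)
  have hb : ∀ m : ℕ, (∀ u v c, z u v c ∈ HB ad (-(m : ℤ)) n) →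
      ∀ u v c, z u v c ∈ HB ad 0 n := by
    intro m
    induction m with
    | zero => intro h u v c; simpa using h u v c
    | succ m ih =>
      intro h
      apply ih
      intro u v c
      have := bot3 D (-((m + 1 : ℕ) : ℤ)) n z hz' h (fun c d => by
        rw [← hyz c d]; exact Pn_zero (hyS c d) (Or.inl (by push_cast; omega))) u v c
      rwa [show -((m + 1 : ℕ) : ℤ) + 1 = -(m : ℤ) by push_cast; ring] at this
  have h1 := hb n (fun u v c => hn (u, v, c))
  have ht : ∀ m : ℕ, (∀ u v c, z u v c ∈ HB ad 0 ((m : ℤ) - 1)) →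
      ∀ u v c, z u v c ∈ HB ad 0 (-1) := by
    intro m
    induction m with
    | zero => intro h u v c; simpa using h u v c
    | succ m ih =>
      intro h
      apply ih
      intro u v c
      have := top3 hs D 0 (((m + 1 : ℕ) : ℤ) - 1) z hz' h (fun c d => by
        rw [← hyz c d]; exact Pn_zero (hyS c d) (Or.inr (by push_cast; omega))) u v c
      rwa [show ((m + 1 : ℕ) : ℤ) - 1 - 1 = (m : ℤ) - 1 by push_cast; ring] at this
  have h2 := ht (n + 1) (fun u v c => by
    have := h1 u v c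
    rwa [show ((n + 1 : ℕ) : ℤ) - 1 = (n : ℤ) by push_cast; ring])
  intro a b
  rw [hyz a b]
  refine Finset.sum_eq_zero fun u _ => ?_
  rw [HB_empty (by norm_num) (h2 u a b), map_zero]

end main

end Pool.Agent.Y66.HC
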